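import Pool.Agent.N784.CZ.Avg
import Pool.Agent.N833.CZ.Glue

/-!
# All the characters modulo `𝔮` of a given type, the ones of conductor one included (helper784)
-/

set_option autoImplicit false
set_option linter.unusedSectionVars false

open NumberField Complex Filter Topology MeasureTheory Set

namespace Pool.Agent.N784.CZ

open Pool.Agent.Y773 (TPos LI zz)
open Pool.Agent.Y773.G (sg_sq)
open Pool.Agent.Y767 (Mq Mq_cop Mq_ne_bot Cls cls eq_of_LI)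
open Pool.Agent.Y773.IQ (tM ofM' ofM'_pos ofM'_supp cop_mono absNorm_pos' cop_one)
open Pool.Agent.N784.HC
open Pool.Agent.N784.AD (pi1 pi1_coe pi2 pi2_coe Un one_le_Un hK T1 T1_cop T1_one T1_tp)
open Pool.Agent.N833.CZ (norm_ofM'_le)
open Pool.Agent.R399.TW (pt pt_re pt_im pt_cont)

section

variable {K : Type} [Field K] [NumberField K] {n : (K →+* ℂ) → ℕ}

/-- a character modulo `𝔮` of type `n`, with the full infinity type -/
theorem modK_of {𝔮 : Ideal (𝓞 K)} (hbot : 𝔮 ≠ ⊥) (htop : 𝔮 ≠ ⊤) {F : Mq 𝔮 →* ℂˣ}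
    (hF : F ∈ Dn n htop) :
    ∃ e : InfinitePlace K → ℕ, (∀ w, e w ≤ 1) ∧ (∀ w : InfinitePlace K, w.IsComplex → e w = 0) ∧
      IsModK 𝔮 (kp (fty n e)) (ofM' htop F) := by
  have hray : ∀ x : 𝓞 K, x ≠ 0 → x - 1 ∈ 𝔮 → TPos K x →
      ofM' htop F (Ideal.span {x}) = ph n (x : K) := by
    intro x _ hx1 hx2
    rw [ofM'_pos htop F (cop_one hx1)]
    have h2 : ((F (pi1 htop ⟨x, hx1, hx2⟩) : ℂˣ) : ℂ) =
        ((phT n htop ⟨x, hx1, hx2⟩ : ℂˣ) : ℂ) := by rw [hF ⟨x, hx1, hx2⟩]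
    rw [phT_coe] at h2
    exact h2
  obtain ⟨e, he, hc, hs⟩ := sig_gen hbot (fun x => ofM' htop F (Ideal.span {x}) * kp n (x : K))
    (by
      have h1 : ((1 : 𝓞 K) : K) = 1 := map_one (algebraMap (𝓞 K) K)
      rw [Ideal.span_singleton_one, ← Ideal.one_eq_top, map_one, h1, one_mul]
      have := (kap_kp n).nat 1 one_pos
      simpa using this)
    (fun x y => by
      have h1 : ((x * y : 𝓞 K) : K) = (x : K) * (y : K) := map_mul (algebraMap (𝓞 K) K) x y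
      rw [span_mul', h1, kp_mul]
      ring)
    (fun x hx hx1 hx2 => by
      rw [hray x hx hx1 hx2, kp_conj_mul n (by exact_mod_cast hx)])
  refine ⟨e, he, hc, ⟨kap_kp _, hbot, htop, fun 𝔞 => ofM'_supp htop F 𝔞, fun x hx hx1 => ?_⟩⟩
  have hxK : (x : K) ≠ 0 := by exact_mod_cast hx
  have h1 := hs x hx hx1
  have h2 : kp (fty n e) (x : K) = kp n (x : K) *
      (starRingEnd ℂ) (Pool.Agent.Y773.G.sg e (x : K)) := by
    unfold kp
    rw [ph_fty hc hxK, map_mul]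
  rw [h2, Pool.Agent.Y773.G.conj_sg, ← mul_assoc, h1]
  exact sg_sq e hxK

/-- entire continuation for all the characters modulo `𝔮` of a nonzero type -/
theorem ent_of (hn : CTyp n) (hn0 : n ≠ 0) {𝔮 : Ideal (𝓞 K)} (hbot : 𝔮 ≠ ⊥) (htop : 𝔮 ≠ ⊤)
    {F : Mq 𝔮 →* ℂˣ} (hF : F ∈ Dn n htop) :
    ∃ L : ℂ → ℂ, Differentiable ℂ L ∧ ∀ s : ℂ, 1 < s.re → L s = LI (ofM' htop F) s := by
  obtain ⟨e, he, hc, hmod⟩ := modK_of hbot htop hF
  exact LI_entire (hn.fty he hc) (inf_fty hn hn0 e).ne hmod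

variable (K) in
/-- a fixed modulus -/
lemma span_two : (Ideal.span {(2 : 𝓞 K)}) ≠ ⊥ ∧ (Ideal.span {(2 : 𝓞 K)}) ≠ ⊤ := by
  constructor
  · rw [Ne, Ideal.span_singleton_eq_bot]
    exact two_ne_zero
  · intro h
    have h1 : Ideal.absNorm (Ideal.span {(2 : 𝓞 K)}) = 1 := by
      rw [h]; exact Ideal.absNorm_top
    have h2 : Ideal.absNorm (Ideal.span {(2 : 𝓞 K)}) = 2 ^ Module.finrank ℚ K := by
      have h3 := Pool.Agent.Y773.absNorm_span_nat (K := K) 2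
      rw [← h3]
      norm_num
    rw [h2] at h1
    have h3 : Module.finrank ℚ K ≠ 0 := (Module.finrank_pos (R := ℚ) (M := K)).ne'
    exact absurd h1 (Nat.one_lt_two_pow h3).ne'

/-- restriction to the ideals prime to a larger modulus -/
lemma res_char {𝔮 𝔮' : Ideal (𝓞 K)} (hle : 𝔮' ≤ 𝔮) (F : Mq 𝔮 →* ℂˣ) :
    ∃ F' : Mq 𝔮' →* ℂˣ, ∀ (𝔞 : Ideal (𝓞 K)) (h : IsCoprime 𝔞 𝔮'),
      F' ⟨𝔞, h⟩ = F ⟨𝔞, cop_mono hle h⟩ :=
  ⟨F.comp (Submonoid.inclusion (S := Mq 𝔮') (T := Mq 𝔮) fun _ hx => cop_mono hle hx),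
    fun _ _ => rfl⟩

/-- the L-functions of the characters of conductor one are, up to a harmless factor, those of
finitely many characters of a fixed modulus -/
theorem dn0_red {𝔮 : Ideal (𝓞 K)} (hbot : 𝔮 ≠ ⊥) (htop : 𝔮 ≠ ⊤) {F : Mq 𝔮 →* ℂˣ}
    (hF : F ∈ Dn0 n 𝔮) : ∃ F'' : Mq (Ideal.span {(2 : 𝓞 K)}) →* ℂˣ,
      F'' ∈ Dn n (span_two K).2 ∧ ∀ (L L'' : ℂ → ℂ), Differentiable ℂ L → Differentiable ℂ L'' →
      (∀ s : ℂ, 1 < s.re → L s = LI (ofM' htop F) s) →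
      (∀ s : ℂ, 1 < s.re → L'' s = LI (ofM' (span_two K).2 F'') s) →
      ∀ z : ℂ, 0 < z.re → analyticOrderAt L z = analyticOrderAt L'' z := by
  obtain ⟨b2, t2⟩ := span_two K
  obtain ⟨𝔮', h𝔮'⟩ : ∃ 𝔮' : Ideal (𝓞 K), 𝔮' = 𝔮 * Ideal.span {(2 : 𝓞 K)} := ⟨_, rfl⟩
  have hbot' : 𝔮' ≠ ⊥ := by rw [h𝔮']; exact mul_ne_zero hbot b2
  have hle : 𝔮' ≤ 𝔮 := by rw [h𝔮']; exact Ideal.mul_le_left
  have hle2 : 𝔮' ≤ Ideal.span {(2 : 𝓞 K)} := by rw [h𝔮']; exact Ideal.mul_le_right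
  have htop' : 𝔮' ≠ ⊤ := fun h => htop (top_le_iff.mp (by rw [← h]; exact hle))
  obtain ⟨F', hF'⟩ := res_char hle F
  have hF'v : ∀ (x : 𝓞 K) (hx : IsCoprime (Ideal.span {x}) 𝔮'), TPos K x →
      ((F' ⟨Ideal.span {x}, hx⟩ : ℂˣ) : ℂ) = ph n (x : K) := by
    intro x hx hp
    rw [hF' _ hx]
    exact hF x (cop_mono hle hx) hp
  obtain ⟨F'', hF''⟩ := exists_ext hle2 hbot' htop' t2 F' (fun x => by
    ext
    rw [phT_coe]
    exact hF'v (x : 𝓞 K) (T1_cop x) (T1_tp x)) (fun x hx _ hp => hF'v x hx hp)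
  have hval : ∀ x : Mq 𝔮', ∀ h : IsCoprime (x : Ideal (𝓞 K)) (Ideal.span {(2 : 𝓞 K)}),
      F'' ⟨(x : Ideal (𝓞 K)), h⟩ = F' x := by
    intro x h
    have h2 := hF'' (x, 1)
    rw [map_one, mul_one] at h2
    rw [← h2]
    congr 1
    apply Subtype.ext
    rw [pi2_coe, Submonoid.coe_one, Ideal.span_singleton_one, ← Ideal.one_eq_top, mul_one]
  have hmem : F'' ∈ Dn n t2 := by
    intro x
    have h2 := hF'' (1, x)
    rw [map_one, one_mul] at h2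
    rw [← h2]
    congr 1
    apply Subtype.ext
    rw [pi2_coe, pi1_coe, Submonoid.coe_one, one_mul]
  have hFD : F ∈ Dn n htop := Dn0_sub htop hF
  refine ⟨F'', hmem, fun L L'' hL hL'' hs hs'' z hz => ?_⟩
  have n1 := norm_ofM'_le hbot htop hFD
  have n2 := norm_ofM'_le b2 t2 hmem
  have e1 : ∀ s : ℂ, 1 < s.re → LI (ofM' htop' F') s =
      LI (ofM' htop F) s * EB 𝔮' (ofM' htop F) s := fun s hs1 =>
    LI_ind hbot' n1 (fun 𝔞 h𝔞 => by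
      rw [ofM'_pos htop' F' h𝔞, ofM'_pos htop F (cop_mono hle h𝔞), hF' 𝔞 h𝔞]) (fun 𝔞 h𝔞 => by
      by_contra h
      exact h𝔞 ((ofM'_supp htop' _ 𝔞).mp h)) hs1
  have e2 : ∀ s : ℂ, 1 < s.re → LI (ofM' htop' F') s =
      LI (ofM' t2 F'') s * EB 𝔮' (ofM' t2 F'') s := fun s hs1 =>
    LI_ind hbot' n2 (fun 𝔞 h𝔞 => by
      rw [ofM'_pos htop' F' h𝔞, ofM'_pos t2 F'' (cop_mono hle2 h𝔞),
        hval ⟨𝔞, h𝔞⟩ (cop_mono hle2 h𝔞)]) (fun 𝔞 h𝔞 => by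
      by_contra h
      exact h𝔞 ((ofM'_supp htop' _ 𝔞).mp h)) hs1
  have e3 : (fun s => L s * EB 𝔮' (ofM' htop F) s) = fun s => L'' s * EB 𝔮' (ofM' t2 F'') s :=
    eq_of_LI (hL.mul (EB_diff hbot' _)) (hL''.mul (EB_diff hbot' _)) (fun s hs1 => by
      rw [hs s hs1, hs'' s hs1, ← e1 s hs1, e2 s hs1])
  rw [← order_EB hbot' n1 hL hz, ← order_EB hbot' n2 hL'' hz, e3]

/-- every character modulo `𝔮` of type `n` is of conductor one or induced by a member of the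
family -/
lemma dn_cases {𝔮 : Ideal (𝓞 K)} (hbot : 𝔮 ≠ ⊥) (htop : 𝔮 ≠ ⊤) {F : Mq 𝔮 →* ℂˣ}
    (hF : F ∈ Dn n htop) : F ∈ Dn0 n 𝔮 ∨ ∃ ψ ∈ FamN n 𝔮, tM 𝔮 ψ = F := by
  rcases exists_prim hbot htop F hF with h | ⟨𝔣, ψ, h3, h4, h5, h6⟩
  · exact Or.inl h
  · right
    have hψ : ψ ∈ FamN n 𝔮 := ⟨𝔣, h3, h4, h5⟩
    refine ⟨ψ, hψ, ?_⟩
    ext x
    rw [tM_coe htop hψ, h6]

end

/-- **the sum of the orders at the centre over all the characters modulo `𝔮` of a given nonzero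
type** -/
theorem ell_core (hPt : StPt) (hOrd : StOrd) (hLS : StLSP) (K : Type) [Field K] [NumberField K]
    {n : (K →+* ℂ) → ℕ} (hn : CTyp n) (hn0 : n ≠ 0) : ∃ C : ℝ, 1 ≤ C ∧
    ∀ (𝔮 : Ideal (𝓞 K)) (_ : 𝔮 ≠ ⊥) (htop : 𝔮 ≠ ⊤), ∃ L : (Mq 𝔮 →* ℂˣ) → ℂ → ℂ,
      (∀ F ∈ Dn n htop, Differentiable ℂ (L F) ∧ ∀ s : ℂ, 1 < s.re → L F s = LI (ofM' htop F) s) ∧
      ∑ᶠ F ∈ Dn n htop, (analyticOrderNatAt (L F) (1 / 2) : ℝ) ≤
        C * (Nat.card (Cls (pi1 htop)) * (1 + Real.log (Un 𝔮))) := by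
  classical
  obtain ⟨c, C, hc, hC, H⟩ := cen_avg hPt hOrd hLS K hn
  obtain ⟨b2, t2⟩ := span_two K
  -- the characters of the fixed modulus
  have hex2 : ∀ F : Mq (Ideal.span {(2 : 𝓞 K)}) →* ℂˣ, ∃ L : ℂ → ℂ, Differentiable ℂ L ∧
      (F ∈ Dn n t2 → ∀ s : ℂ, 1 < s.re → L s = LI (ofM' t2 F) s) := by
    intro F
    by_cases h : F ∈ Dn n t2
    · obtain ⟨L, h1, h2⟩ := ent_of hn hn0 b2 t2 h
      exact ⟨L, h1, fun _ => h2⟩
    · exact ⟨fun _ => 0, differentiable_const _, fun h' => absurd h' h⟩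
  choose L2 hL2d hL2 using hex2
  obtain ⟨hfin2, -⟩ := Dn_card_le (n := n) b2 t2
  obtain ⟨B, hB⟩ : ∃ B : ℕ, ∀ F ∈ Dn n t2, analyticOrderNatAt (L2 F) (1 / 2) ≤ B := by
    refine ⟨hfin2.toFinset.sup fun F => analyticOrderNatAt (L2 F) (1 / 2), fun F hF => ?_⟩
    exact Finset.le_sup (f := fun F => analyticOrderNatAt (L2 F) (1 / 2))
      (by rwa [Set.Finite.mem_toFinset])
  refine ⟨C + hK K * B, ?_, ?_⟩
  · have : (0 : ℝ) ≤ hK K * B := by positivity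
    linarith
  intro 𝔮 hbot htop
  have hex : ∀ F : Mq 𝔮 →* ℂˣ, ∃ L : ℂ → ℂ, (F ∈ Dn n htop → Differentiable ℂ L ∧
      ∀ s : ℂ, 1 < s.re → L s = LI (ofM' htop F) s) := by
    intro F
    by_cases h : F ∈ Dn n htop
    · obtain ⟨L, h1, h2⟩ := ent_of hn hn0 hbot htop h
      exact ⟨L, fun _ => ⟨h1, h2⟩⟩
    · exact ⟨fun _ => 0, fun h' => absurd h' h⟩
  choose L hL using hex
  refine ⟨L, hL, ?_⟩
  obtain ⟨hfin, -⟩ := Dn_card_le (n := n) hbot htop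
  obtain ⟨hffin, -⟩ := FamN_finite (n := n) hbot htop
  -- the L-functions of the primitive characters
  obtain ⟨A, hA, hP⟩ := primF K hn
  have hexP : ∀ ψ : Ideal (𝓞 K) →*₀ ℂ, ∃ G : ℂ → ℂ, (ψ ∈ FamN n 𝔮 → Differentiable ℂ G ∧
      ∀ s : ℂ, 1 < s.re → G s = LI ψ s) := by
    intro ψ
    by_cases h : ψ ∈ FamN n 𝔮
    · obtain ⟨𝔣, h1, h2, h3⟩ := h
      obtain ⟨-, G, g1, g2, -⟩ := hP 𝔣 ψ h2 h3
      exact ⟨G, fun _ => ⟨g1, g2⟩⟩
    · exact ⟨fun _ => 0, fun h' => absurd h' h⟩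
  choose G hG using hexP
  have hord : ∀ ψ ∈ FamN n 𝔮, analyticOrderNatAt (L (tM 𝔮 ψ)) (1 / 2) =
      analyticOrderNatAt (G ψ) (1 / 2) := by
    intro ψ hψ
    have h1 := hL (tM 𝔮 ψ) (tM_mem htop hψ)
    have h2 := hG ψ hψ
    have h3 : L (tM 𝔮 ψ) = fun s => G ψ s * EB 𝔮 ψ s :=
      eq_of_LI h1.1 (h2.1.mul (EB_diff hbot ψ)) (fun s hs => by
        rw [h1.2 s hs, h2.2 s hs]
        exact LI_ind hbot (FamN_norm_le hψ) (ind_pos htop hψ) (ind_zero htop ψ) hs)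
    unfold analyticOrderNatAt
    rw [h3, order_EB hbot (FamN_norm_le hψ) h2.1 (by norm_num)]
  obtain ⟨J, hJ⟩ : ∃ J : Finset (Ideal (𝓞 K) →*₀ ℂ), J = hffin.toFinset := ⟨_, rfl⟩
  have hJm : ∀ ψ, ψ ∈ J ↔ ψ ∈ FamN n 𝔮 := fun ψ => by rw [hJ, Set.Finite.mem_toFinset]
  have havg := (H 𝔮 hbot htop J (fun ψ hψ => (hJm ψ).mp hψ) G (fun ψ hψ => hG ψ ((hJm ψ).mp hψ)) 0
    (fun _ => {1 / 2}) (fun ψ _ x hx => by
      rw [Finset.mem_singleton] at hx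
      have h1 : x - pt (1 / 2) 0 = 0 := by
        rw [hx]
        unfold pt
        push_cast
        ring
      rw [h1, norm_zero]
      have h2 : 0 ≤ Real.log (Ideal.absNorm 𝔮) := Real.log_natCast_nonneg _
      positivity)).2
  simp only [Finset.sum_singleton, abs_zero, add_zero, Real.log_one] at havg
  have hUn : (1 : ℝ) ≤ (Un 𝔮 : ℝ) := by exact_mod_cast one_le_Un hbot
  have hlU : 0 ≤ Real.log (Un 𝔮) := Real.log_nonneg hUn
  have hcl1 : (1 : ℝ) ≤ Nat.card (Cls (pi1 htop)) := by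
    have := (Pool.Agent.N784.AD.cls_card_le hbot htop).1
    exact_mod_cast Nat.card_pos
  -- splitting
  have hD0fin : (Dn0 n 𝔮).Finite := hfin.subset (Dn0_sub htop)
  have hsplit : ∑ F ∈ hfin.toFinset, (analyticOrderNatAt (L F) (1 / 2) : ℝ) ≤
      ∑ F ∈ J.image (tM 𝔮), (analyticOrderNatAt (L F) (1 / 2) : ℝ) +
      ∑ F ∈ hD0fin.toFinset, (analyticOrderNatAt (L F) (1 / 2) : ℝ) := by
    rw [← Finset.sum_union_inter]
    have h1 : hfin.toFinset ⊆ J.image (tM 𝔮) ∪ hD0fin.toFinset := by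
      intro F hF
      rw [Set.Finite.mem_toFinset] at hF
      rw [Finset.mem_union]
      rcases dn_cases hbot htop hF with h | ⟨ψ, h2, h3⟩
      · right
        rwa [Set.Finite.mem_toFinset]
      · left
        rw [Finset.mem_image]
        exact ⟨ψ, (hJm ψ).mpr h2, h3⟩
    have h2 := Finset.sum_le_sum_of_subset_of_nonneg h1
      (f := fun F => (analyticOrderNatAt (L F) (1 / 2) : ℝ)) (fun _ _ _ => Nat.cast_nonneg _)
    refine h2.trans (le_add_of_nonneg_right ?_)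
    exact Finset.sum_nonneg fun _ _ => Nat.cast_nonneg _
  have hfirst : ∑ F ∈ J.image (tM 𝔮), (analyticOrderNatAt (L F) (1 / 2) : ℝ) ≤
      C * (Nat.card (Cls (pi1 htop)) * (1 + Real.log (Un 𝔮))) := by
    rw [Finset.sum_image (fun ψ hψ ψ' hψ' h => tM_inj hbot htop ((hJm ψ).mp hψ)
      ((hJm ψ').mp hψ') h)]
    refine le_trans (le_of_eq ?_) havg
    exact Finset.sum_congr rfl fun ψ hψ => by rw [hord ψ ((hJm ψ).mp hψ)]
  have hsecond : ∑ F ∈ hD0fin.toFinset, (analyticOrderNatAt (L F) (1 / 2) : ℝ) ≤ hK K * B := by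
    have h1 : ∀ F ∈ hD0fin.toFinset, (analyticOrderNatAt (L F) (1 / 2) : ℝ) ≤ B := by
      intro F hF
      rw [Set.Finite.mem_toFinset] at hF
      obtain ⟨F'', h2, h3⟩ := dn0_red hbot htop hF
      have h4 := hL F (Dn0_sub htop hF)
      have h5 := h3 (L F) (L2 F'') h4.1 (hL2d F'') h4.2 (hL2 F'' h2) (1 / 2) (by norm_num)
      have h6 := hB F'' h2
      unfold analyticOrderNatAt at h6 ⊢
      rw [h5]
      exact_mod_cast h6
    refine (Finset.sum_le_sum h1).trans ?_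
    rw [Finset.sum_const, nsmul_eq_mul]
    refine mul_le_mul_of_nonneg_right ?_ (Nat.cast_nonneg _)
    have h2 := Dn0_card (n := n) hbot htop
    rw [Set.ncard_eq_toFinset_card _ hD0fin] at h2
    exact_mod_cast h2
  rw [finsum_mem_eq_finite_toFinset_sum _ hfin]
  refine (hsplit.trans (add_le_add hfirst hsecond)).trans ?_
  have h7 : (hK K * B : ℝ) ≤ hK K * B * (Nat.card (Cls (pi1 htop)) * (1 + Real.log (Un 𝔮))) := by
    have : 1 ≤ (Nat.card (Cls (pi1 htop)) : ℝ) * (1 + Real.log (Un 𝔮)) :=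
      one_le_mul_of_one_le_of_one_le hcl1 (by linarith)
    exact le_mul_of_one_le_right (by positivity) this
  calc _ ≤ C * (Nat.card (Cls (pi1 htop)) * (1 + Real.log (Un 𝔮))) +
      hK K * B * (Nat.card (Cls (pi1 htop)) * (1 + Real.log (Un 𝔮))) := by linarith
    _ = _ := by ring

end Pool.Agent.N784.CZ
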