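import Pool.Agent.N784.HC.FamN
import Pool.Agent.N784.AD.Geo2
import Pool.Agent.N786.D.Asm3
import Pool.Agent.R399.TM.Cor

/-!
# Lossless mollified large sieve over every number field: the statements of the independent parts
(helper784)
-/

set_option autoImplicit false

open NumberField Complex MeasureTheory Set

namespace Pool.Agent.N784.CZ

open Pool.Agent.Y767 (Mq Cls cls)
open Pool.Agent.Y773.IQ (ofM' tM)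
open Pool.Agent.N784.AD (pi1 Un)
open Pool.Agent.N784.HC (FamN)
open Pool.Agent.N786.D (QQ LSP)
open Pool.Agent.R399.TW (pt)
open Pool.Agent.R399.TM (Dv)

/-- E1 : a pointwise bound from mean squares over short windows -/
def StPt : Prop := ∀ (m E : ℕ), ∃ C : ℝ, 0 ≤ C ∧ ∀ {ι : Type} (I : Finset ι) (f : ι → ℂ → ℂ),
  (∀ i, Differentiable ℂ (f i)) → ∀ (a μ lam R Q : ℝ), 1 ≤ R → 0 ≤ Q → μ < lam →
  (∀ i ∈ I, ∃ G : ℝ, ∀ z : ℂ, a ≤ z.re →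
    ‖f i z‖ ≤ G * (1 + |z.im|) ^ m * Real.exp (-(lam * z.re))) →
  (∀ t₀ : ℝ, QQ I f a (1 / R) t₀ ≤ ENNReal.ofReal (Q * (1 + |t₀|) ^ E)) →
  ∀ s : ℂ, a + 1 / R ≤ s.re → s.re ≤ a + 3 →
    ∑ i ∈ I, ‖f i s‖ ^ 2 ≤
      C * (R * Q) * Real.exp (-(2 * (μ * (s.re - a)))) * (1 + |s.im|) ^ E

/-- E2 : the tail of the number of zeros near a point of the critical line, from the mollified mean
square to the right of the line -/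
def StOrd : Prop := ∀ (κ β C₁ A : ℝ) (E n : ℕ), 1 ≤ κ → 0 < β → 0 ≤ C₁ → 1 ≤ A →
  ∃ (c C R₀ : ℝ) (E' : ℕ), 0 < c ∧ 1 ≤ C ∧ 1 ≤ R₀ ∧
  ∀ {ι : Type} (I : Finset ι) (F M : ι → ℂ → ℂ) (R P : ℝ), R₀ ≤ R →
    (∀ i, Differentiable ℂ (F i)) → (∀ i, Differentiable ℂ (M i)) → (I.card : ℝ) ≤ P →
    (∀ i ∈ I, ∀ s : ℂ, 1 / 16 ≤ s.re → ‖F i s‖ ≤ A * Real.exp R * (1 + |s.im|) ^ n) →
    (∀ i ∈ I, ∀ s : ℂ, 2 ≤ s.re → A⁻¹ ≤ ‖F i s‖) →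
    (∀ i ∈ I, ∀ s : ℂ, 1 / 16 ≤ s.re →
      ‖F i s * M i s‖ ≤ A * Real.exp (C₁ * R) * (1 + |s.im|) ^ n) →
    (∀ s : ℂ, 1 / 2 + κ / R ≤ s.re → s.re ≤ 2 → ∑ i ∈ I, ‖F i s * M i s - 1‖ ^ 2 ≤
      P * Real.exp (-(β * R * (s.re - 1 / 2))) * (1 + |s.im|) ^ E) →
    ∀ (t : ℝ) (k : ℕ) (J : Finset ι), J ⊆ I → (∀ i ∈ J, Dv (F i) k (pt (1 / 2) t) (1 / R)) →
      (J.card : ℝ) ≤ C * P * (1 + |t|) ^ E' * Real.exp (-(c * k))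

section

variable (K : Type) [Field K] [NumberField K]

open Classical in
/-- the trivial character of the ideals -/
noncomputable def one₀ : Ideal (𝓞 K) →*₀ ℂ where
  toFun 𝔞 := if 𝔞 = 0 then 0 else 1
  map_zero' := if_pos rfl
  map_one' := if_neg one_ne_zero
  map_mul' 𝔞 𝔟 := by
    by_cases h1 : 𝔞 = 0
    · rw [h1, zero_mul, if_pos rfl, zero_mul]
    · by_cases h2 : 𝔟 = 0
      · rw [h2, mul_zero, if_pos rfl, mul_zero]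
      · rw [if_neg h1, if_neg h2, if_neg (mul_ne_zero h1 h2), one_mul]

end

/-- E3 : the number of the ideals of bounded norm in one ray class -/
def StCnt : Prop := ∀ (K : Type) [Field K] [NumberField K], ∃ C : ℝ, 1 ≤ C ∧
  ∀ (𝔮 : Ideal (𝓞 K)) (_ : 𝔮 ≠ ⊥) (htop : 𝔮 ≠ ⊤) (S : Finset (Mq 𝔮)) (c : Cls (pi1 htop)) (X : ℝ),
    0 ≤ X → (∀ x ∈ S, cls (pi1 htop) x = c ∧ (Ideal.absNorm (x : Ideal (𝓞 K)) : ℝ) ≤ X) →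
    (S.card : ℝ) ≤ C * Un 𝔮 * (1 + X / (Ideal.absNorm 𝔮 : ℝ))

/-- E4 : the large sieve inequality for sums over all ideals -/
def StLSP : Prop := ∀ (K : Type) [Field K] [NumberField K], ∃ C : ℝ, 1 ≤ C ∧
  ∀ (n : (K →+* ℂ) → ℕ) (𝔮 : Ideal (𝓞 K)) (_ : 𝔮 ≠ ⊥) (htop : 𝔮 ≠ ⊤)
    (S : Finset (Ideal (𝓞 K) →*₀ ℂ)), (∀ lam ∈ S, ∃ ψ ∈ FamN n 𝔮, lam = ofM' htop (tM 𝔮 ψ)) →
    ∀ (H : ℝ) (M : ℕ), 0 ≤ H →
    LSP S (one₀ K) H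
      (C * (Nat.card (Cls (pi1 htop)) * Un 𝔮 * H * (1 + M / (Ideal.absNorm 𝔮 : ℝ)))) M

end Pool.Agent.N784.CZ
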