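import Pool.Agent.N784.CZ.Den

/-!
# The average number of zeros near a point of the critical line (helper784)
-/

set_option autoImplicit false
set_option linter.unusedSectionVars false

open NumberField Complex Filter Topology MeasureTheory Set

namespace Pool.Agent.N784.CZ

open Pool.Agent.Y773 (TPos LI zz)
open Pool.Agent.Y767 (Mq Mq_cop Mq_ne_bot Cls cls eq_of_LI)
open Pool.Agent.Y773.IQ (tM ofM' ofM'_pos ofM'_supp cop_mono absNorm_pos')
open Pool.Agent.N784.HC (FEm CTyp IsHecke FamN tM_coe tM_inj FamN_norm_le FamN_ne_zero FamN_finite)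
open Pool.Agent.N784.AD (pi1 Un one_le_Un)
open Pool.Agent.R399.TW (pt pt_re pt_im pt_cont)
open Pool.Agent.R399.TM (Dv fact avg_le)

/-- an entire function is divisible by the product over finitely many of its zeros -/
lemma factor_out {F : ℂ → ℂ} (hF : Differentiable ℂ F) (Z : Finset ℂ) :
    ∃ (z : ℕ → ℂ) (H : ℂ → ℂ), Differentiable ℂ H ∧
      (∀ j < ∑ x ∈ Z, analyticOrderNatAt F x, z j ∈ Z) ∧
      ∀ s, F s = (∏ j ∈ Finset.range (∑ x ∈ Z, analyticOrderNatAt F x), (s - z j)) * H s := by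
  classical
  induction Z using Finset.induction_on with
  | empty => exact ⟨fun _ => 0, F, hF, fun j hj => absurd hj (by simp), fun s => by simp⟩
  | insert z₀ Z hz₀ ih =>
    obtain ⟨z, H, h1, h2, h3⟩ := ih
    obtain ⟨N, hN⟩ : ∃ N : ℕ, N = ∑ x ∈ Z, analyticOrderNatAt F x := ⟨_, rfl⟩
    obtain ⟨m, hm⟩ : ∃ m : ℕ, m = analyticOrderNatAt F z₀ := ⟨_, rfl⟩
    rw [← hN] at h2 h3
    have hsum : ∑ x ∈ insert z₀ Z, analyticOrderNatAt F x = N + m := by
      rw [Finset.sum_insert hz₀, ← hN, ← hm, add_comm]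
    rw [hsum]
    have hPd : Differentiable ℂ fun s : ℂ => ∏ j ∈ Finset.range N, (s - z j) := by fun_prop
    have hP0 : (∏ j ∈ Finset.range N, (z₀ - z j)) ≠ 0 := by
      refine Finset.prod_ne_zero_iff.mpr fun j hj => sub_ne_zero.mpr ?_
      intro h
      apply hz₀
      rw [h]
      exact h2 j (Finset.mem_range.mp hj)
    have hord : analyticOrderAt F z₀ = analyticOrderAt H z₀ := by
      have e1 : F = (fun s : ℂ => ∏ j ∈ Finset.range N, (s - z j)) * H := by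
        funext s
        exact h3 s
      have e2 : analyticOrderAt ((fun s : ℂ => ∏ j ∈ Finset.range N, (s - z j)) * H) z₀ =
          analyticOrderAt H z₀ := by
        rw [analyticOrderAt_mul (hPd.analyticAt z₀) (h1.analyticAt z₀),
          (hPd.analyticAt z₀).analyticOrderAt_eq_zero.mpr hP0, zero_add]
      rw [← e2, ← e1]
    have hmH : (m : ℕ∞) ≤ analyticOrderAt H z₀ := by
      rw [← hord, hm]
      unfold analyticOrderNatAt
      exact ENat.coe_toNat_le_self _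
    obtain ⟨H', g1, g2⟩ := fact h1 m hmH
    refine ⟨fun j => if j < N then z j else z₀, H', g1, ?_, ?_⟩
    · intro j hj
      by_cases h : j < N
      · simp only [if_pos h]
        exact Finset.mem_insert_of_mem (h2 j h)
      · simp only [if_neg h]
        exact Finset.mem_insert_self _ _
    · intro s
      rw [h3 s, g2 s, Finset.prod_range_add]
      have e1 : ∏ j ∈ Finset.range N, (s - (if j < N then z j else z₀)) =
          ∏ j ∈ Finset.range N, (s - z j) :=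
        Finset.prod_congr rfl fun j hj => by rw [if_pos (Finset.mem_range.mp hj)]
      have e2 : ∏ j ∈ Finset.range m, (s - (if N + j < N then z (N + j) else z₀)) =
          (s - z₀) ^ m := by
        rw [Finset.prod_congr rfl (fun j _ => by rw [if_neg (by omega)]), Finset.prod_const,
          Finset.card_range]
      rw [e1, e2]
      ring

/-- many zeros near a point -/
lemma Dv.of_sum {F : ℂ → ℂ} (hF : Differentiable ℂ F) {Z : Finset ℂ} {w : ℂ} {r : ℝ} {k : ℕ}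
    (hZ : ∀ x ∈ Z, ‖x - w‖ ≤ r) (hk : k ≤ ∑ x ∈ Z, analyticOrderNatAt F x) : Dv F k w r := by
  obtain ⟨z, H, h1, h2, h3⟩ := factor_out hF Z
  have h4 : Dv F (∑ x ∈ Z, analyticOrderNatAt F x) w r :=
    ⟨z, H, h1, fun j hj => hZ _ (h2 j hj), h3⟩
  exact h4.le hk

/-- **the number of zeros near a point of the critical line: tail and average** -/
theorem cen_avg (hPt : StPt) (hOrd : StOrd) (hLS : StLSP) (K : Type) [Field K] [NumberField K]
    {n : (K →+* ℂ) → ℕ} (hn : CTyp n) :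
    ∃ (c C : ℝ), 0 < c ∧ 1 ≤ C ∧
    ∀ (𝔮 : Ideal (𝓞 K)) (_ : 𝔮 ≠ ⊥) (htop : 𝔮 ≠ ⊤) (J : Finset (Ideal (𝓞 K) →*₀ ℂ)),
      (∀ ψ ∈ J, ψ ∈ FamN n 𝔮) → ∀ L : (Ideal (𝓞 K) →*₀ ℂ) → ℂ → ℂ,
      (∀ ψ ∈ J, Differentiable ℂ (L ψ) ∧ ∀ s : ℂ, 1 < s.re → L ψ s = LI ψ s) →
      ∀ (t : ℝ) (Z : (Ideal (𝓞 K) →*₀ ℂ) → Finset ℂ),
      (∀ ψ ∈ J, ∀ x ∈ Z ψ, ‖x - pt (1 / 2) t‖ ≤ 1 / (C + Real.log (Ideal.absNorm 𝔮))) →
      (∀ k : ℕ, (((J.filter fun ψ => k ≤ ∑ x ∈ Z ψ, analyticOrderNatAt (L ψ) x).card : ℕ) : ℝ) ≤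
        C * (Nat.card (Cls (pi1 htop)) * Un 𝔮) * (1 + |t|) ^ C * Real.exp (-(c * k))) ∧
      ∑ ψ ∈ J, ((∑ x ∈ Z ψ, analyticOrderNatAt (L ψ) x : ℕ) : ℝ) ≤
        C * (Nat.card (Cls (pi1 htop)) * (1 + Real.log (Un 𝔮) + Real.log (1 + |t|))) := by
  classical
  obtain ⟨c, C₀, R₀, E, hc, hC₀, hR₀, H⟩ := cen_tail hPt hOrd hLS K hn
  obtain ⟨C₁, hC₁⟩ : ∃ C₁ : ℝ, C₁ = (Real.log C₀ + E + 1) / c + 1 + 1 / c := ⟨_, rfl⟩
  have hlC₀ : 0 ≤ Real.log C₀ := Real.log_nonneg hC₀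
  have hC₁0 : 0 ≤ C₁ := by rw [hC₁]; positivity
  obtain ⟨C, hC⟩ : ∃ C : ℝ, C = C₀ + R₀ + E + C₁ := ⟨_, rfl⟩
  have hE0 : (0 : ℝ) ≤ E := Nat.cast_nonneg E
  have hCR : R₀ ≤ C := by rw [hC]; linarith
  have hCC₀ : C₀ ≤ C := by rw [hC]; linarith
  have hCE : (E : ℝ) ≤ C := by rw [hC]; linarith
  have hCC₁ : C₁ ≤ C := by rw [hC]; linarith
  refine ⟨c, C, hc, by linarith, ?_⟩
  intro 𝔮 hbot htop J hJ L hL t Z hZ
  have hN1 : (1 : ℝ) ≤ (Ideal.absNorm 𝔮 : ℝ) := by exact_mod_cast absNorm_pos' hbot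
  have hlog0 : 0 ≤ Real.log (Ideal.absNorm 𝔮) := Real.log_nonneg hN1
  have ht1 : 1 ≤ 1 + |t| := by linarith [abs_nonneg t]
  have hUn : (1 : ℝ) ≤ (Un 𝔮 : ℝ) := by exact_mod_cast one_le_Un hbot
  have hlU : 0 ≤ Real.log (Un 𝔮) := Real.log_nonneg hUn
  have hlt : 0 ≤ Real.log (1 + |t|) := Real.log_nonneg ht1
  have hcl0 : (0 : ℝ) ≤ Nat.card (Cls (pi1 htop)) := Nat.cast_nonneg _
  have htail : ∀ k : ℕ, (((J.filter fun ψ => k ≤ ∑ x ∈ Z ψ,
      analyticOrderNatAt (L ψ) x).card : ℕ) : ℝ) ≤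
      C₀ * (Nat.card (Cls (pi1 htop)) * Un 𝔮) * (1 + |t|) ^ E * Real.exp (-(c * k)) := by
    intro k
    refine H 𝔮 hbot htop _ (fun ψ hψ => hJ ψ (Finset.mem_filter.mp hψ).1) L
      (fun ψ hψ => hL ψ (Finset.mem_filter.mp hψ).1) t k fun ψ hψ => ?_
    obtain ⟨h1, h2⟩ := Finset.mem_filter.mp hψ
    refine Dv.of_sum (hL ψ h1).1 (fun x hx => (hZ ψ h1 x hx).trans ?_) h2
    exact one_div_le_one_div_of_le (by linarith) (by linarith)
  refine ⟨fun k => (htail k).trans ?_, ?_⟩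
  · have h1 : (1 + |t|) ^ E ≤ (1 + |t|) ^ C := by
      rw [← Real.rpow_natCast]
      exact Real.rpow_le_rpow_of_exponent_le ht1 hCE
    have hC0 : 0 ≤ C := by linarith
    have h2 : 0 ≤ C * ((Nat.card (Cls (pi1 htop)) : ℝ) * (Un 𝔮 : ℝ)) := by positivity
    gcongr
  · have hcard : (J.card : ℝ) ≤ Nat.card (Cls (pi1 htop)) := by
      have h1 := (FamN_finite (n := n) hbot htop)
      have h3 : J.card ≤ (FamN n 𝔮).ncard := by
        rw [Set.ncard_eq_toFinset_card _ h1.1]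
        refine Finset.card_le_card fun ψ hψ => ?_
        rw [Set.Finite.mem_toFinset]
        exact hJ ψ hψ
      exact_mod_cast h3.trans h1.2
    have hU1 : 1 ≤ C₀ * Un 𝔮 * (1 + |t|) ^ E :=
      one_le_mul_of_one_le_of_one_le (one_le_mul_of_one_le_of_one_le hC₀ hUn) (one_le_pow₀ ht1)
    have h1 := avg_le J (fun ψ => ∑ x ∈ Z ψ, analyticOrderNatAt (L ψ) x)
      (W := Nat.card (Cls (pi1 htop))) (U := C₀ * Un 𝔮 * (1 + |t|) ^ E) (s := c) hcl0 hU1 hc hcard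
      (fun k => (htail k).trans (le_of_eq (by ring)))
    refine h1.trans ?_
    have e1 : Real.log (C₀ * Un 𝔮 * (1 + |t|) ^ E) =
        Real.log C₀ + Real.log (Un 𝔮) + E * Real.log (1 + |t|) := by
      rw [Real.log_mul (by positivity) (by positivity), Real.log_mul (by positivity)
        (by positivity), Real.log_pow]
    rw [e1]
    obtain ⟨Y, hY⟩ : ∃ Y : ℝ, Y = 1 + Real.log (Un 𝔮) + Real.log (1 + |t|) := ⟨_, rfl⟩
    have hY1 : 1 ≤ Y := by rw [hY]; linarith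
    rw [← hY]
    have h2 : Real.log C₀ + Real.log (Un 𝔮) + E * Real.log (1 + |t|) ≤
        (Real.log C₀ + E + 1) * Y := by
      rw [hY]
      nlinarith [mul_nonneg hlC₀ hlU, mul_nonneg hlC₀ hlt, mul_nonneg hE0 hlU,
        mul_nonneg hE0 hlt]
    have h3 : (Real.log C₀ + Real.log (Un 𝔮) + E * Real.log (1 + |t|)) / c + 1 + 1 / c ≤ C₁ * Y := by
      have h4 : (Real.log C₀ + Real.log (Un 𝔮) + E * Real.log (1 + |t|)) / c ≤
          (Real.log C₀ + E + 1) / c * Y := by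
        rw [div_mul_eq_mul_div]
        exact div_le_div_of_nonneg_right h2 hc.le
      have h5 : 1 / c ≤ 1 / c * Y := le_mul_of_one_le_right (by positivity) hY1
      rw [hC₁]
      calc _ ≤ (Real.log C₀ + E + 1) / c * Y + 1 * Y + 1 / c * Y := by linarith
        _ = _ := by ring
    calc (Nat.card (Cls (pi1 htop)) : ℝ) *
          ((Real.log C₀ + Real.log (Un 𝔮) + E * Real.log (1 + |t|)) / c + 1 + 1 / c) ≤
        (Nat.card (Cls (pi1 htop)) : ℝ) * (C₁ * Y) := mul_le_mul_of_nonneg_left h3 hcl0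
      _ ≤ (Nat.card (Cls (pi1 htop)) : ℝ) * (C * Y) := by gcongr
      _ = _ := by ring

end Pool.Agent.N784.CZ
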