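import Pool.Agent.N784.CZ.Ind
import Pool.Agent.N784.CZ.Stm2

/-!
# The tail of the number of zeros near a point of the critical line (helper784)
-/

set_option autoImplicit false
set_option linter.unusedSectionVars false

open NumberField Complex Filter Topology MeasureTheory Set

namespace Pool.Agent.N784.CZ

open Pool.Agent.Y773 (TPos LI zz)
open Pool.Agent.Y767 (Mq Mq_cop Mq_ne_bot Cls cls eq_of_LI)
open Pool.Agent.Y773.IQ (tM ofM' ofM'_pos ofM'_supp cop_mono absNorm_pos')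
open Pool.Agent.N784.HC (FEm CTyp IsHecke FamN tM_coe tM_inj FamN_norm_le FamN_ne_zero FamN_finite)
open Pool.Agent.N784.AD (pi1 Un one_le_Un)
open Pool.Agent.N786 (pr pr_apply SI mem_SI)
open Pool.Agent.N786.D (GLf LSP Cutf cut_exists mean_near QQ JJ Mp ZK ZK_nonneg wt grow_f mob mob_le
  dpo dpo_diff SI_ne lN lN_nonneg)
open Pool.Agent.Y772.DK (nr nr_nonneg nr_summable)
open Pool.Agent.R399.TW (pt pt_re pt_im pt_cont)
open Pool.Agent.R399.TM (Dv)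

section

variable {K : Type} [Field K] [NumberField K]

lemma pr_one₀ (lam : Ideal (𝓞 K) →*₀ ℂ) : pr (one₀ K) lam = lam := by
  ext 𝔞
  rw [pr_apply]
  change (if 𝔞 = 0 then (0 : ℂ) else 1) * lam 𝔞 = lam 𝔞
  by_cases h : 𝔞 = 0
  · rw [if_pos h, h, map_zero, zero_mul]
  · rw [if_neg h, one_mul]

/-- the induced character -/
noncomputable def ind {𝔮 : Ideal (𝓞 K)} (htop : 𝔮 ≠ ⊤) (ψ : Ideal (𝓞 K) →*₀ ℂ) :
    Ideal (𝓞 K) →*₀ ℂ := ofM' htop (tM 𝔮 ψ)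

lemma ind_inj {n : (K →+* ℂ) → ℕ} {𝔮 : Ideal (𝓞 K)} (hbot : 𝔮 ≠ ⊥) (htop : 𝔮 ≠ ⊤) :
    Set.InjOn (ind htop) (FamN n 𝔮) := by
  intro ψ h ψ' h' he
  refine tM_inj hbot htop h h' ?_
  refine MonoidHom.ext fun x => ?_
  have h1 := congrArg (fun f : Ideal (𝓞 K) →*₀ ℂ => f (x : Ideal (𝓞 K))) he
  simp only [ind] at h1
  rw [ofM'_pos htop _ (Mq_cop x), ofM'_pos htop _ (Mq_cop x)] at h1
  ext
  exact h1

/-- a uniform bound for the mollifier, all the way to the imaginary axis -/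
lemma Mp_le0 {β₁ β₂ : ℝ} {θ : ℝ → ℝ} (hθ : Cutf β₁ β₂ θ) {R : ℝ} {ψ₀ lam : Ideal (𝓞 K) →*₀ ℂ}
    (h1 : ∀ 𝔞, ‖pr ψ₀ lam 𝔞‖ ≤ 1) {s : ℂ} (hs : 0 ≤ s.re) :
    ‖Mp θ R ⌊Real.exp (β₂ * R)⌋₊ ψ₀ lam s‖ ≤ Real.exp (3 / 2 * (β₂ * R)) * ZK K := by
  unfold Mp dpo
  refine (norm_sum_le _ _).trans ?_
  have hE : 0 ≤ Real.exp (3 / 2 * (β₂ * R)) := (Real.exp_pos _).le
  have h2 : ∀ 𝔞 ∈ SI K ⌊Real.exp (β₂ * R)⌋₊, ‖mob 𝔞 * (θ (lN 𝔞 / R) : ℂ) * pr ψ₀ lam 𝔞 *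
      cexp (-(s * (lN 𝔞 : ℂ)))‖ ≤ Real.exp (3 / 2 * (β₂ * R)) * nr K (3 / 2) 𝔞 := by
    intro 𝔞 h𝔞
    have ha := SI_ne h𝔞
    have hN : 0 < (Ideal.absNorm 𝔞 : ℝ) := by
      exact_mod_cast Pool.Agent.Y772.DK.absNorm_pos' ha
    rw [norm_mul, Complex.norm_exp]
    have h3 : ‖mob 𝔞 * (θ (lN 𝔞 / R) : ℂ) * pr ψ₀ lam 𝔞‖ ≤ 1 := by
      rw [norm_mul]
      refine mul_le_one₀ ?_ (norm_nonneg _) (h1 𝔞)
      rw [norm_mul, Complex.norm_real, Real.norm_of_nonneg (hθ.nn _)]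
      exact mul_le_one₀ (mob_le 𝔞) (hθ.nn _) (hθ.le _)
    have h4 : (-(s * (lN 𝔞 : ℂ))).re = -(s.re * lN 𝔞) := by simp
    rw [h4]
    have h5 : Real.exp (-(s.re * lN 𝔞)) ≤ Real.exp (3 / 2 * (β₂ * R)) * nr K (3 / 2) 𝔞 := by
      unfold nr
      rw [Real.rpow_def_of_pos hN, ← Real.exp_add]
      refine Real.exp_le_exp.mpr ?_
      have h6 : lN 𝔞 ≤ β₂ * R := by
        have h7 := (mem_SI.mp h𝔞).2
        have h8 : (Ideal.absNorm 𝔞 : ℝ) ≤ Real.exp (β₂ * R) :=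
          le_trans (by exact_mod_cast h7) (Nat.floor_le (Real.exp_pos _).le)
        unfold lN
        rw [Real.log_le_iff_le_exp hN]
        exact h8
      have h9 := lN_nonneg 𝔞
      have h10 : Real.log (Ideal.absNorm 𝔞 : ℝ) = lN 𝔞 := rfl
      rw [h10]
      nlinarith [mul_nonneg hs h9]
    calc _ ≤ 1 * Real.exp (-(s.re * lN 𝔞)) :=
          mul_le_mul_of_nonneg_right h3 (Real.exp_pos _).le
      _ ≤ _ := by rw [one_mul]; exact h5
  refine (Finset.sum_le_sum h2).trans ?_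
  rw [← Finset.mul_sum]
  refine mul_le_mul_of_nonneg_left ?_ hE
  exact (nr_summable K (by norm_num)).sum_le_tsum _ fun 𝔞 _ => nr_nonneg K _ 𝔞

/-- a larger analytic conductor -/
lemma GLf.mono {A T R R' : ℝ} {n : ℕ} {χ : Ideal (𝓞 K) →*₀ ℂ} {F : ℂ → ℂ} (h : GLf A T R n χ F)
    (hA : 1 ≤ A) (hT : 1 ≤ T) (hR : R ≤ R') : GLf A T R' n χ F := by
  have hT0 : 0 < T := by linarith
  refine ⟨h.diff, h.ser, h.le1, ?_, h.big, h.low, ?_⟩
  · intro s hs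
    refine (h.gr s hs).trans ?_
    gcongr
  · intro δ h1 h2 τ
    refine (h.fe δ h1 h2 τ).trans ?_
    have : Real.exp (R * δ) ≤ Real.exp (R' * δ) :=
      Real.exp_le_exp.mpr (mul_le_mul_of_nonneg_right hR h1.le)
    gcongr

/-- from `F M` to `F M - 1` in mean square -/
lemma QQ_of_JJ {ι : Type} {S : Finset ι} {F M : ι → ℂ → ℂ} (hF : ∀ i, Continuous (F i))
    (hM : ∀ i, Continuous (M i)) {a₀ H P a W : ℝ} (hH : 0 ≤ H) (hP : S.card * H ≤ P) (ha : 0 ≤ a)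
    (hW : 1 ≤ W) {t₀ : ℝ}
    (hJ : JJ S F M a₀ a₀ H t₀ 0 ≤ ENNReal.ofReal (P * a * W)) :
    QQ S (fun i s => F i s * M i s - 1) a₀ H t₀ ≤ ENNReal.ofReal (P * (2 * a + 2) * W) := by
  have hP0 : 0 ≤ P := le_trans (by positivity) hP
  have hpt : ∀ i t, ENNReal.ofReal (‖F i (pt a₀ t) * M i (pt a₀ t) - 1‖ ^ 2) ≤
      ENNReal.ofReal 2 * ENNReal.ofReal (‖F i (pt a₀ t)‖ ^ 2 * ‖M i (pt a₀ (t - 0))‖ ^ 2) +
      ENNReal.ofReal 2 := by
    intro i t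
    rw [← ENNReal.ofReal_mul (by norm_num), ← ENNReal.ofReal_add (by positivity) (by norm_num),
      sub_zero]
    refine ENNReal.ofReal_le_ofReal ?_
    have h1 := norm_sub_le (F i (pt a₀ t) * M i (pt a₀ t)) 1
    rw [norm_mul, norm_one] at h1
    have h2 := pow_le_pow_left₀ (norm_nonneg _) h1 2
    have h3 : (‖F i (pt a₀ t)‖ * ‖M i (pt a₀ t)‖ + 1) ^ 2 ≤
        2 * (‖F i (pt a₀ t)‖ ^ 2 * ‖M i (pt a₀ t)‖ ^ 2) + 2 := by
      nlinarith [sq_nonneg (‖F i (pt a₀ t)‖ * ‖M i (pt a₀ t)‖ - 1)]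
    linarith
  unfold QQ
  calc ∑ i ∈ S, ∫⁻ t in Icc t₀ (t₀ + H), ENNReal.ofReal (‖F i (pt a₀ t) * M i (pt a₀ t) - 1‖ ^ 2) ≤
      ∑ i ∈ S, (ENNReal.ofReal 2 * (∫⁻ t in Icc t₀ (t₀ + H),
        ENNReal.ofReal (‖F i (pt a₀ t)‖ ^ 2 * ‖M i (pt a₀ (t - 0))‖ ^ 2)) +
        ENNReal.ofReal (2 * H)) := by
        refine Finset.sum_le_sum fun i _ => (lintegral_mono (hpt i)).trans ?_
        have hmeas : Measurable fun t : ℝ =>
            ENNReal.ofReal (‖F i (pt a₀ t)‖ ^ 2 * ‖M i (pt a₀ (t - 0))‖ ^ 2) := by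
          refine Measurable.ennreal_ofReal (Continuous.measurable ?_)
          have c1 : Continuous fun t : ℝ => ‖F i (pt a₀ t)‖ := ((hF i).comp (pt_cont _)).norm
          have c2 : Continuous fun t : ℝ => ‖M i (pt a₀ (t - 0))‖ := by
            simp only [sub_zero]
            exact ((hM i).comp (pt_cont _)).norm
          exact (c1.pow 2).mul (c2.pow 2)
        rw [lintegral_add_left (hmeas.const_mul _), lintegral_const_mul _ hmeas,
          setLIntegral_const, Real.volume_Icc, ← ENNReal.ofReal_mul (by norm_num)]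
        refine add_le_add le_rfl (ENNReal.ofReal_le_ofReal (le_of_eq ?_))
        ring
    _ = ENNReal.ofReal 2 * JJ S F M a₀ a₀ H t₀ 0 + ENNReal.ofReal (S.card * (2 * H)) := by
        rw [Finset.sum_add_distrib, ← Finset.mul_sum, Finset.sum_const, nsmul_eq_mul,
          ENNReal.ofReal_mul (Nat.cast_nonneg _), ENNReal.ofReal_natCast]
        rfl
    _ ≤ ENNReal.ofReal 2 * ENNReal.ofReal (P * a * W) + ENNReal.ofReal (2 * P * W) := by
        refine add_le_add (mul_le_mul_right hJ _) (ENNReal.ofReal_le_ofReal ?_)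
        calc (S.card : ℝ) * (2 * H) = 2 * (S.card * H) * 1 := by ring
          _ ≤ 2 * P * W := by gcongr
    _ = _ := by
        rw [← ENNReal.ofReal_mul (by norm_num), ← ENNReal.ofReal_add (by positivity)
          (by positivity)]
        congr 1
        ring

end

/-- **the tail of the number of zeros near a point of the critical line** -/
theorem cen_tail (hPt : StPt) (hOrd : StOrd) (hLS : StLSP) (K : Type) [Field K] [NumberField K]
    {n : (K →+* ℂ) → ℕ} (hn : CTyp n) :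
    ∃ (c C R₀ : ℝ) (E : ℕ), 0 < c ∧ 1 ≤ C ∧ 1 ≤ R₀ ∧
    ∀ (𝔮 : Ideal (𝓞 K)) (_ : 𝔮 ≠ ⊥) (htop : 𝔮 ≠ ⊤) (J : Finset (Ideal (𝓞 K) →*₀ ℂ)),
      (∀ ψ ∈ J, ψ ∈ FamN n 𝔮) → ∀ L : (Ideal (𝓞 K) →*₀ ℂ) → ℂ → ℂ,
      (∀ ψ ∈ J, Differentiable ℂ (L ψ) ∧ ∀ s : ℂ, 1 < s.re → L ψ s = LI ψ s) →
      ∀ (t : ℝ) (k : ℕ),
      (∀ ψ ∈ J, Dv (L ψ) k (pt (1 / 2) t) (1 / (R₀ + Real.log (Ideal.absNorm 𝔮)))) →
      (J.card : ℝ) ≤ C * (Nat.card (Cls (pi1 htop)) * Un 𝔮) * (1 + |t|) ^ E *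
        Real.exp (-(c * k)) := by
  classical
  obtain ⟨d, hd⟩ : ∃ d : ℕ, d = Module.finrank ℚ K := ⟨_, rfl⟩
  have hd1 : 1 ≤ d := by rw [hd]; exact Module.finrank_pos
  obtain ⟨φ, hφ⟩ := cut_exists (a := 11 / 16) (b := 3 / 4) (by norm_num) (by norm_num)
  obtain ⟨θ, hθ⟩ := cut_exists (a := 1 / 8) (b := 1 / 4) (by norm_num) (by norm_num)
  obtain ⟨A, hA, hgl⟩ := gl_ind K hn
  obtain ⟨κ, a, R₁, k₁, E, hκ, ha, hR₁, hmean⟩ := mean_near K (α' := 5 / 8) hφ hθ (by norm_num)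
    (by norm_num) (by norm_num) (by norm_num) (by norm_num) hA d hd1
  obtain ⟨C₁, hC₁, hpt⟩ := hPt d E
  obtain ⟨C₂, hC₂, hls⟩ := hLS K
  have hZ := ZK_nonneg (K := K)
  obtain ⟨c, C₃, R₂, E', hc, hC₃, hR₂, hord⟩ := hOrd (κ + 1) (1 / 8) 2 (A * (ZK K + 1)) E d
    (by linarith) (by norm_num) (by norm_num)
    (one_le_mul_of_one_le_of_one_le hA (by linarith))
  obtain ⟨R₀, hR₀⟩ : ∃ R₀ : ℝ, R₀ = max R₁ R₂ := ⟨_, rfl⟩
  have hR₀1 : 1 ≤ R₀ := by rw [hR₀]; exact hR₁.trans (le_max_left _ _)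
  -- the constant in the large sieve
  obtain ⟨C₄, hC₄⟩ : ∃ C₄ : ℝ, C₄ = C₂ * (1 + Real.exp R₀) := ⟨_, rfl⟩
  have hC₄0 : 1 ≤ C₄ := by
    rw [hC₄]
    have := Real.exp_pos R₀
    exact one_le_mul_of_one_le_of_one_le hC₂ (by linarith)
  obtain ⟨C₅, hC₅⟩ : ∃ C₅ : ℝ, C₅ = C₄ * (1 + C₁ * (2 * a + 2) * Real.exp (κ / 8)) := ⟨_, rfl⟩
  have hC₅1 : C₄ ≤ C₅ := by
    rw [hC₅]
    have : 0 ≤ C₁ * (2 * a + 2) * Real.exp (κ / 8) := by positivity
    exact le_mul_of_one_le_right (by linarith) (by linarith)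
  refine ⟨c, C₃ * C₅, R₀, E', hc, one_le_mul_of_one_le_of_one_le hC₃ (by linarith), hR₀1, ?_⟩
  intro 𝔮 hbot htop J hJ L hL t k hDv
  have hN1 : (1 : ℝ) ≤ (Ideal.absNorm 𝔮 : ℝ) := by exact_mod_cast absNorm_pos' hbot
  have hN0 : (0 : ℝ) < (Ideal.absNorm 𝔮 : ℝ) := by linarith
  obtain ⟨R, hR⟩ : ∃ R : ℝ, R = R₀ + Real.log (Ideal.absNorm 𝔮) := ⟨_, rfl⟩
  have hlog0 : 0 ≤ Real.log (Ideal.absNorm 𝔮) := Real.log_nonneg hN1
  have hRR₀ : R₀ ≤ R := by rw [hR]; linarith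
  have hRR₁ : R₁ ≤ R := le_trans (by rw [hR₀]; exact le_max_left _ _) hRR₀
  have hRR₂ : R₂ ≤ R := le_trans (by rw [hR₀]; exact le_max_right _ _) hRR₀
  have hR1 : 1 ≤ R := hR₀1.trans hRR₀
  have hR0 : 0 < R := by linarith
  have hexpR : Real.exp R = Real.exp R₀ * (Ideal.absNorm 𝔮 : ℝ) := by
    rw [hR, Real.exp_add, Real.exp_log hN0]
  rw [← hR] at hDv
  -- the family
  obtain ⟨S, hS⟩ : ∃ S : Finset (Ideal (𝓞 K) →*₀ ℂ), S = J.image (ind htop) := ⟨_, rfl⟩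
  have hSJ : (S.card : ℝ) = J.card := by
    rw [hS, Finset.card_image_of_injOn]
    intro x hx y hy hxy
    exact ind_inj hbot htop (hJ x hx) (hJ y hy) hxy
  have hSfam : ∀ lam ∈ S, ∃ ψ ∈ FamN n 𝔮, lam = ofM' htop (tM 𝔮 ψ) := by
    intro lam hl
    rw [hS, Finset.mem_image] at hl
    obtain ⟨ψ, h1, h2⟩ := hl
    exact ⟨ψ, hJ ψ h1, h2.symm⟩
  -- the functions
  have hFex : ∀ lam : Ideal (𝓞 K) →*₀ ℂ, ∃ F : ℂ → ℂ, Differentiable ℂ F ∧
      (lam ∈ S → GLf A 1 R d lam F ∧ Dv F k (pt (1 / 2) t) (1 / R)) := by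
    intro lam
    by_cases hl : lam ∈ S
    · rw [hS, Finset.mem_image] at hl
      obtain ⟨ψ, h1, h2⟩ := hl
      obtain ⟨G, g1, g2, g3⟩ := hgl 𝔮 hbot htop ψ (hJ ψ h1)
      have hGL : G = L ψ := eq_of_LI g1 (hL ψ h1).1
        (fun s hs => by rw [g2 s hs, (hL ψ h1).2 s hs])
      refine ⟨fun s => G s * EB 𝔮 ψ s, g3.diff, fun _ => ⟨?_, ?_⟩⟩
      · rw [← h2, hd]
        exact GLf.mono g3 hA le_rfl (by rw [hR]; linarith)
      · rw [hGL]
        exact (hDv ψ h1).mul (EB_diff hbot ψ) (fun s => rfl)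
    · exact ⟨fun _ => 0, differentiable_const _, fun h => absurd h hl⟩
  choose F hFd hF using hFex
  have hGLpr : ∀ lam ∈ S, GLf A 1 R d (pr (one₀ K) lam) (F lam) := fun lam hl => by
    rw [pr_one₀]; exact (hF lam hl).1
  obtain ⟨M, hM⟩ : ∃ M : (Ideal (𝓞 K) →*₀ ℂ) → ℂ → ℂ,
    M = fun lam => Mp θ R ⌊Real.exp (1 / 4 * R)⌋₊ (one₀ K) lam := ⟨_, rfl⟩
  have hMd : ∀ lam, Differentiable ℂ (M lam) := fun lam => by
    rw [hM]; exact dpo_diff _ _ _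
  obtain ⟨W, hW⟩ : ∃ W : ℝ, W = Nat.card (Cls (pi1 htop)) * Un 𝔮 := ⟨_, rfl⟩
  have hUn : (1 : ℝ) ≤ (Un 𝔮 : ℝ) := by exact_mod_cast one_le_Un hbot
  have hW0 : 0 ≤ W := by rw [hW]; positivity
  rw [← hW]
  -- the large sieve
  obtain ⟨Mn, hMn⟩ : ∃ Mn : ℕ, Mn = ⌊Real.exp (3 / 4 * R)⌋₊ * ⌊Real.exp (1 / 4 * R)⌋₊ :=
    ⟨_, rfl⟩
  have hMnle : (Mn : ℝ) ≤ Real.exp R₀ * (Ideal.absNorm 𝔮 : ℝ) := by
    rw [← hexpR, hMn]
    push_cast
    have e1 : Real.exp R = Real.exp (3 / 4 * R) * Real.exp (1 / 4 * R) := by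
      rw [← Real.exp_add]; congr 1; ring
    rw [e1]
    exact mul_le_mul (Nat.floor_le (Real.exp_pos _).le) (Nat.floor_le (Real.exp_pos _).le)
      (Nat.cast_nonneg _) (Real.exp_pos _).le
  have hratio : 1 + (Mn : ℝ) / (Ideal.absNorm 𝔮 : ℝ) ≤ 1 + Real.exp R₀ := by
    have : (Mn : ℝ) / (Ideal.absNorm 𝔮 : ℝ) ≤ Real.exp R₀ := by
      rw [div_le_iff₀ hN0]; exact hMnle
    linarith
  obtain ⟨P, hP⟩ : ∃ P : ℝ, P = C₄ * W * (1 / R) := ⟨_, rfl⟩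
  have hls1 : LSP S (one₀ K) (1 / R) P Mn := by
    intro u t₁
    refine (hls n 𝔮 hbot htop S hSfam (1 / R) Mn (by positivity) u t₁).trans ?_
    refine mul_le_mul_of_nonneg_right ?_ (Finset.sum_nonneg fun _ _ => sq_nonneg _)
    rw [hP, hC₄, ← hW]
    calc C₂ * (W * (1 / R) * (1 + (Mn : ℝ) / (Ideal.absNorm 𝔮 : ℝ))) ≤
        C₂ * (W * (1 / R) * (1 + Real.exp R₀)) := by gcongr
      _ = _ := by ring
  have hcardW : (S.card : ℝ) ≤ W := by
    have h1 := (FamN_finite (n := n) hbot htop)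
    have h2 : (J.card : ℝ) ≤ Nat.card (Cls (pi1 htop)) := by
      have h3 : J.card ≤ (FamN n 𝔮).ncard := by
        rw [Set.ncard_eq_toFinset_card _ h1.1]
        refine Finset.card_le_card fun ψ hψ => ?_
        rw [Set.Finite.mem_toFinset]
        exact hJ ψ hψ
      exact_mod_cast h3.trans h1.2
    rw [hSJ, hW]
    exact h2.trans (le_mul_of_one_le_right (Nat.cast_nonneg _) hUn)
  have hcardP : (S.card : ℝ) * (1 / R) ≤ P := by
    rw [hP]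
    refine mul_le_mul_of_nonneg_right (hcardW.trans ?_) (by positivity)
    exact le_mul_of_one_le_left hW0 hC₄0
  have hP0 : 0 ≤ P := le_trans (by positivity) hcardP
  -- the mean square near the line
  have hmean1 : ∀ t₀ : ℝ, QQ S (fun lam s => F lam s * M lam s - 1) (1 / 2 + κ / R) (1 / R) t₀ ≤
      ENNReal.ofReal (P * (2 * a + 2) * (1 + |t₀|) ^ E) := by
    intro t₀
    have h1 := hmean R 1 (1 / R) P S (one₀ K) F hRR₁ le_rfl (by positivity)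
      (by rw [div_le_one hR0]; exact hR1) hcardP (by rw [← hMn]; exact hls1)
      (fun lam => (hFd lam).continuous) hGLpr t₀ 0
    have e0 : wt 1 R k₁ E t₀ 0 = (1 + |t₀|) ^ E := by
      unfold wt
      rw [abs_zero, mul_zero, add_zero, one_pow, one_mul, div_one]
    rw [e0, ← hM] at h1
    exact QQ_of_JJ (fun lam => (hFd lam).continuous) (fun lam => (hMd lam).continuous)
      (by positivity) hcardP ha (one_le_pow₀ (by linarith [abs_nonneg t₀])) h1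
  -- pointwise
  have hpoint : ∀ s : ℂ, 1 / 2 + (κ + 1) / R ≤ s.re → s.re ≤ 2 →
      ∑ lam ∈ S, ‖F lam s * M lam s - 1‖ ^ 2 ≤
      (C₅ * W) * Real.exp (-(1 / 8 * R * (s.re - 1 / 2))) * (1 + |s.im|) ^ E := by
    intro s hs1 hs2
    have h1 := hpt S (fun lam s => F lam s * M lam s - 1)
      (fun lam => ((hFd lam).mul (hMd lam)).sub (differentiable_const _))
      (1 / 2 + κ / R) (1 / 16 * R) (1 / 8 * R) R (P * (2 * a + 2)) hR1 (by positivity)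
      (by nlinarith) (fun lam hl => by
        obtain ⟨G, hG⟩ := grow_f (β₂ := 1 / 4) hθ (by norm_num) hR0 le_rfl hA (hGLpr lam hl)
        refine ⟨G, fun z hz => ?_⟩
        have hκR : 0 < κ / R := by positivity
        have h2 := hG z (by linarith)
        rw [hM]
        exact h2) hmean1 s (by
        have : (κ + 1) / R = κ / R + 1 / R := by ring
        rw [this] at hs1
        linarith) (by
        have hκR : 0 < κ / R := by positivity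
        linarith)
    refine h1.trans ?_
    have e1 : Real.exp (-(2 * (1 / 16 * R * (s.re - (1 / 2 + κ / R))))) =
        Real.exp (κ / 8) * Real.exp (-(1 / 8 * R * (s.re - 1 / 2))) := by
      rw [← Real.exp_add]
      congr 1
      field_simp
      ring
    have e2 : R * (P * (2 * a + 2)) = C₄ * W * (2 * a + 2) := by
      rw [hP]; field_simp
    rw [e1, e2]
    have h3 : C₁ * (C₄ * W * (2 * a + 2)) * Real.exp (κ / 8) ≤ C₅ * W := by
      rw [hC₅]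
      have h4 : 0 ≤ C₄ * W := by positivity
      nlinarith
    calc C₁ * (C₄ * W * (2 * a + 2)) * (Real.exp (κ / 8) *
          Real.exp (-(1 / 8 * R * (s.re - 1 / 2)))) * (1 + |s.im|) ^ E =
        (C₁ * (C₄ * W * (2 * a + 2)) * Real.exp (κ / 8)) *
          Real.exp (-(1 / 8 * R * (s.re - 1 / 2))) * (1 + |s.im|) ^ E := by ring
      _ ≤ _ := by gcongr
  -- conclusion
  have hA0 : 0 < A := by linarith
  have hAA : A ≤ A * (ZK K + 1) := le_mul_of_one_le_right hA0.le (by linarith)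
  have hfin := hord S F M R (C₅ * W) hRR₂ hFd hMd
    (hcardW.trans (le_mul_of_one_le_left hW0 (by linarith)))
    (fun lam hl s hs => by
      have h1 := (hF lam hl).1.gr s hs
      rw [div_one] at h1
      refine h1.trans ?_
      gcongr)
    (fun lam hl s hs => (inv_anti₀ hA0 hAA).trans ((hF lam hl).1.low s hs))
    (fun lam hl s hs => by
      have h1 := (hF lam hl).1.gr s hs
      rw [div_one] at h1
      have h2 := Mp_le0 hθ (R := R) (hGLpr lam hl).le1 (s := s) (by linarith)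
      rw [norm_mul, hM]
      calc ‖F lam s‖ * ‖Mp θ R ⌊Real.exp (1 / 4 * R)⌋₊ (one₀ K) lam s‖ ≤
          (A * Real.exp R * (1 + |s.im|) ^ d) * (Real.exp (3 / 2 * (1 / 4 * R)) * ZK K) := by
            gcongr
        _ = A * ZK K * (Real.exp R * Real.exp (3 / 2 * (1 / 4 * R))) * (1 + |s.im|) ^ d := by ring
        _ ≤ A * (ZK K + 1) * Real.exp (2 * R) * (1 + |s.im|) ^ d := by
            rw [← Real.exp_add]
            have h3 : Real.exp (R + 3 / 2 * (1 / 4 * R)) ≤ Real.exp (2 * R) :=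
              Real.exp_le_exp.mpr (by linarith)
            have h4 : A * ZK K ≤ A * (ZK K + 1) := by nlinarith
            gcongr)
    hpoint t k S (Finset.Subset.refl _) (fun lam hl => (hF lam hl).2)
  rw [hSJ] at hfin
  refine hfin.trans (le_of_eq ?_)
  ring

end Pool.Agent.N784.CZ
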