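import Pool.Agent.N784.HC.Fe
import Pool.Agent.N784.HC.FamN

/-!
# The statements of the two independent parts of project CE (helper784)
-/

set_option autoImplicit false

open NumberField Complex MeasureTheory Set

namespace Pool.Agent.N784.CZ

open Pool.Agent.Y773 (LI)
open Pool.Agent.Y767 (Mq)
open Pool.Agent.Y773.IQ (ofM')
open Pool.Agent.N784.HC (CTyp Dn)

/-- F1 : growth of the L-functions of all (also imprimitive) Hecke characters of nonzero type in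
vertical strips -/
def StGro : Prop := ∀ (K : Type) [Field K] [NumberField K] (n : (K →+* ℂ) → ℕ), CTyp n → n ≠ 0 →
  ∀ (𝔮 : Ideal (𝓞 K)) (_ : 𝔮 ≠ ⊥) (htop : 𝔮 ≠ ⊤) (F : Mq 𝔮 →* ℂˣ), F ∈ Dn n htop →
  ∃ (L : ℂ → ℂ) (C : ℝ), Differentiable ℂ L ∧ (∀ s : ℂ, 1 < s.re → L s = LI (ofM' htop F) s) ∧
    ∀ s : ℂ, -2 ≤ s.re → s.re ≤ 6 → ‖L s‖ ≤ Real.exp (C * (1 + |s.im|))

/-- F2 : a crude bound for the number of zeros -/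
def StCru : Prop := ∀ (f : ℂ → ℂ) (C m : ℝ), Differentiable ℂ f → 0 < m →
  (∀ s : ℂ, s.re = 2 → m ≤ ‖f s‖) →
  (∀ s : ℂ, -2 ≤ s.re → s.re ≤ 6 → ‖f s‖ ≤ Real.exp (C * (1 + |s.im|))) →
  ∃ C' : ℝ, ∀ T : ℝ, 1 ≤ T →
    {s : ℂ | 0 < s.re ∧ s.re < 1 ∧ |s.im| ≤ 2 * T ∧ f s = 0}.Finite ∧
    ∑ᶠ s ∈ {s : ℂ | 0 < s.re ∧ s.re < 1 ∧ |s.im| ≤ 2 * T ∧ f s = 0},
      (analyticOrderNatAt f s : ℝ) ≤ C' * T ^ 2

end Pool.Agent.N784.CZ
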