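import Pool.Agent.N784.CZ.Cod
import Pool.Agent.N784.CZ.StmE
import Pool.Agent.N784.HC.MainN
import Pool.Agent.W164.RC.Count
import Pool.Agent.W164.RC.Final

/-!
# Complex conjugation and counting zeros (helper784)
-/

set_option autoImplicit false
set_option linter.unusedSectionVars false

open NumberField Complex Filter Topology Set

namespace Pool.Agent.N784.CZ

open Pool.Agent.Y773 (TPos LI)
open Pool.Agent.Y773.G (cj cj_cj cj_apply)
open Pool.Agent.Y767 (Mq Cls cls)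
open Pool.Agent.Y773.IQ (ofM' tM LL LL_eq)
open Pool.Agent.N784.HC
open Pool.Agent.N784.AD (pi1 Un one_le_Un cls_card_le hK)
open H370 (zset mult NN Nd Ns)
open H370.DL (refl analyticAt_refl order_refl)
open Pool.Agent.H82R3.EK (cnt cnt_eq_sum cnt_prod NN_eq Ns_le strip line)

/-- the conjugate function -/
noncomputable def cf (f : ℂ → ℂ) (s : ℂ) : ℂ := (starRingEnd ℂ) (f ((starRingEnd ℂ) s))

lemma cf_eq (f : ℂ → ℂ) : cf f = refl (fun w => f (1 - w)) := by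
  funext s
  show (starRingEnd ℂ) (f ((starRingEnd ℂ) s)) = (starRingEnd ℂ) (f (1 - (1 - (starRingEnd ℂ) s)))
  congr 2
  ring

lemma cf_diff {f : ℂ → ℂ} (hf : Differentiable ℂ f) : Differentiable ℂ (cf f) := by
  have d2 : Differentiable ℂ (fun w : ℂ => f (1 - w)) := hf.comp (differentiable_id.const_sub _)
  intro s
  rw [cf_eq]
  exact (analyticAt_refl (d2.analyticAt _)).differentiableAt

lemma cf_order {f : ℂ → ℂ} (hf : Differentiable ℂ f) (s : ℂ) :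
    analyticOrderAt (cf f) s = analyticOrderAt f ((starRingEnd ℂ) s) := by
  have d2 : Differentiable ℂ (fun w : ℂ => f (1 - w)) := hf.comp (differentiable_id.const_sub _)
  rw [cf_eq, order_refl (d2.analyticAt _)]
  have hg : AnalyticAt ℂ (fun z : ℂ => 1 - z) (1 - (starRingEnd ℂ) s) := by fun_prop
  have hd : deriv (fun z : ℂ => 1 - z) (1 - (starRingEnd ℂ) s) ≠ 0 := by simp
  have h := analyticOrderAt_comp_of_deriv_ne_zero (f := f) hg hd
  have h2 : (fun z : ℂ => f (1 - z)) = f ∘ (fun z : ℂ => 1 - z) := rfl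
  rw [h2, h]
  congr 1
  ring

lemma cf_cf (f : ℂ → ℂ) : cf (cf f) = f := by
  funext s
  unfold cf
  rw [Complex.conj_conj, Complex.conj_conj]

/-- zeros of the conjugate function -/
lemma cnt_cf {f : ℂ → ℂ} (hf : Differentiable ℂ f) (W : Set ℂ) :
    cnt (cf f) W = cnt f {s | (starRingEnd ℂ) s ∈ W} := by
  unfold cnt
  have h1 : {s : ℂ | s ∈ W ∧ cf f s = 0} =
      (starRingEnd ℂ) '' {s : ℂ | s ∈ {s | (starRingEnd ℂ) s ∈ W} ∧ f s = 0} := by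
    ext s
    constructor
    · rintro ⟨a, b⟩
      refine ⟨(starRingEnd ℂ) s, ⟨?_, ?_⟩, Complex.conj_conj s⟩
      · show (starRingEnd ℂ) ((starRingEnd ℂ) s) ∈ W
        rw [Complex.conj_conj]
        exact a
      · unfold cf at b
        exact (map_eq_zero _).mp b
    · rintro ⟨t, ⟨a, b⟩, rfl⟩
      refine ⟨a, ?_⟩
      unfold cf
      rw [Complex.conj_conj, b, map_zero]
  rw [h1, finsum_mem_image (fun a _ b _ h => (starRingEnd ℂ).injective h)]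
  refine finsum_congr fun s => finsum_congr fun _ => ?_
  unfold mult analyticOrderNatAt
  rw [cf_order hf, Complex.conj_conj]

/-- the count depends only on the orders -/
lemma cnt_congr {f g : ℂ → ℂ} {W : Set ℂ} (hf : Differentiable ℂ f) (hg : Differentiable ℂ g)
    (h : ∀ s ∈ W, analyticOrderAt f s = analyticOrderAt g s) : cnt f W = cnt g W := by
  unfold cnt
  have h1 : {s : ℂ | s ∈ W ∧ f s = 0} = {s : ℂ | s ∈ W ∧ g s = 0} := by
    ext s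
    simp only [Set.mem_ofPred_eq]
    refine and_congr_right fun hs => ?_
    rw [← not_iff_not, ← Ne, ← Ne, ← (hf.analyticAt s).analyticOrderAt_eq_zero,
      ← (hg.analyticAt s).analyticOrderAt_eq_zero, h s hs]
  rw [h1]
  refine finsum_mem_congr rfl fun s hs => ?_
  unfold mult analyticOrderNatAt
  rw [h s hs.1]

lemma cnt_mono {f : ℂ → ℂ} {V W : Set ℂ} (hVW : V ⊆ W) (hfin : {s : ℂ | s ∈ W ∧ f s = 0}.Finite) :
    cnt f V ≤ cnt f W := by
  have h1 : {s : ℂ | s ∈ V ∧ f s = 0} ⊆ {s : ℂ | s ∈ W ∧ f s = 0} := fun s hs => ⟨hVW hs.1, hs.2⟩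
  unfold cnt
  rw [finsum_mem_eq_finite_toFinset_sum _ hfin,
    finsum_mem_eq_finite_toFinset_sum _ (hfin.subset h1)]
  exact Finset.sum_le_sum_of_subset (Set.Finite.toFinset_subset_toFinset.mpr h1)

/-- the zeros in a bounded set -/
lemma zeros_bdd {f : ℂ → ℂ} (hf : Differentiable ℂ f) {w : ℂ} (hw : f w ≠ 0) {W : Set ℂ}
    {R : ℝ} (hW : ∀ s ∈ W, ‖s‖ ≤ R) : {s : ℂ | s ∈ W ∧ f s = 0}.Finite :=
  (dz_finite hf hw 0 R).subset fun s hs => ⟨by rw [sub_zero]; exact hW s hs.1, hs.2⟩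

lemma strip_bdd {T1 T2 : ℝ} : ∀ s ∈ strip T1 T2, ‖s‖ ≤ 1 + (|T1| + |T2|) := by
  rintro s ⟨h1, h2, h3, h4⟩
  refine (Complex.norm_le_abs_re_add_abs_im s).trans (add_le_add ?_ ?_)
  · rw [abs_of_pos h1]; exact h2.le
  · rw [abs_le]
    constructor
    · have := neg_abs_le T1
      have := abs_nonneg T2
      linarith
    · have := le_abs_self T2
      have := abs_nonneg T1
      linarith

section

variable {K : Type} [Field K] [NumberField K] {n : (K →+* ℂ) → ℕ}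

/-- the conjugate character -/
noncomputable def cc' (ψ : Ideal (𝓞 K) →*₀ ℂ) : Ideal (𝓞 K) →*₀ ℂ :=
  (starRingEnd ℂ).toMonoidWithZeroHom.comp ψ

lemma cc'_apply (ψ : Ideal (𝓞 K) →*₀ ℂ) (𝔞 : Ideal (𝓞 K)) :
    cc' ψ 𝔞 = (starRingEnd ℂ) (ψ 𝔞) := rfl

lemma cc'_cc' (ψ : Ideal (𝓞 K) →*₀ ℂ) : cc' (cc' ψ) = ψ := by
  ext 𝔞
  rw [cc'_apply, cc'_apply, Complex.conj_conj]

lemma IsHecke.cc' {𝔣 : Ideal (𝓞 K)} {ψ : Ideal (𝓞 K) →*₀ ℂ} (h : IsHecke K 𝔣 n ψ) :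
    IsHecke K 𝔣 (nc n) (cc' ψ) where
  ne_bot := h.ne_bot
  supp 𝔞 h𝔞 := by
    rw [← h.supp 𝔞 h𝔞, cc'_apply, Ne, Ne, map_eq_zero]
  ray x hx0 hx1 hxp := by
    rw [cc'_apply, h.ray x hx0 hx1 hxp, ph_conj]
  prim 𝔤 h1 h2 := by
    obtain ⟨x, a, b, c, d⟩ := h.prim 𝔤 h1 h2
    refine ⟨x, a, b, c, fun hx => d ?_⟩
    rw [cc'_apply, ph_conj] at hx
    exact (starRingEnd ℂ).injective hx

lemma FamN_cc' (𝔮 : Ideal (𝓞 K)) : FamN (nc n) 𝔮 = cc' '' FamN n 𝔮 := by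
  ext ψ
  constructor
  · rintro ⟨𝔣, h1, h2, h3⟩
    refine ⟨cc' ψ, ⟨𝔣, h1, h2, ?_⟩, cc'_cc' ψ⟩
    have := IsHecke.cc' h3
    rwa [nc_nc] at this
  · rintro ⟨ψ, ⟨𝔣, h1, h2, h3⟩, rfl⟩
    exact ⟨𝔣, h1, h2, IsHecke.cc' h3⟩

lemma cc'_inj : Function.Injective (cc' : (Ideal (𝓞 K) →*₀ ℂ) → (Ideal (𝓞 K) →*₀ ℂ)) := by
  intro a b h
  rw [← cc'_cc' a, h, cc'_cc']

lemma LI_cc' (ψ : Ideal (𝓞 K) →*₀ ℂ) (s : ℂ) :
    LI (cc' ψ) s = (starRingEnd ℂ) (LI ψ ((starRingEnd ℂ) s)) := by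
  unfold LI
  rw [Complex.conj_tsum]
  refine tsum_congr fun 𝔞 => ?_
  rw [map_mul, Pool.Agent.N833.CZ.natCast_cpow_conj, map_neg, Complex.conj_conj, cc'_apply]

lemma LL_cc' {ψ : Ideal (𝓞 K) →*₀ ℂ} (h1 : Differentiable ℂ (LL K ψ))
    (h2 : ∀ s : ℂ, 1 < s.re → LL K ψ s = LI ψ s) : LL K (cc' ψ) = cf (LL K ψ) := by
  refine LL_eq K (cf_diff h1) fun s hs => ?_
  rw [LI_cc', ← h2 _ (by rw [Complex.conj_re]; exact hs)]
  rfl

lemma CTyp_nc (hn : CTyp n) : CTyp (nc n) := by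
  intro φ
  unfold nc
  rw [cj_cj]
  exact (hn φ).symm

end

end Pool.Agent.N784.CZ
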