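import Pool.Agent.N784.CZ.Ran

/-!
# The zeros in small discs around the points of the critical line (helper784)
-/

set_option autoImplicit false
set_option linter.unusedSectionVars false

open NumberField Complex Filter Topology Set

namespace Pool.Agent.N784.CZ

open Pool.Agent.Y773 (TPos LI)
open Pool.Agent.Y772.DK (LI_eq_exp)
open Pool.Agent.Y767 (Mq Cls cls)
open Pool.Agent.Y773.IQ (ofM' tM)
open Pool.Agent.N784.HC
open Pool.Agent.N784.AD (pi1 Un one_le_Un cls_card_le hK)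
open Pool.Agent.R399.TW (pt pt_re pt_im)

/-- the zeros in a closed disc -/
def dz (F : ℂ → ℂ) (z : ℂ) (r : ℝ) : Set ℂ := {x | ‖x - z‖ ≤ r ∧ F x = 0}

/-- their number with multiplicity -/
noncomputable def nd (F : ℂ → ℂ) (z : ℂ) (r : ℝ) : ℕ := ∑ᶠ x ∈ dz F z r, analyticOrderNatAt F x

lemma dz_finite {F : ℂ → ℂ} (hF : Differentiable ℂ F) {w : ℂ} (hw : F w ≠ 0) (z : ℂ) (r : ℝ) :
    (dz F z r).Finite := by
  by_contra hinf
  have hinf : (dz F z r).Infinite := hinf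
  have hcomp : IsCompact (Metric.closedBall z r) := isCompact_closedBall z r
  have hsub : dz F z r ⊆ Metric.closedBall z r := by
    rintro s ⟨h1, -⟩
    rw [Metric.mem_closedBall, dist_eq_norm]
    exact h1
  obtain ⟨x, hx, hacc⟩ := hinf.exists_accPt_of_subset_isCompact hcomp hsub
  have hfreq : ∃ᶠ y in 𝓝[≠] x, F y = 0 := by
    rw [accPt_iff_frequently_nhdsNE] at hacc
    exact hacc.mono fun y hy => hy.2
  have hz := AnalyticOnNhd.eqOn_zero_of_preconnected_of_frequently_eq_zero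
    (f := F) (U := Set.univ) (fun s _ => hF.analyticAt s) isPreconnected_univ (Set.mem_univ x) hfreq
  exact hw (hz (Set.mem_univ w))

/-- the order at the centre is at most the number of the zeros in the disc -/
lemma ord_le_nd {F : ℂ → ℂ} (hF : Differentiable ℂ F) {w : ℂ} (hw : F w ≠ 0) (z : ℂ) {r : ℝ}
    (hr : 0 ≤ r) : analyticOrderNatAt F z ≤ nd F z r := by
  have hfin := dz_finite hF hw z r
  unfold nd
  rw [finsum_mem_eq_finite_toFinset_sum _ hfin]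
  by_cases h : F z = 0
  · refine Finset.single_le_sum (f := fun x => analyticOrderNatAt F x) (fun _ _ => Nat.zero_le _) ?_
    rw [Set.Finite.mem_toFinset]
    exact ⟨by simpa using hr, h⟩
  · have h1 : analyticOrderNatAt F z = 0 := by
      unfold analyticOrderNatAt
      rw [(hF.analyticAt z).analyticOrderAt_eq_zero.mpr h]
      rfl
    rw [h1]
    exact Nat.zero_le _

section

variable {K : Type} [Field K] [NumberField K] {n : (K →+* ℂ) → ℕ}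

lemma LI_ne {ψ : Ideal (𝓞 K) →*₀ ℂ} (hψ : ∀ 𝔞, ‖ψ 𝔞‖ ≤ 1) {s : ℂ} (hs : 1 < s.re) :
    LI ψ s ≠ 0 := by
  rw [LI_eq_exp _ hψ hs]
  exact Complex.exp_ne_zero _

/-- the number of the classes and the number of the members of the family -/
lemma cls_le_fam {𝔮 : Ideal (𝓞 K)} (hbot : 𝔮 ≠ ⊥) (htop : 𝔮 ≠ ⊤) (hne : (FamN n 𝔮).Nonempty) :
    (Nat.card (Cls (pi1 htop)) : ℝ) ≤ (1 + hK K) * ((FamN n 𝔮).ncard : ℝ) := by
  classical
  obtain ⟨ψ₀, hψ₀⟩ := hne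
  obtain ⟨hf1, hc1⟩ := Dn_card hbot htop (tM_mem htop hψ₀)
  obtain ⟨hf2, -⟩ := FamN_finite (n := n) hbot htop
  have h0 := Dn0_card (n := n) hbot htop
  have h1 : Dn n htop ⊆ Dn0 n 𝔮 ∪ (tM 𝔮) '' (FamN n 𝔮) := by
    intro F hF
    rcases dn_cases hbot htop hF with h | ⟨ψ, h2, h3⟩
    · exact Or.inl h
    · exact Or.inr ⟨ψ, h2, h3⟩
  have hf0 : (Dn0 n 𝔮).Finite := hf1.subset (Dn0_sub htop)
  have h2 : (Dn n htop).ncard ≤ (Dn0 n 𝔮).ncard + (FamN n 𝔮).ncard :=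
    (Set.ncard_le_ncard h1 (hf0.union (hf2.image _))).trans
      ((Set.ncard_union_le _ _).trans (Nat.add_le_add_left (Set.ncard_image_le hf2) _))
  have h3 : 1 ≤ (FamN n 𝔮).ncard := by
    rw [Nat.one_le_iff_ne_zero, Ne, Set.ncard_eq_zero hf2]
    exact Set.nonempty_iff_ne_empty.mp ⟨ψ₀, hψ₀⟩
  have h4 : Nat.card (Cls (pi1 htop)) ≤ (1 + hK K) * (FamN n 𝔮).ncard := by
    rw [← hc1]
    nlinarith
  exact_mod_cast h4

end

/-- **zeros in small discs: averages and tails** -/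
theorem cod (hPt : StPt) (hOrd : StOrd) (hLS : StLSP) (K : Type) [Field K] [NumberField K]
    {n : (K →+* ℂ) → ℕ} (hn : CTyp n) :
    ∃ (c C : ℝ), 0 < c ∧ 1 ≤ C ∧
    ∀ (𝔮 : Ideal (𝓞 K)) (_ : 𝔮 ≠ ⊥) (_ : 𝔮 ≠ ⊤) (L : (Ideal (𝓞 K) →*₀ ℂ) → ℂ → ℂ),
      (∀ ψ ∈ FamN n 𝔮, Differentiable ℂ (L ψ) ∧ ∀ s : ℂ, 1 < s.re → L ψ s = LI ψ s) →
      ∀ t : ℝ,
      (∀ k : ℕ, (({ψ ∈ FamN n 𝔮 | k ≤ nd (L ψ) (pt (1 / 2) t)
          (1 / (C + Real.log (Ideal.absNorm 𝔮)))}.ncard : ℕ) : ℝ) ≤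
        C * ((FamN n 𝔮).ncard * Un 𝔮 * (1 + |t|) ^ C * Real.exp (-(c * k)))) ∧
      ∑ᶠ ψ ∈ FamN n 𝔮, (nd (L ψ) (pt (1 / 2) t) (1 / (C + Real.log (Ideal.absNorm 𝔮))) : ℝ) ≤
        C * ((FamN n 𝔮).ncard * (1 + Real.log (Un 𝔮) + Real.log (1 + |t|))) := by
  classical
  obtain ⟨c, C, hc, hC, H⟩ := cen_avg hPt hOrd hLS K hn
  refine ⟨c, C * (1 + hK K), hc, by nlinarith [Nat.cast_nonneg (α := ℝ) (hK K)], ?_⟩
  intro 𝔮 hbot htop L hL t
  have hN1 : (1 : ℝ) ≤ (Ideal.absNorm 𝔮 : ℝ) := by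
    exact_mod_cast Pool.Agent.Y773.IQ.absNorm_pos' hbot
  have hlog0 : 0 ≤ Real.log (Ideal.absNorm 𝔮) := Real.log_nonneg hN1
  have ht1 : 1 ≤ 1 + |t| := by linarith [abs_nonneg t]
  have hUn : (1 : ℝ) ≤ (Un 𝔮 : ℝ) := by exact_mod_cast one_le_Un hbot
  have hlU : 0 ≤ Real.log (Un 𝔮) := Real.log_nonneg hUn
  have hlt : 0 ≤ Real.log (1 + |t|) := Real.log_nonneg ht1
  have hh0 : (0 : ℝ) ≤ hK K := Nat.cast_nonneg _
  obtain ⟨hfin, -⟩ := FamN_finite (n := n) hbot htop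
  obtain ⟨C', hC'⟩ : ∃ C' : ℝ, C' = C * (1 + hK K) := ⟨_, rfl⟩
  have hCC' : C ≤ C' := by rw [hC']; nlinarith
  rw [← hC']
  rcases (FamN n 𝔮).eq_empty_or_nonempty with he | hne
  · rw [he]
    refine ⟨fun k => ?_, ?_⟩
    · simp
    · simp
  have hcls := cls_le_fam hbot htop hne
  have hLne : ∀ ψ ∈ FamN n 𝔮, L ψ 2 ≠ 0 := by
    intro ψ hψ
    rw [(hL ψ hψ).2 2 (by norm_num)]
    exact LI_ne (FamN_norm_le hψ) (by norm_num)
  -- the zeros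
  have hfz : ∀ ψ ∈ FamN n 𝔮, (dz (L ψ) (pt (1 / 2) t) (1 / (C' + Real.log (Ideal.absNorm 𝔮)))).Finite :=
    fun ψ hψ => dz_finite (hL ψ hψ).1 (hLne ψ hψ) _ _
  obtain ⟨Z, hZ⟩ : ∃ Z : (Ideal (𝓞 K) →*₀ ℂ) → Finset ℂ, ∀ ψ ∈ FamN n 𝔮, ∀ x, x ∈ Z ψ ↔
      x ∈ dz (L ψ) (pt (1 / 2) t) (1 / (C' + Real.log (Ideal.absNorm 𝔮))) := by
    refine ⟨fun ψ => if h : ψ ∈ FamN n 𝔮 then (hfz ψ h).toFinset else ∅, fun ψ hψ x => ?_⟩
    simp only [dif_pos hψ]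
    rw [Set.Finite.mem_toFinset]
  have hnd : ∀ ψ ∈ FamN n 𝔮, nd (L ψ) (pt (1 / 2) t) (1 / (C' + Real.log (Ideal.absNorm 𝔮))) =
      ∑ x ∈ Z ψ, analyticOrderNatAt (L ψ) x := by
    intro ψ hψ
    unfold nd
    rw [finsum_mem_eq_finite_toFinset_sum _ (hfz ψ hψ)]
    refine Finset.sum_congr ?_ fun _ _ => rfl
    ext x
    rw [Set.Finite.mem_toFinset, hZ ψ hψ]
  obtain ⟨h1, h2⟩ := H 𝔮 hbot htop hfin.toFinset (fun ψ hψ => (hfin.mem_toFinset.mp hψ)) L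
    (fun ψ hψ => hL ψ (hfin.mem_toFinset.mp hψ)) t Z (fun ψ hψ x hx => by
      rw [Set.Finite.mem_toFinset] at hψ
      refine ((hZ ψ hψ x).mp hx).1.trans ?_
      exact one_div_le_one_div_of_le (by linarith) (by linarith))
  refine ⟨fun k => ?_, ?_⟩
  · have e1 : {ψ ∈ FamN n 𝔮 | k ≤ nd (L ψ) (pt (1 / 2) t)
        (1 / (C' + Real.log (Ideal.absNorm 𝔮)))}.ncard =
        (hfin.toFinset.filter fun ψ => k ≤ ∑ x ∈ Z ψ, analyticOrderNatAt (L ψ) x).card := by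
      rw [← Set.ncard_coe_finset]
      congr 1
      ext ψ
      simp only [Set.mem_ofPred_eq, Finset.coe_filter, Set.Finite.mem_toFinset]
      constructor
      · rintro ⟨a1, a2⟩
        exact ⟨a1, by rwa [hnd ψ a1] at a2⟩
      · rintro ⟨a1, a2⟩
        exact ⟨a1, by rwa [hnd ψ a1]⟩
    rw [e1]
    refine (h1 k).trans ?_
    have e2 : (1 + |t|) ^ C ≤ (1 + |t|) ^ C' := Real.rpow_le_rpow_of_exponent_le ht1 hCC'
    have hC0 : 0 ≤ C := by linarith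
    calc C * (Nat.card (Cls (pi1 htop)) * Un 𝔮) * (1 + |t|) ^ C * Real.exp (-(c * k))
        ≤ C * (((1 + hK K) * ((FamN n 𝔮).ncard : ℝ)) * Un 𝔮) * (1 + |t|) ^ C' *
          Real.exp (-(c * k)) := by gcongr
      _ = C * (1 + hK K) * ((FamN n 𝔮).ncard * Un 𝔮 * (1 + |t|) ^ C' * Real.exp (-(c * k))) := by
          ring
      _ = _ := by rw [hC']
  · rw [finsum_mem_eq_finite_toFinset_sum _ hfin]
    have e1 : ∑ ψ ∈ hfin.toFinset, (nd (L ψ) (pt (1 / 2) t)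
        (1 / (C' + Real.log (Ideal.absNorm 𝔮))) : ℝ) =
        ∑ ψ ∈ hfin.toFinset, ((∑ x ∈ Z ψ, analyticOrderNatAt (L ψ) x : ℕ) : ℝ) :=
      Finset.sum_congr rfl fun ψ hψ => by rw [hnd ψ (hfin.mem_toFinset.mp hψ)]
    rw [e1]
    refine h2.trans ?_
    calc C * (Nat.card (Cls (pi1 htop)) * (1 + Real.log (Un 𝔮) + Real.log (1 + |t|)))
        ≤ C * (((1 + hK K) * ((FamN n 𝔮).ncard : ℝ)) *
          (1 + Real.log (Un 𝔮) + Real.log (1 + |t|))) := by gcongr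
      _ = C * (1 + hK K) * ((FamN n 𝔮).ncard * (1 + Real.log (Un 𝔮) + Real.log (1 + |t|))) := by
          ring
      _ = _ := by rw [hC']

end Pool.Agent.N784.CZ
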