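import Pool.Agent.N784.CZ.Cjf
import Pool.Agent.N786.Fin

/-!
# The zeros of the product of all the L-functions of the characters of a type modulo `𝔮`, on the
critical line (helper784)
-/

set_option autoImplicit false
set_option linter.unusedSectionVars false

open NumberField Complex Filter Topology Set

namespace Pool.Agent.N784.CZ

open Pool.Agent.Y773 (TPos LI)
open Pool.Agent.Y773.G (cj cj_cj cj_apply)
open Pool.Agent.Y767 (Mq Cls cls eq_of_LI)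
open Pool.Agent.Y773.IQ (ofM' tM LL LL_eq absNorm_pos')
open Pool.Agent.N784.HC
open Pool.Agent.N784.AD (pi1 pi1_coe Un one_le_Un cls_card_le hK T1)
open Pool.Agent.N833.CZ (norm_ofM'_le)
open Pool.Agent.N786 (kc)
open H370 (zset mult NN Nd Ns)
open Pool.Agent.H82R3.EK (cnt cnt_eq_sum cnt_prod NN_eq Ns_le strip line)
open Pool.Agent.W164.RC (cnt_mul)

/-- the box -/
def bx (T : ℝ) : Set ℂ := {s : ℂ | 0 < s.re ∧ s.re < 1 ∧ |s.im| ≤ 2 * T}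

section

variable {K : Type} [Field K] [NumberField K] {n : (K →+* ℂ) → ℕ}

/-- few zeros of the L-functions of the characters of conductor one -/
theorem dn0_bound (hGro : StGro) (hCru : StCru) (hn : CTyp n) (hn0 : n ≠ 0) :
    ∃ B : ℝ, 0 ≤ B ∧ ∀ (𝔮 : Ideal (𝓞 K)) (_ : 𝔮 ≠ ⊥) (htop : 𝔮 ≠ ⊤) (F : Mq 𝔮 →* ℂˣ),
      F ∈ Dn0 n 𝔮 → ∀ L : ℂ → ℂ, Differentiable ℂ L → (∀ s : ℂ, 1 < s.re → L s = LI (ofM' htop F) s) →
      ∀ T : ℝ, 1 ≤ T → (cnt L (strip T (2 * T)) : ℝ) ≤ B * T ^ 2 ∧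
        (cnt (cf L) (strip T (2 * T)) : ℝ) ≤ B * T ^ 2 := by
  classical
  obtain ⟨b2, t2⟩ := span_two K
  obtain ⟨A₀, hA₀, hD⟩ := Pool.Agent.Y772.DK.t_dirK K
  obtain ⟨hfin, -⟩ := Dn_card_le (n := n) b2 t2
  have hex : ∀ F'' : Mq (Ideal.span {(2 : 𝓞 K)}) →* ℂˣ, ∃ (L : ℂ → ℂ) (C' : ℝ),
      F'' ∈ Dn n t2 → Differentiable ℂ L ∧ (∀ s : ℂ, 1 < s.re → L s = LI (ofM' t2 F'') s) ∧
      L 2 ≠ 0 ∧ ∀ T : ℝ, 1 ≤ T →
        ∑ᶠ s ∈ {s : ℂ | 0 < s.re ∧ s.re < 1 ∧ |s.im| ≤ 2 * T ∧ L s = 0},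
          (analyticOrderNatAt L s : ℝ) ≤ C' * T ^ 2 := by
    intro F''
    by_cases h : F'' ∈ Dn n t2
    · obtain ⟨L, C, h1, h2, h3⟩ := hGro K n hn hn0 _ b2 t2 F'' h
      have hn1 := norm_ofM'_le b2 t2 h
      obtain ⟨-, -, d3, -, -, d6, -⟩ := hD _ hn1
      obtain ⟨C', hC'⟩ := hCru L C A₀⁻¹ h1 (by positivity) (fun s hs => by
        rw [h2 s (by rw [hs]; norm_num)]
        exact d6 s hs.ge) h3
      refine ⟨L, C', fun _ => ⟨h1, h2, ?_, fun T hT => (hC' T hT).2⟩⟩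
      rw [h2 2 (by norm_num)]
      exact d3 2 (by norm_num)
    · exact ⟨fun _ => 0, 0, fun h' => absurd h' h⟩
  choose L2 C2 h2 using hex
  refine ⟨∑ F'' ∈ hfin.toFinset, |C2 F''|, Finset.sum_nonneg fun _ _ => abs_nonneg _, ?_⟩
  intro 𝔮 hbot htop F hF L hL hLs T hT
  obtain ⟨F'', hF'', hord⟩ := dn0_red hbot htop hF
  obtain ⟨g1, g2, g3, g4⟩ := h2 F'' hF''
  have ho := hord L (L2 F'') hL g1 hLs g2
  have hT2 : 0 ≤ T ^ 2 := by positivity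
  have hC : C2 F'' ≤ ∑ F'' ∈ hfin.toFinset, |C2 F''| :=
    (le_abs_self _).trans (Finset.single_le_sum (f := fun F => |C2 F|) (fun _ _ => abs_nonneg _)
      (hfin.mem_toFinset.mpr hF''))
  have hbxb : ∀ s ∈ bx T, ‖s‖ ≤ 1 + 2 * T := by
    rintro s ⟨a, b, c⟩
    refine (Complex.norm_le_abs_re_add_abs_im s).trans (add_le_add ?_ c)
    rw [abs_of_pos a]
    exact b.le
  have hbfin : {s : ℂ | s ∈ bx T ∧ L2 F'' s = 0}.Finite := zeros_bdd g1 g3 hbxb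
  have hcnt : (cnt (L2 F'') (bx T) : ℝ) ≤ C2 F'' * T ^ 2 := by
    refine le_trans (le_of_eq ?_) (g4 T hT)
    have hset : {s : ℂ | 0 < s.re ∧ s.re < 1 ∧ |s.im| ≤ 2 * T ∧ L2 F'' s = 0} =
        {s : ℂ | s ∈ bx T ∧ L2 F'' s = 0} := by
      ext s
      simp only [bx, Set.mem_ofPred_eq, and_assoc]
    unfold cnt
    rw [hset, finsum_mem_eq_finite_toFinset_sum _ hbfin,
      finsum_mem_eq_finite_toFinset_sum _ hbfin]
    push_cast
    rfl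
  have hgen : ∀ W : Set ℂ, W ⊆ bx T → (cnt L W : ℝ) ≤
      (∑ F'' ∈ hfin.toFinset, |C2 F''|) * T ^ 2 := by
    intro W hW
    have h5 : cnt L W = cnt (L2 F'') W := cnt_congr hL g1 fun s hs => ho s (hW hs).1
    have h6 : cnt (L2 F'') W ≤ cnt (L2 F'') (bx T) := cnt_mono hW hbfin
    calc (cnt L W : ℝ) = cnt (L2 F'') W := by rw [h5]
      _ ≤ cnt (L2 F'') (bx T) := by exact_mod_cast h6
      _ ≤ C2 F'' * T ^ 2 := hcnt
      _ ≤ _ := mul_le_mul_of_nonneg_right hC hT2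
  constructor
  · apply hgen
    rintro s ⟨a, b, c, d⟩
    refine ⟨a, b, ?_⟩
    rw [abs_of_pos (by linarith)]
    exact d
  · rw [cnt_cf hL]
    apply hgen
    rintro s ⟨a, b, c, d⟩
    rw [Complex.conj_re] at a b
    rw [Complex.conj_im] at c d
    refine ⟨a, b, ?_⟩
    rw [abs_of_neg (by linarith)]
    exact d

/-- characters of the conjugate type -/
lemma Dn_nc_nonempty {𝔮 : Ideal (𝓞 K)} (htop : 𝔮 ≠ ⊤) (h : (Dn n htop).Nonempty) :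
    (Dn (nc n) htop).Nonempty := by
  obtain ⟨F, hF⟩ := h
  refine ⟨(Units.map ((starRingEnd ℂ) : ℂ →* ℂ)).comp F, fun x => ?_⟩
  ext
  rw [phT_coe, ph_conj, MonoidHom.comp_apply, hF x]
  rfl

lemma cls_le_add {𝔮 : Ideal (𝓞 K)} (hbot : 𝔮 ≠ ⊥) (htop : 𝔮 ≠ ⊤) (hne : (Dn n htop).Nonempty) :
    Nat.card (Cls (pi1 htop)) ≤ hK K + (FamN n 𝔮).ncard := by
  obtain ⟨F₁, hF₁⟩ := hne
  obtain ⟨hf1, hc1⟩ := Dn_card hbot htop hF₁
  obtain ⟨hf2, -⟩ := FamN_finite (n := n) hbot htop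
  have h0 := Dn0_card (n := n) hbot htop
  have h1 : Dn n htop ⊆ Dn0 n 𝔮 ∪ (tM 𝔮) '' (FamN n 𝔮) := by
    intro F hF
    rcases dn_cases hbot htop hF with h | ⟨ψ, h2, h3⟩
    · exact Or.inl h
    · exact Or.inr ⟨ψ, h2, h3⟩
  have hf0 : (Dn0 n 𝔮).Finite := hf1.subset (Dn0_sub htop)
  have h2 : (Dn n htop).ncard ≤ (Dn0 n 𝔮).ncard + (FamN n 𝔮).ncard :=
    (Set.ncard_le_ncard h1 (hf0.union (hf2.image _))).trans
      ((Set.ncard_union_le _ _).trans (Nat.add_le_add_left (Set.ncard_image_le hf2) _))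
  omega

/-- the counts for the characters induced by the family -/
lemma cnt_tM {𝔮 : Ideal (𝓞 K)} (hbot : 𝔮 ≠ ⊥) (htop : 𝔮 ≠ ⊤) {ψ : Ideal (𝓞 K) →*₀ ℂ}
    (hψ : ψ ∈ FamN n 𝔮) {L : ℂ → ℂ} (hL : Differentiable ℂ L)
    (hLs : ∀ s : ℂ, 1 < s.re → L s = LI (ofM' htop (tM 𝔮 ψ)) s)
    (h1 : Differentiable ℂ (LL K ψ)) (h2 : ∀ s : ℂ, 1 < s.re → LL K ψ s = LI ψ s)
    {W : Set ℂ} (hW : ∀ s ∈ W, 0 < s.re) :
    cnt L W = cnt (LL K ψ) W ∧ cnt (cf L) W = cnt (LL K (cc' ψ)) W := by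
  have h3 : L = fun s => LL K ψ s * EB 𝔮 ψ s :=
    eq_of_LI hL (h1.mul (EB_diff hbot ψ)) (fun s hs => by
      rw [hLs s hs, h2 s hs]
      exact LI_ind hbot (FamN_norm_le hψ) (ind_pos htop hψ) (ind_zero htop ψ) hs)
  have ho : ∀ s : ℂ, 0 < s.re → analyticOrderAt L s = analyticOrderAt (LL K ψ) s := by
    intro s hs
    rw [h3]
    exact order_EB hbot (FamN_norm_le hψ) h1 hs
  refine ⟨cnt_congr hL h1 fun s hs => ho s (hW s hs), ?_⟩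
  rw [LL_cc' h1 h2]
  refine cnt_congr (cf_diff hL) (cf_diff h1) fun s hs => ?_
  rw [cf_order hL, cf_order h1]
  exact ho _ (by rw [Complex.conj_re]; exact hW s hs)

end

open Classical in
/-- the zeros of the product of the L-functions of all the characters modulo `𝔮` of type `n` and
their conjugates, in terms of the family -/
theorem prod_cnt {K : Type} [Field K] [NumberField K] {n : (K →+* ℂ) → ℕ}
    {𝔮 : Ideal (𝓞 K)} (hbot : 𝔮 ≠ ⊥) (htop : 𝔮 ≠ ⊤)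
    (L : (Mq 𝔮 →* ℂˣ) → ℂ → ℂ)
    (hL : ∀ F ∈ Dn n htop, Differentiable ℂ (L F) ∧ ∀ s : ℂ, 1 < s.re → L F s = LI (ofM' htop F) s)
    (hLL : ∀ ψ ∈ FamN n 𝔮, Differentiable ℂ (LL K ψ) ∧ ∀ s : ℂ, 1 < s.re → LL K ψ s = LI ψ s)
    (J : Finset (Mq 𝔮 →* ℂˣ)) (hJ : ∀ F, F ∈ J ↔ F ∈ Dn n htop)
    (Fs : Finset (Ideal (𝓞 K) →*₀ ℂ)) (hFs : ∀ ψ, ψ ∈ Fs ↔ ψ ∈ FamN n 𝔮)
    {T : ℝ} {W : Set ℂ} (hW : W ⊆ strip T (2 * T)) :
    (∑ ψ ∈ Fs, (cnt (LL K ψ) W + cnt (LL K (cc' ψ)) W) ≤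
      cnt (fun s => ∏ F ∈ J, (L F s * cf (L F) s)) W) ∧
    (cnt (fun s => ∏ F ∈ J, (L F s * cf (L F) s)) W ≤
      ∑ ψ ∈ Fs, (cnt (LL K ψ) W + cnt (LL K (cc' ψ)) W) +
      ∑ F ∈ J.filter (fun F => F ∈ Dn0 n 𝔮), (cnt (L F) W + cnt (cf (L F)) W)) := by
  have hW0 : ∀ s ∈ W, 0 < s.re := fun s hs => (hW hs).1
  have hWb : ∀ s ∈ W, ‖s‖ ≤ 1 + (|T| + |2 * T|) := fun s hs => strip_bdd s (hW hs)
  have hne : ∀ F ∈ J, L F 2 ≠ 0 := by
    intro F hF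
    have hF' := (hJ F).mp hF
    rw [(hL F hF').2 2 (by norm_num)]
    exact LI_ne (norm_ofM'_le hbot htop hF') (by norm_num)
  have hne' : ∀ F ∈ J, cf (L F) 2 ≠ 0 := by
    intro F hF
    unfold cf
    rw [Ne, map_eq_zero, map_ofNat]
    exact hne F hF
  have hd : ∀ F ∈ J, Differentiable ℂ (L F) := fun F hF => (hL F ((hJ F).mp hF)).1
  have hd' : ∀ F ∈ J, Differentiable ℂ (cf (L F)) := fun F hF => cf_diff (hd F hF)
  have hone : ∀ F ∈ J, cnt (fun s => L F s * cf (L F) s) W = cnt (L F) W + cnt (cf (L F)) W := by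
    intro F hF
    exact cnt_mul (fun s _ => (hd F hF).analyticAt s) (fun s _ => (hd' F hF).analyticAt s)
      (fun s _ => order_ne_top (hd F hF) (hne F hF) s)
      (fun s _ => order_ne_top (hd' F hF) (hne' F hF) s)
      (zeros_bdd (hd F hF) (hne F hF) hWb) (zeros_bdd (hd' F hF) (hne' F hF) hWb)
  have hdm : ∀ F ∈ J, Differentiable ℂ (fun s => L F s * cf (L F) s) := fun F hF =>
    (hd F hF).mul (hd' F hF)
  have hnem : ∀ F ∈ J, (fun s => L F s * cf (L F) s) 2 ≠ 0 := fun F hF =>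
    mul_ne_zero (hne F hF) (hne' F hF)
  have htot : cnt (fun s => ∏ F ∈ J, (L F s * cf (L F) s)) W =
      ∑ F ∈ J, (cnt (L F) W + cnt (cf (L F)) W) := by
    rw [cnt_prod J (fun F s => L F s * cf (L F) s) (fun F hF s _ => (hdm F hF).analyticAt s)
      (fun F hF s _ => order_ne_top (hdm F hF) (hnem F hF) s)
      (fun F hF => zeros_bdd (hdm F hF) (hnem F hF) hWb)]
    exact Finset.sum_congr rfl hone
  have hinj : Set.InjOn (tM 𝔮) (Fs : Set (Ideal (𝓞 K) →*₀ ℂ)) := by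
    intro ψ hψ ψ' hψ' h
    exact tM_inj hbot htop ((hFs ψ).mp hψ) ((hFs ψ').mp hψ') h
  have himg : ∑ ψ ∈ Fs, (cnt (LL K ψ) W + cnt (LL K (cc' ψ)) W) =
      ∑ F ∈ Fs.image (tM 𝔮), (cnt (L F) W + cnt (cf (L F)) W) := by
    rw [Finset.sum_image hinj]
    refine Finset.sum_congr rfl fun ψ hψ => ?_
    have hψ' := (hFs ψ).mp hψ
    have hF := hL _ (tM_mem htop hψ')
    obtain ⟨k1, k2⟩ := cnt_tM hbot htop hψ' hF.1 hF.2 (hLL ψ hψ').1 (hLL ψ hψ').2 hW0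
    rw [k1, k2]
  rw [htot, himg]
  constructor
  · refine Finset.sum_le_sum_of_subset ?_
    intro F hF
    obtain ⟨ψ, h1, rfl⟩ := Finset.mem_image.mp hF
    exact (hJ _).mpr (tM_mem htop ((hFs ψ).mp h1))
  · rw [← Finset.sum_union_inter]
    refine le_trans ?_ (Nat.le_add_right _ _)
    refine Finset.sum_le_sum_of_subset ?_
    intro F hF
    rw [Finset.mem_union]
    rcases dn_cases hbot htop ((hJ F).mp hF) with h | ⟨ψ, h2, h3⟩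
    · right
      rw [Finset.mem_filter]
      exact ⟨hF, h⟩
    · left
      rw [Finset.mem_image]
      exact ⟨ψ, (hFs ψ).mpr h2, h3⟩

end Pool.Agent.N784.CZ
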