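import Pool.Agent.N784.CZ.Stm2
import Pool.Agent.N784.HC.FamN
import Pool.Agent.N786.D.Pol2

/-!
# The large sieve inequality for sums over all ideals (helper784)
-/

set_option autoImplicit false
set_option linter.unusedSectionVars false

open NumberField Complex MeasureTheory Set

namespace Pool.Agent.N784.CZ

open Pool.Agent.Y767 (Mq Mq_cop Mq_ne_bot Mq_cancel Cls cls bes_cls)
open Pool.Agent.Y773.IQ (ofM' ofM'_pos ofM'_supp tM)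
open Pool.Agent.N784.AD (pi1 Un cls_card_le one_le_Un)
open Pool.Agent.N784.HC
open Pool.Agent.N786.D (LSP)
open Pool.Agent.N786 (SI mem_SI pr pr_apply)

section

variable {K : Type} [Field K] [NumberField K]

lemma ph_cont' (𝔞 : Ideal (𝓞 K)) : Continuous (Pool.Agent.N786.ph 𝔞) := by
  unfold Pool.Agent.N786.ph
  fun_prop

lemma norm_ph' (𝔞 : Ideal (𝓞 K)) (t : ℝ) : ‖Pool.Agent.N786.ph 𝔞 t‖ = 1 := by
  unfold Pool.Agent.N786.ph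
  have : -(((t * Real.log (Ideal.absNorm 𝔞) : ℝ) : ℂ) * I) =
      ((-(t * Real.log (Ideal.absNorm 𝔞)) : ℝ) : ℂ) * I := by push_cast; ring
  rw [this, Complex.norm_exp_ofReal_mul_I]

open Classical in
/-- the inequality for one `t` -/
theorem lsp_pt {n : (K →+* ℂ) → ℕ} {𝔮 : Ideal (𝓞 K)} (hbot : 𝔮 ≠ ⊥) (htop : 𝔮 ≠ ⊤)
    (S : Finset (Ideal (𝓞 K) →*₀ ℂ)) (hS : ∀ lam ∈ S, ∃ ψ ∈ FamN n 𝔮, lam = ofM' htop (tM 𝔮 ψ))
    (M : ℕ) (B : ℝ) (hB : ∀ (S : Finset (Mq 𝔮)) (c : Cls (pi1 htop)),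
      (∀ x ∈ S, cls (pi1 htop) x = c ∧ (Ideal.absNorm (x : Ideal (𝓞 K)) : ℝ) ≤ M) →
      (S.card : ℝ) ≤ B) (v : Ideal (𝓞 K) → ℂ) :
    ∑ lam ∈ S, ‖∑ 𝔞 ∈ SI K M, v 𝔞 * pr (one₀ K) lam 𝔞‖ ^ 2 ≤
      Nat.card (Cls (pi1 htop)) * (B * ∑ 𝔞 ∈ SI K M, ‖v 𝔞‖ ^ 2) := by
  have hfin := (cls_card_le hbot htop).1
  have hfty := Fintype.ofFinite (Cls (pi1 htop))
  have hcan := Mq_cancel htop
  have hB0 : 0 ≤ B := by
    have := hB ∅ 1 (by simp)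
    simpa using this
  rcases S.eq_empty_or_nonempty with rfl | ⟨lam₀, hlam₀⟩
  · simp only [Finset.sum_empty]
    have : 0 ≤ ∑ 𝔞 ∈ SI K M, ‖v 𝔞‖ ^ 2 := Finset.sum_nonneg fun _ _ => sq_nonneg _
    positivity
  choose! Ψ hΨ hlam using hS
  have hinj : Set.InjOn (fun lam => tM 𝔮 (Ψ lam)) (S : Set (Ideal (𝓞 K) →*₀ ℂ)) := by
    intro a ha b hb hab
    simp only at hab
    rw [hlam a ha, hlam b hb, hab]
  have hval : ∀ lam ∈ S, ∑ 𝔞 ∈ SI K M, v 𝔞 * pr (one₀ K) lam 𝔞 =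
      ∑ x ∈ (SI K M).subtype (· ∈ Mq 𝔮), v (x : Ideal (𝓞 K)) *
        ((tM 𝔮 (Ψ lam) x : ℂˣ) : ℂ) := by
    intro lam hl
    have h1 : ∑ x ∈ (SI K M).subtype (· ∈ Mq 𝔮), v (x : Ideal (𝓞 K)) *
        ((tM 𝔮 (Ψ lam) x : ℂˣ) : ℂ) =
        ∑ x ∈ (SI K M).subtype (· ∈ Mq 𝔮), v (x : Ideal (𝓞 K)) * lam (x : Ideal (𝓞 K)) := by
      refine Finset.sum_congr rfl fun x _ => ?_
      rw [hlam lam hl, ofM'_pos htop _ (Mq_cop x)]
      rw [← hlam lam hl]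
    rw [h1, Finset.sum_subtype_eq_sum_filter (fun 𝔞 : Ideal (𝓞 K) => v 𝔞 * lam 𝔞),
      Finset.sum_filter]
    refine Finset.sum_congr rfl fun 𝔞 h𝔞 => ?_
    have h0 : 𝔞 ≠ 0 := by
      intro h
      have h2 := (mem_SI.mp h𝔞).1
      rw [h, Ideal.zero_eq_bot, Ideal.absNorm_bot] at h2
      omega
    have h2 : pr (one₀ K) lam 𝔞 = lam 𝔞 := by
      rw [pr_apply]
      have : one₀ K 𝔞 = 1 := by
        show (if 𝔞 = 0 then (0 : ℂ) else 1) = 1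
        rw [if_neg h0]
      rw [this, one_mul]
    rw [h2]
    split_ifs with h3
    · rfl
    · have h4 : lam 𝔞 = 0 := by
        rw [hlam lam hl]
        by_contra h5
        exact h3 ((ofM'_supp htop _ 𝔞).mp h5)
      rw [h4, mul_zero]
  have h3 := bes_cls Pool.Agent.Y287.HC.t_bes (pi1 htop) (tM 𝔮 (Ψ lam₀))
    (S.image (fun lam => tM 𝔮 (Ψ lam))) (by
    intro F hF x
    obtain ⟨lam, hl, rfl⟩ := Finset.mem_image.mp hF
    rw [tM_mem htop (hΨ lam hl) x, tM_mem htop (hΨ lam₀ hlam₀) x])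
    ((SI K M).subtype (· ∈ Mq 𝔮)) (fun x => v (x : Ideal (𝓞 K)))
  rw [Finset.sum_image hinj] at h3
  rw [Finset.sum_congr rfl fun lam hl => by rw [hval lam hl]]
  refine h3.trans ?_
  rw [Nat.card_eq_fintype_card]
  refine mul_le_mul_of_nonneg_left ?_ (Nat.cast_nonneg _)
  obtain ⟨S', hS'⟩ : ∃ S' : Finset (Mq 𝔮), S' = (SI K M).subtype (· ∈ Mq 𝔮) := ⟨_, rfl⟩
  rw [← hS']
  have h4 : ∀ c : Cls (pi1 htop), ‖∑ x ∈ S'.filter (fun x => cls (pi1 htop) x = c),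
      v (x : Ideal (𝓞 K)) * ((tM 𝔮 (Ψ lam₀) x : ℂˣ) : ℂ)‖ ^ 2 ≤
      B * ∑ x ∈ S'.filter (fun x => cls (pi1 htop) x = c), ‖v (x : Ideal (𝓞 K))‖ ^ 2 := by
    intro c
    have h5 : ‖∑ x ∈ S'.filter (fun x => cls (pi1 htop) x = c),
        v (x : Ideal (𝓞 K)) * ((tM 𝔮 (Ψ lam₀) x : ℂˣ) : ℂ)‖ ≤
        ∑ x ∈ S'.filter (fun x => cls (pi1 htop) x = c), ‖v (x : Ideal (𝓞 K))‖ := by
      refine (norm_sum_le _ _).trans (Finset.sum_le_sum fun x _ => ?_)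
      rw [norm_mul]
      refine mul_le_of_le_one_right (norm_nonneg _) ?_
      rw [tM_coe htop (hΨ lam₀ hlam₀)]
      exact FamN_norm_le (hΨ lam₀ hlam₀) _
    have h6 : ((S'.filter (fun x => cls (pi1 htop) x = c)).card : ℝ) ≤ B := by
      refine hB _ c fun x hx => ?_
      rw [Finset.mem_filter, hS', Finset.mem_subtype] at hx
      exact ⟨hx.2, by exact_mod_cast (mem_SI.mp hx.1).2⟩
    refine (pow_le_pow_left₀ (norm_nonneg _) h5 2).trans ?_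
    refine (sq_sum_le_card_mul_sum_sq).trans ?_
    exact mul_le_mul_of_nonneg_right h6 (Finset.sum_nonneg fun _ _ => sq_nonneg _)
  refine (Finset.sum_le_sum fun c _ => h4 c).trans ?_
  rw [← Finset.mul_sum]
  refine mul_le_mul_of_nonneg_left ?_ hB0
  rw [Finset.sum_fiberwise S' (cls (pi1 htop)) (fun x => ‖v (x : Ideal (𝓞 K))‖ ^ 2), hS',
    Finset.sum_subtype_eq_sum_filter (fun 𝔞 : Ideal (𝓞 K) => ‖v 𝔞‖ ^ 2)]
  exact Finset.sum_le_sum_of_subset_of_nonneg (Finset.filter_subset _ _) fun _ _ _ => sq_nonneg _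

end

/-- E4 -/
theorem t_lsp (h : StCnt) : StLSP := by
  classical
  intro K _ _
  obtain ⟨C, hC, H⟩ := h K
  refine ⟨C, hC, ?_⟩
  intro n 𝔮 hbot htop S hS Hh M hH u t₁
  have hB : ∀ (S : Finset (Mq 𝔮)) (c : Cls (pi1 htop)),
      (∀ x ∈ S, cls (pi1 htop) x = c ∧ (Ideal.absNorm (x : Ideal (𝓞 K)) : ℝ) ≤ M) →
      (S.card : ℝ) ≤ C * Un 𝔮 * (1 + M / (Ideal.absNorm 𝔮 : ℝ)) := fun S' c hS' =>
    H 𝔮 hbot htop S' c M (Nat.cast_nonneg _) hS'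
  have hcont : ∀ lam ∈ S, Continuous fun t : ℝ =>
      ‖∑ 𝔞 ∈ SI K M, u 𝔞 * pr (one₀ K) lam 𝔞 * Pool.Agent.N786.ph 𝔞 t‖ ^ 2 := by
    intro lam _
    refine (Continuous.norm ?_).pow 2
    exact continuous_finsetSum _ fun 𝔞 _ => continuous_const.mul (ph_cont' 𝔞)
  rw [← intervalIntegral.integral_finsetSum (fun lam hl => (hcont lam hl).intervalIntegrable _ _)]
  have hpt : ∀ t : ℝ, ∑ lam ∈ S,
      ‖∑ 𝔞 ∈ SI K M, u 𝔞 * pr (one₀ K) lam 𝔞 * Pool.Agent.N786.ph 𝔞 t‖ ^ 2 ≤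
      Nat.card (Cls (pi1 htop)) * (C * Un 𝔮 * (1 + M / (Ideal.absNorm 𝔮 : ℝ)) *
        ∑ 𝔞 ∈ SI K M, ‖u 𝔞‖ ^ 2) := by
    intro t
    have h1 := lsp_pt hbot htop S hS M _ hB (fun 𝔞 => u 𝔞 * Pool.Agent.N786.ph 𝔞 t)
    simp only [norm_mul, norm_ph', mul_one] at h1
    refine le_trans (le_of_eq ?_) h1
    refine Finset.sum_congr rfl fun lam _ => ?_
    congr 2
    refine Finset.sum_congr rfl fun 𝔞 _ => ?_
    ring
  have h2 : ∫ t in t₁..(t₁ + Hh), ∑ lam ∈ S,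
      ‖∑ 𝔞 ∈ SI K M, u 𝔞 * pr (one₀ K) lam 𝔞 * Pool.Agent.N786.ph 𝔞 t‖ ^ 2 ≤
      ∫ _ in t₁..(t₁ + Hh), (Nat.card (Cls (pi1 htop)) *
        (C * Un 𝔮 * (1 + M / (Ideal.absNorm 𝔮 : ℝ)) * ∑ 𝔞 ∈ SI K M, ‖u 𝔞‖ ^ 2) : ℝ) := by
    refine intervalIntegral.integral_mono_on (by linarith) ?_ (by simp) fun t _ => hpt t
    exact (continuous_finsetSum _ fun lam hl => hcont lam hl).intervalIntegrable _ _
  refine h2.trans (le_of_eq ?_)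
  rw [intervalIntegral.integral_const, smul_eq_mul]
  ring

end Pool.Agent.N784.CZ
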