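import Pool.Agent.N784.CZ.Cod
import Pool.Agent.N784.CZ.Lsp
import Pool.Agent.N400.CZ.Split
import Pool.Agent.N492.CZ.G2
import Pool.Agent.N717.CZ.Local
import Pool.Agent.N644.CZ.Pt
import Pool.Agent.N160.CZ.E2
import Pool.Agent.N787.CZ.Cnt

/-!
# Central orders and ranks over ray class fields: the final forms (helper784)
-/

set_option autoImplicit false

open NumberField Complex IsDedekindDomain
namespace Pool.Agent.N784.CZ

theorem tt_lsp : StLSP := t_lsp Pool.Agent.N787.CZ.t_cnt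

open Pool.Agent.N784.AD (Un)
open Pool.Agent.W164.RC (eulerFactor)

/-- a homomorphism between rings of integers is injective -/
lemma ran_inj {M : Type} [Field M] [NumberField M] {K : Type} [Field K] [NumberField K]
    (ι : 𝓞 M →+* 𝓞 K) : Function.Injective ι := by
  rw [injective_iff_map_eq_zero]
  intro b hb
  by_contra h0
  have h3 : Algebra.norm ℤ b ≠ 0 := Algebra.norm_ne_zero_iff.mpr h0
  obtain ⟨c, hc⟩ : b ∣ ((Algebra.norm ℤ b : ℤ) : 𝓞 M) := by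
    have h4 := Ideal.absNorm_mem (Ideal.span {b})
    rw [Ideal.absNorm_span_singleton, Ideal.mem_span_singleton] at h4
    have h5 : (((Algebra.norm ℤ b).natAbs : ℕ) : 𝓞 M) ∣ ((Algebra.norm ℤ b : ℤ) : 𝓞 M) := by
      have h6 : (((Algebra.norm ℤ b).natAbs : ℕ) : ℤ) ∣ Algebra.norm ℤ b := Int.natAbs_dvd.mpr dvd_rfl
      have h7 := map_dvd (Int.castRingHom (𝓞 M)) h6
      simpa using h7
    exact h4.trans h5
  have h5 : ι ((Algebra.norm ℤ b : ℤ) : 𝓞 M) = 0 := by rw [hc, map_mul, hb, zero_mul]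
  rw [map_intCast] at h5
  exact h3 (by exact_mod_cast h5)

/-- the analytic rank over ray class fields, unconditionally -/
theorem ran (M : Type) [Field M] [NumberField M] (ι₀ : GaussianInt →+* 𝓞 M) : ∃ C : ℝ, 1 ≤ C ∧
    ∀ (𝔮 : Ideal (𝓞 M)), 𝔮 ≠ ⊥ → 𝔮 ≤ Ideal.span {ι₀ ⟨2, 2⟩} →
    ∀ (K : Type) [Field K] [NumberField K] (ι : 𝓞 M →+* 𝓞 K)
      (art : Ideal (𝓞 M) → (𝓞 K ≃+* 𝓞 K)), IsRCF 𝔮 K ι art →
    ∃ H : ℂ → ℂ, Differentiable ℂ H ∧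
      (∀ s : ℂ, 3 / 2 < s.re → HasProd (open Classical in fun v : HeightOneSpectrum (𝓞 K) =>
        if 𝔮.map ι ≤ v.asIdeal then 1 else eulerFactor s v) (H s)) ∧
      (∀ z : ℂ, analyticOrderAt H z ≠ ⊤) ∧
      (analyticOrderNatAt H 1 : ℝ) ≤ C * (Module.finrank ℚ K * (1 + Real.log (Un 𝔮))) :=
  ran_core Pool.Agent.N644.CZ.t_pt Pool.Agent.N160.CZ.t_ord tt_lsp
    (Pool.Agent.N833.CZ.t_glue Pool.Agent.N400.CZ.t_split Pool.Agent.N492.CZ.t_char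
      Pool.Agent.N717.CZ.t_local) Pool.Agent.N134.CZ.t_deg M ι₀

/-- zeros in small discs, unconditionally -/
theorem cod_final (K : Type) [Field K] [NumberField K]
    {n : (K →+* ℂ) → ℕ} (hn : Pool.Agent.N784.HC.CTyp n) :
    ∃ (c C : ℝ), 0 < c ∧ 1 ≤ C ∧
    ∀ (𝔮 : Ideal (𝓞 K)) (_ : 𝔮 ≠ ⊥) (_ : 𝔮 ≠ ⊤) (L : (Ideal (𝓞 K) →*₀ ℂ) → ℂ → ℂ),
      (∀ ψ ∈ Pool.Agent.N784.HC.FamN n 𝔮, Differentiable ℂ (L ψ) ∧
        ∀ s : ℂ, 1 < s.re → L ψ s = Pool.Agent.Y773.LI ψ s) →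
      ∀ t : ℝ,
      (∀ k : ℕ, (({ψ ∈ Pool.Agent.N784.HC.FamN n 𝔮 | k ≤ nd (L ψ)
          (Pool.Agent.R399.TW.pt (1 / 2) t)
          (1 / (C + Real.log (Ideal.absNorm 𝔮)))}.ncard : ℕ) : ℝ) ≤
        C * ((Pool.Agent.N784.HC.FamN n 𝔮).ncard * Un 𝔮 * (1 + |t|) ^ C *
          Real.exp (-(c * k)))) ∧
      ∑ᶠ ψ ∈ Pool.Agent.N784.HC.FamN n 𝔮, (nd (L ψ) (Pool.Agent.R399.TW.pt (1 / 2) t)
        (1 / (C + Real.log (Ideal.absNorm 𝔮))) : ℝ) ≤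
        C * ((Pool.Agent.N784.HC.FamN n 𝔮).ncard * (1 + Real.log (Un 𝔮) + Real.log (1 + |t|))) :=
  cod Pool.Agent.N644.CZ.t_pt Pool.Agent.N160.CZ.t_ord tt_lsp K hn

end Pool.Agent.N784.CZ
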