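import Pool.Agent.N784.CZ.Crw
import Pool.Agent.N784.CZ.Fin
import Pool.Agent.N603.CZ.Gro
import Pool.Agent.N768.CZ.Cru

/-!
# The zeros of `L(E/K, s)` on the line `Re s = 1`, `K` a ray class field of a number field containing
`i` (helper784)
-/

set_option autoImplicit false
set_option linter.unusedSectionVars false

open NumberField Complex Filter Topology Set IsDedekindDomain

namespace Pool.Agent.N784.CZ

open Pool.Agent.Y773 (TPos LI)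
open Pool.Agent.Y767 (Mq Cls cls eq_of_LI)
open Pool.Agent.Y773.IQ (ofM' tM LL LL_eq absNorm_pos')
open Pool.Agent.N784.HC
open Pool.Agent.N784.AD (pi1 Un one_le_Un cls_card_le hK)
open Pool.Agent.N833.CZ (norm_ofM'_le)
open Pool.Agent.N786 (kc)
open H370 (zset mult NN Nd Ns)
open Pool.Agent.H82R3.EK (cnt cnt_eq_sum cnt_prod NN_eq Ns_le strip line)
open Pool.Agent.W164.RC (eulerFactor order_shift inj_shift)

/-- no zeros for `Re s ≥ 1` -/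
lemma nv_Dn {K : Type} [Field K] [NumberField K] {n : (K →+* ℂ) → ℕ} (hn : CTyp n) (hn0 : n ≠ 0)
    {𝔮 : Ideal (𝓞 K)} (hbot : 𝔮 ≠ ⊥) (htop : 𝔮 ≠ ⊤) {F : Mq 𝔮 →* ℂˣ}
    (hF : F ∈ Dn n htop) {L : ℂ → ℂ} (hL : Differentiable ℂ L)
    (hLs : ∀ s : ℂ, 1 < s.re → L s = LI (ofM' htop F) s) {s : ℂ} (hs : 1 ≤ s.re) : L s ≠ 0 := by
  rcases hs.eq_or_lt with h | h
  · obtain ⟨e, he, hc, hmod⟩ := modK_of hbot htop hF
    exact nv_K (hn.fty he hc) (inf_fty hn hn0 e) hmod h.symm (hL.analyticAt s)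
      (Eventually.of_forall hLs)
  · rw [hLs s h]
    exact LI_ne (norm_ofM'_le hbot htop hF) h

/-- shifting by one half -/
lemma cnt_shift (G : ℂ → ℂ) (W W' : Set ℂ) (h : ∀ s, s ∈ W' ∧ G (s - 1 / 2) = 0 ↔
    s - 1 / 2 ∈ W ∧ G (s - 1 / 2) = 0) : cnt (fun z => G (z - 1 / 2)) W' = cnt G W := by
  unfold cnt
  have h1 : {s : ℂ | s ∈ W' ∧ (fun z => G (z - 1 / 2)) s = 0} =
      (fun s : ℂ => s + 1 / 2) '' {s : ℂ | s ∈ W ∧ G s = 0} := by
    ext s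
    constructor
    · intro hs
      refine ⟨s - 1 / 2, (h s).mp hs, by ring⟩
    · rintro ⟨t, ht, rfl⟩
      refine (h (t + 1 / 2)).mpr ?_
      rw [add_sub_cancel_right]
      exact ht
  rw [h1, finsum_mem_image (inj_shift.injOn)]
  refine finsum_congr fun s => finsum_congr fun _ => ?_
  exact order_shift G s

/-- the part of the half plane -/
def hp (T : ℝ) : Set ℂ := {s : ℂ | 1 / 2 < s.re ∧ T < s.im ∧ s.im ≤ 2 * T}

/-- **zeros of the L-function of `y² = x³ - x` over ray class fields** -/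
theorem crv_core (M : Type) [Field M] [NumberField M] (ι₀ : GaussianInt →+* 𝓞 M)
    {a e a₂ : ℝ} (ha1 : a < 1) (he : 0 < e)
    (hk : kc 1.414 (1 - a) + e ≤ 1.3275) (h2a : a₂ ≤ a) (h23 : a₂ ≤ 1 / 3)
    (ε η : ℝ) (hε : 0 < ε) (hη : 0 < η) : ∃ δ X₀ : ℝ, 0 < δ ∧
    ∀ (𝔮 : Ideal (𝓞 M)), 𝔮 ≠ ⊥ → 𝔮 ≤ Ideal.span {ι₀ ⟨2, 2⟩} → X₀ ≤ (Ideal.absNorm 𝔮 : ℝ) →
      (Un 𝔮 : ℝ) ≤ (Ideal.absNorm 𝔮 : ℝ) ^ δ →
    ∀ (K : Type) [Field K] [NumberField K] (ι : 𝓞 M →+* 𝓞 K)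
      (art : Ideal (𝓞 M) → (𝓞 K ≃+* 𝓞 K)), IsRCF 𝔮 K ι art →
    ∃ H : ℂ → ℂ, Differentiable ℂ H ∧
      (∀ s : ℂ, 3 / 2 < s.re → HasProd (open Classical in fun v : HeightOneSpectrum (𝓞 K) =>
        if 𝔮.map ι ≤ v.asIdeal then 1 else eulerFactor s v) (H s)) ∧
      ∀ T : ℝ, (Ideal.absNorm 𝔮 : ℝ) ^ η ≤ T →
        ((Ideal.absNorm 𝔮 : ℝ) * T ^ Module.finrank ℚ M) ^ (1 - a₂) ≤ (Ideal.absNorm 𝔮 : ℝ) →
        {s : ℂ | s ∈ hp T ∧ H s = 0}.Finite ∧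
        (1 - ε) * ((Module.finrank ℚ K : ℝ) / (Module.finrank ℚ M : ℝ) * (T / Real.pi *
          Real.log ((Ideal.absNorm 𝔮 : ℝ) * T ^ Module.finrank ℚ M))) ≤ (cnt H (hp T) : ℝ) ∧
        0.6725 * (cnt H (hp T) : ℝ) ≤ (cnt H {s : ℂ | s ∈ hp T ∧ s.re = 1} : ℝ) := by
  classical
  obtain ⟨δ, X₀, hδ, H0⟩ := prod_core Pool.Agent.N603.CZ.t_gro Pool.Agent.N768.CZ.t_cru M
    (tyi_ctyp ι₀) (tyi_ne ι₀) ha1 he hk h2a h23 ε η hε hη
  refine ⟨δ, X₀, hδ, fun 𝔮 hbot hle hX hU K _ _ ι art hK => ?_⟩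
  have htop : 𝔮 ≠ ⊤ := le_ne_top ι₀ hle
  have hhn : CTyp (tyi ι₀) := tyi_ctyp ι₀
  have hhn0 : tyi ι₀ ≠ 0 := tyi_ne ι₀
  obtain ⟨F₁, hF₁, -⟩ := Pool.Agent.N492.CZ.t_char M ι₀ 𝔮 hbot htop hle
  have hfin : (Dn (tyi ι₀) htop).Finite := (Dn_card_le (n := tyi ι₀) hbot htop).1
  have hex : ∀ F : Mq 𝔮 →* ℂˣ, ∃ L : ℂ → ℂ, F ∈ Dn (tyi ι₀) htop → (Differentiable ℂ L ∧
      ∀ s : ℂ, 1 < s.re → L s = LI (ofM' htop F) s) := by
    intro F
    by_cases h : F ∈ Dn (tyi ι₀) htop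
    · obtain ⟨L, h1, h2⟩ := ent_of hhn hhn0 hbot htop h
      exact ⟨L, fun _ => ⟨h1, h2⟩⟩
    · exact ⟨fun _ => 0, fun h' => absurd h' h⟩
  choose L hL using hex
  obtain ⟨J, hJ⟩ : ∃ J : Finset (Mq 𝔮 →* ℂˣ), J = hfin.toFinset := ⟨_, rfl⟩
  have hJm : ∀ F, F ∈ J ↔ F ∈ Dn (tyi ι₀) htop := fun F => by rw [hJ, Set.Finite.mem_toFinset]
  obtain ⟨G, hG⟩ : ∃ G : ℂ → ℂ, G = fun s => ∏ F ∈ J, (L F s * cf (L F) s) := ⟨_, rfl⟩
  have hGd : Differentiable ℂ G := by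
    rw [hG]
    exact Differentiable.fun_finsetProd fun F hF =>
      (hL F ((hJm F).mp hF)).1.mul (cf_diff (hL F ((hJm F).mp hF)).1)
  have hGne : ∀ s : ℂ, 1 ≤ s.re → G s ≠ 0 := by
    intro s hs
    rw [hG]
    simp only
    rw [Finset.prod_ne_zero_iff]
    intro F hF
    have hF' := (hJm F).mp hF
    refine mul_ne_zero (nv_Dn hhn hhn0 hbot htop hF' (hL F hF').1 (hL F hF').2 hs) ?_
    unfold cf
    rw [map_ne_zero]
    exact nv_Dn hhn hhn0 hbot htop hF' (hL F hF').1 (hL F hF').2 (by rw [Complex.conj_re]; exact hs)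
  have hHd : Differentiable ℂ (fun s => G (s - 1 / 2)) := hGd.comp (differentiable_id.sub_const _)
  refine ⟨fun s => G (s - 1 / 2), hHd, ?_, ?_⟩
  · intro s hs
    have h1 := Pool.Agent.N833.CZ.t_glue Pool.Agent.N400.CZ.t_split Pool.Agent.N492.CZ.t_char
      Pool.Agent.N717.CZ.t_local M ι₀ 𝔮 hbot htop hle K ι art hK s hs
    have h2 : (fun s => G (s - 1 / 2)) s =
        ∏ᶠ F ∈ Dn (tyi ι₀) htop, (LI (ofM' htop F) (s - 1 / 2) *
        (starRingEnd ℂ) (LI (ofM' htop F) ((starRingEnd ℂ) s - 1 / 2))) := by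
      rw [finprod_mem_eq_finite_toFinset_prod _ hfin, hG, ← hJ]
      refine Finset.prod_congr rfl fun F hF => ?_
      have hF' := (hJm F).mp hF
      have e1 : 1 < (s - 1 / 2).re := by
        have : (s - 1 / 2).re = s.re - 1 / 2 := by simp
        rw [this]; linarith
      have e3 : (starRingEnd ℂ) (s - 1 / 2) = (starRingEnd ℂ) s - 1 / 2 := by
        rw [map_sub, map_div₀, map_one, map_ofNat]
      have e2 : 1 < ((starRingEnd ℂ) s - 1 / 2).re := by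
        rw [← e3, Complex.conj_re]; exact e1
      unfold cf
      rw [e3, (hL F hF').2 _ e1, (hL F hF').2 _ e2]
    rw [h2]
    exact h1
  · intro T hT hTh
    obtain ⟨hT1, c1, c2⟩ := H0 𝔮 hbot htop hX ⟨F₁, hF₁⟩ hU L hL J hJm T hT hTh
    rw [← hG] at c1 c2
    have hre : ∀ s : ℂ, (s - 1 / 2).re = s.re - 1 / 2 := fun s => by simp
    have him : ∀ s : ℂ, (s - 1 / 2).im = s.im := fun s => by simp
    have k1 : cnt (fun s => G (s - 1 / 2)) (hp T) = cnt G (strip T (2 * T)) := by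
      apply cnt_shift
      intro s
      refine ⟨fun ⟨⟨b1, b2, b3⟩, b4⟩ => ⟨⟨?_, ?_, ?_, ?_⟩, b4⟩, fun ⟨⟨b1, b2, b3, b4⟩, b5⟩ =>
        ⟨⟨?_, ?_, ?_⟩, b5⟩⟩
      · rw [hre]; linarith
      · by_contra hcon
        exact hGne _ (not_lt.mp hcon) b4
      · rw [him]; exact b2
      · rw [him]; exact b3
      · rw [hre] at b1; linarith
      · rw [him] at b3; exact b3
      · rw [him] at b4; exact b4
    have k2 : cnt (fun s => G (s - 1 / 2)) {s : ℂ | s ∈ hp T ∧ s.re = 1} =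
        cnt G (line T (2 * T)) := by
      apply cnt_shift
      intro s
      refine ⟨fun ⟨⟨⟨b1, b2, b3⟩, b5⟩, b4⟩ => ⟨⟨?_, ?_, ?_⟩, b4⟩, fun ⟨⟨b1, b2, b3⟩, b5⟩ =>
        ⟨⟨⟨?_, ?_, ?_⟩, ?_⟩, b5⟩⟩
      · rw [hre, b5]; norm_num
      · rw [him]; exact b2
      · rw [him]; exact b3
      · rw [hre] at b1; linarith
      · rw [him] at b2; exact b2
      · rw [him] at b3; exact b3
      · rw [hre] at b1; linarith
    have hcard : (Nat.card (Cls (pi1 htop)) : ℝ) =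
        (Module.finrank ℚ K : ℝ) / (Module.finrank ℚ M : ℝ) := by
      have h7 := Pool.Agent.N134.CZ.t_deg M 𝔮 hbot htop K ι art hK
      have h8 : 0 < Module.finrank ℚ M := Module.finrank_pos
      have h9 : (0 : ℝ) < Module.finrank ℚ M := by exact_mod_cast h8
      rw [h7]
      push_cast
      field_simp
    refine ⟨?_, ?_, ?_⟩
    · have h1 : ∀ s ∈ {s : ℂ | s ∈ hp T ∧ G (s - 1 / 2) = 0}, ‖s‖ ≤ 2 + (|T| + |2 * T|) := by
        rintro s ⟨⟨b1, b2, b3⟩, b4⟩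
        refine (Complex.norm_le_abs_re_add_abs_im s).trans (add_le_add ?_ ?_)
        · rw [abs_of_pos (by linarith)]
          by_contra hcon
          refine hGne (s - 1 / 2) ?_ b4
          rw [hre]
          linarith [not_le.mp hcon]
        · rw [abs_of_pos (by linarith)]
          have := abs_nonneg T
          have := le_abs_self (2 * T)
          linarith
      have h2 : (fun s => G (s - 1 / 2)) 2 ≠ 0 := hGne _ (by norm_num)
      refine (dz_finite hHd h2 0 (2 + (|T| + |2 * T|))).subset ?_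
      intro s hs
      exact ⟨by rw [sub_zero]; exact h1 s hs, hs.2⟩
    · rw [k1, ← hcard]
      exact c1
    · rw [k1, k2]
      exact c2

end Pool.Agent.N784.CZ
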