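import Pool.Agent.N784.CZ.Cen
import Pool.Agent.N786.D.Tri

/-!
# The density of the zeros away from the critical line, without loss (helper784)
-/

set_option autoImplicit false
set_option linter.unusedSectionVars false

open NumberField Complex Filter Topology MeasureTheory Set

namespace Pool.Agent.N784.CZ

open Pool.Agent.Y773 (TPos LI zz)
open Pool.Agent.Y767 (Mq Mq_cop Mq_ne_bot Cls cls eq_of_LI)
open Pool.Agent.Y773.IQ (tM ofM' ofM'_pos ofM'_supp cop_mono absNorm_pos')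
open Pool.Agent.N784.HC (FEm CTyp IsHecke FamN tM_coe tM_inj FamN_norm_le FamN_ne_zero FamN_finite)
open Pool.Agent.N784.AD (pi1 Un one_le_Un)
open Pool.Agent.N786 (pr pr_apply SI mem_SI)
open Pool.Agent.N786.D (GLf LSP Cutf cut_exists dens_all)
open Pool.Agent.R399.TW (pt pt_re pt_im pt_cont)

section

variable {K : Type} [Field K] [NumberField K]

/-- the correction factor does not change the orders -/
lemma order_EB {𝔮 : Ideal (𝓞 K)} (hbot : 𝔮 ≠ ⊥) {ψ : Ideal (𝓞 K) →*₀ ℂ} (hψ : ∀ 𝔞, ‖ψ 𝔞‖ ≤ 1)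
    {L : ℂ → ℂ} (hL : Differentiable ℂ L) {z : ℂ} (hz : 0 < z.re) :
    analyticOrderAt (fun s => L s * EB 𝔮 ψ s) z = analyticOrderAt L z := by
  have h1 : analyticOrderAt (fun s => L s * EB 𝔮 ψ s) z =
      analyticOrderAt L z + analyticOrderAt (EB 𝔮 ψ) z :=
    analyticOrderAt_mul (hL.analyticAt z) ((EB_diff hbot ψ).analyticAt z)
  rw [h1, ((EB_diff hbot ψ).analyticAt z).analyticOrderAt_eq_zero.mpr (EB_ne hbot hψ hz), add_zero]

lemma two_le_absNorm {𝔮 : Ideal (𝓞 K)} (hbot : 𝔮 ≠ ⊥) (htop : 𝔮 ≠ ⊤) : 2 ≤ Ideal.absNorm 𝔮 := by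
  have h1 := absNorm_pos' hbot
  have h2 : Ideal.absNorm 𝔮 ≠ 1 := fun h => htop (Ideal.absNorm_eq_one_iff.mp h)
  omega

end

/-- **the density of the zeros away from the critical line** -/
theorem den_core (hLS : StLSP) (K : Type) [Field K] [NumberField K] {n : (K →+* ℂ) → ℕ}
    (hn : CTyp n) (h c : ℝ) (hh1 : h ≤ 1) (hc0 : 0 < c) (hc : c < 2 * h - 1) :
    ∃ A : ℝ, 1 ≤ A ∧ ∀ (𝔮 : Ideal (𝓞 K)) (_ : 𝔮 ≠ ⊥) (htop : 𝔮 ≠ ⊤) (T H : ℝ), 1 ≤ H → H ≤ T →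
      ((Ideal.absNorm 𝔮 : ℝ) * T ^ Module.finrank ℚ K) ^ h ≤ (Ideal.absNorm 𝔮 : ℝ) →
      ∀ J : Finset (Ideal (𝓞 K) →*₀ ℂ), (∀ ψ ∈ J, ψ ∈ FamN n 𝔮) →
      ∀ L : (Ideal (𝓞 K) →*₀ ℂ) → ℂ → ℂ,
      (∀ ψ ∈ J, Differentiable ℂ (L ψ) ∧ ∀ s : ℂ, 1 < s.re → L ψ s = LI ψ s) →
      ∀ t₁ : ℝ, |t₁| ≤ T → ∀ δ : ℝ, 0 ≤ δ → ∀ Z : (Ideal (𝓞 K) →*₀ ℂ) → Finset ℂ,
      (∀ ψ ∈ J, ∀ z ∈ Z ψ, 1 / 2 + δ ≤ z.re ∧ t₁ ≤ z.im ∧ z.im ≤ t₁ + H) →
      ∑ ψ ∈ J, ∑ z ∈ Z ψ, (analyticOrderNatAt (L ψ) z : ℝ) ≤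
        A * (Nat.card (Cls (pi1 htop)) * Un 𝔮 * H *
          Real.log ((Ideal.absNorm 𝔮 : ℝ) * T ^ Module.finrank ℚ K) *
          ((Ideal.absNorm 𝔮 : ℝ) * T ^ Module.finrank ℚ K) ^ (-(c * δ))) := by
  classical
  obtain ⟨d, hd⟩ : ∃ d : ℕ, d = Module.finrank ℚ K := ⟨_, rfl⟩
  have hd1 : 1 ≤ d := by rw [hd]; exact Module.finrank_pos
  rw [← hd]
  obtain ⟨g, hg⟩ : ∃ g : ℝ, g = (2 * h - 1 - c) / 12 := ⟨_, rfl⟩
  have hg0 : 0 < g := by rw [hg]; linarith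
  obtain ⟨φ, hφ⟩ := cut_exists (a := 1 / 2 + 2 * g) (b := 1 / 2 + 3 * g) (by linarith) (by linarith)
  obtain ⟨θ, hθ⟩ := cut_exists (a := c / 2 + g) (b := c / 2 + 2 * g) (by linarith) (by linarith)
  obtain ⟨A, hA, hgl⟩ := gl_ind K hn
  obtain ⟨Q, R₀, hQ, hR₀, hmain⟩ := dens_all K (A := A) hφ hθ
    (α' := 1 / 2 + g) (β' := c / 2) (by linarith) (by linarith) (by linarith) (by linarith)
    (by linarith) (by linarith) (by linarith) (by linarith) hA d hd1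
  obtain ⟨C₂, hC₂, hls⟩ := hLS K
  obtain ⟨A₁, hA₁, hD⟩ := Pool.Agent.Y772.DK.t_dirK K
  obtain ⟨C₄, hC₄⟩ : ∃ C₄ : ℝ, C₄ = C₂ * (1 + Real.exp R₀) := ⟨_, rfl⟩
  have hC₄0 : 1 ≤ C₄ := by
    rw [hC₄]
    have := Real.exp_pos R₀
    exact one_le_mul_of_one_le_of_one_le hC₂ (by linarith)
  have hlog2 : 0 < Real.log 2 := Real.log_pos (by norm_num)
  refine ⟨1 + Q * C₄ * (R₀ / Real.log 2 + 1), ?_, ?_⟩
  · have : 0 ≤ Q * C₄ * (R₀ / Real.log 2 + 1) := by positivity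
    linarith
  intro 𝔮 hbot htop T H hH hHT hX J hJ L hL t₁ ht₁ δ hδ Z hZ
  have hT : 1 ≤ T := hH.trans hHT
  have hT0 : 0 < T := by linarith
  have hN2 : (2 : ℝ) ≤ (Ideal.absNorm 𝔮 : ℝ) := by exact_mod_cast two_le_absNorm hbot htop
  have hN1 : (1 : ℝ) ≤ (Ideal.absNorm 𝔮 : ℝ) := by linarith
  have hN0 : (0 : ℝ) < (Ideal.absNorm 𝔮 : ℝ) := by linarith
  obtain ⟨X, hXd⟩ : ∃ X : ℝ, X = (Ideal.absNorm 𝔮 : ℝ) * T ^ d := ⟨_, rfl⟩
  rw [← hXd] at hX ⊢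
  have hTd : 1 ≤ T ^ d := one_le_pow₀ hT
  have hX2 : 2 ≤ X := by
    rw [hXd]
    nlinarith
  have hX0 : 0 < X := by linarith
  have hlogX : Real.log X = Real.log (Ideal.absNorm 𝔮) + d * Real.log T := by
    rw [hXd, Real.log_mul hN0.ne' (by positivity), Real.log_pow]
  have hlX2 : Real.log 2 ≤ Real.log X := Real.log_le_log (by norm_num) hX2
  obtain ⟨R, hR⟩ : ∃ R : ℝ, R = R₀ + Real.log X := ⟨_, rfl⟩
  have hRR₀ : R₀ ≤ R := by rw [hR]; linarith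
  have hR1 : 1 ≤ R := hR₀.trans hRR₀
  have hR0 : 0 < R := by linarith
  have hexpR : Real.exp R = Real.exp R₀ * X := by
    rw [hR, Real.exp_add, Real.exp_log hX0]
  -- the family
  obtain ⟨S, hS⟩ : ∃ S : Finset (Ideal (𝓞 K) →*₀ ℂ), S = J.image (ind htop) := ⟨_, rfl⟩
  have hinj : Set.InjOn (ind htop) (J : Set (Ideal (𝓞 K) →*₀ ℂ)) := by
    intro x hx y hy hxy
    exact ind_inj hbot htop (hJ x hx) (hJ y hy) hxy
  have hSJ : (S.card : ℝ) = J.card := by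
    rw [hS, Finset.card_image_of_injOn hinj]
  have hSfam : ∀ lam ∈ S, ∃ ψ ∈ FamN n 𝔮, lam = ofM' htop (tM 𝔮 ψ) := by
    intro lam hl
    rw [hS, Finset.mem_image] at hl
    obtain ⟨ψ, h1, h2⟩ := hl
    exact ⟨ψ, hJ ψ h1, h2.symm⟩
  have hFex : ∀ lam : Ideal (𝓞 K) →*₀ ℂ, ∃ (F : ℂ → ℂ) (Z' : Finset ℂ), Differentiable ℂ F ∧
      (∀ ψ ∈ J, ind htop ψ = lam → GLf A T R d lam F ∧ Z' = Z ψ ∧
        ∀ z ∈ Z ψ, analyticOrderNatAt F z = analyticOrderNatAt (L ψ) z) := by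
    intro lam
    by_cases hl : ∃ ψ ∈ J, ind htop ψ = lam
    · obtain ⟨ψ, h1, h2⟩ := hl
      obtain ⟨G, g1, g2, g3⟩ := hgl 𝔮 hbot htop ψ (hJ ψ h1)
      have hGL : G = L ψ := eq_of_LI g1 (hL ψ h1).1
        (fun s hs => by rw [g2 s hs, (hL ψ h1).2 s hs])
      refine ⟨fun s => G s * EB 𝔮 ψ s, Z ψ, g3.diff, fun ψ' h1' h2' => ?_⟩
      have h3 : ψ' = ψ := hinj h1' h1 (h2'.trans h2.symm)
      rw [h3]
      refine ⟨?_, rfl, fun z hz => ?_⟩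
      · rw [← h2]
        have g4 := GLf.height g3 hA hT
        rw [← hd, ← hlogX] at g4
        exact GLf.mono g4 hA hT (by rw [hR]; linarith)
      · unfold analyticOrderNatAt
        rw [order_EB hbot (FamN_norm_le (hJ ψ h1)) g1 (by linarith [(hZ ψ h1 z hz).1]), hGL]
    · exact ⟨fun _ => 0, ∅, differentiable_const _, fun ψ h1 h2 => absurd ⟨ψ, h1, h2⟩ hl⟩
  choose F Z' hFd hF using hFex
  have hGLpr : ∀ lam ∈ S, GLf A T R d (pr (one₀ K) lam) (F lam) := fun lam hl => by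
    rw [hS, Finset.mem_image] at hl
    obtain ⟨ψ, h1, h2⟩ := hl
    rw [pr_one₀]
    exact (hF lam ψ h1 h2).1
  obtain ⟨W, hW⟩ : ∃ W : ℝ, W = Nat.card (Cls (pi1 htop)) * Un 𝔮 := ⟨_, rfl⟩
  have hUn : (1 : ℝ) ≤ (Un 𝔮 : ℝ) := by exact_mod_cast one_le_Un hbot
  have hW0 : 0 ≤ W := by rw [hW]; positivity
  rw [← hW]
  -- the large sieve
  obtain ⟨Mn, hMn⟩ : ∃ Mn : ℕ, Mn = ⌊Real.exp ((1 / 2 + 3 * g) * R)⌋₊ *
      ⌊Real.exp ((c / 2 + 2 * g) * R)⌋₊ := ⟨_, rfl⟩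
  have hMnle : (Mn : ℝ) ≤ Real.exp R₀ * (Ideal.absNorm 𝔮 : ℝ) := by
    have h1 : (Mn : ℝ) ≤ Real.exp ((h - g) * R) := by
      rw [hMn]
      push_cast
      refine (mul_le_mul (Nat.floor_le (Real.exp_pos _).le) (Nat.floor_le (Real.exp_pos _).le)
        (Nat.cast_nonneg _) (Real.exp_pos _).le).trans (le_of_eq ?_)
      rw [← Real.exp_add]
      congr 1
      rw [hg]
      ring
    have h2 : Real.exp ((h - g) * R) ≤ Real.exp (h * R) := Real.exp_le_exp.mpr (by nlinarith)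
    have h3 : Real.exp (h * R) = Real.exp (h * R₀) * X ^ h := by
      rw [Real.rpow_def_of_pos hX0, ← Real.exp_add, hR]
      congr 1
      ring
    have h4 : Real.exp (h * R₀) ≤ Real.exp R₀ := Real.exp_le_exp.mpr (by nlinarith)
    calc (Mn : ℝ) ≤ Real.exp (h * R₀) * X ^ h := by rw [← h3]; exact h1.trans h2
      _ ≤ _ := by gcongr
  have hratio : 1 + (Mn : ℝ) / (Ideal.absNorm 𝔮 : ℝ) ≤ 1 + Real.exp R₀ := by
    have : (Mn : ℝ) / (Ideal.absNorm 𝔮 : ℝ) ≤ Real.exp R₀ := by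
      rw [div_le_iff₀ hN0]; exact hMnle
    linarith
  obtain ⟨P, hP⟩ : ∃ P : ℝ, P = C₄ * W * H := ⟨_, rfl⟩
  have hls1 : LSP S (one₀ K) H P Mn := by
    intro u t₁
    refine (hls n 𝔮 hbot htop S hSfam H Mn (by linarith) u t₁).trans ?_
    refine mul_le_mul_of_nonneg_right ?_ (Finset.sum_nonneg fun _ _ => sq_nonneg _)
    rw [hP, hC₄, ← hW]
    calc C₂ * (W * H * (1 + (Mn : ℝ) / (Ideal.absNorm 𝔮 : ℝ))) ≤
        C₂ * (W * H * (1 + Real.exp R₀)) := by gcongr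
      _ = _ := by ring
  have hcardW : (S.card : ℝ) ≤ W := by
    have h1 := (FamN_finite (n := n) hbot htop)
    have h2 : (J.card : ℝ) ≤ Nat.card (Cls (pi1 htop)) := by
      have h3 : J.card ≤ (FamN n 𝔮).ncard := by
        rw [Set.ncard_eq_toFinset_card _ h1.1]
        refine Finset.card_le_card fun ψ hψ => ?_
        rw [Set.Finite.mem_toFinset]
        exact hJ ψ hψ
      exact_mod_cast h3.trans h1.2
    rw [hSJ, hW]
    exact h2.trans (le_mul_of_one_le_right (Nat.cast_nonneg _) hUn)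
  have hcardP : (S.card : ℝ) * H ≤ P := by
    rw [hP]
    refine mul_le_mul_of_nonneg_right (hcardW.trans ?_) (by linarith)
    exact le_mul_of_one_le_left hW0 hC₄0
  have hnv : ∀ lam ∈ S, ∀ s : ℂ, 1 < s.re → F lam s ≠ 0 := by
    intro lam hl s hs
    have h1 := hGLpr lam hl
    rw [h1.ser s hs]
    exact (hD _ h1.le1).2.2.1 s hs
  have hfin := hmain R T H P S (one₀ K) F hRR₀ hH hHT hcardP (by rw [← hMn]; exact hls1) hFd
    hGLpr hnv t₁ ht₁ δ hδ Z' (fun lam hl z hz => by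
      rw [hS, Finset.mem_image] at hl
      obtain ⟨ψ, h1, h2⟩ := hl
      rw [(hF lam ψ h1 h2).2.1] at hz
      exact hZ ψ h1 z hz)
  have e1 : ∑ ψ ∈ J, ∑ z ∈ Z ψ, (analyticOrderNatAt (L ψ) z : ℝ) =
      ∑ lam ∈ S, ∑ z ∈ Z' lam, (analyticOrderNatAt (F lam) z : ℝ) := by
    rw [hS, Finset.sum_image hinj]
    refine Finset.sum_congr rfl fun ψ hψ => ?_
    obtain ⟨a1, a2, a3⟩ := hF (ind htop ψ) ψ hψ rfl
    rw [a2]
    exact Finset.sum_congr rfl fun z hz => by rw [a3 z hz]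
  rw [e1]
  refine hfin.trans ?_
  have e2 : Real.exp (-(2 * (c / 2) * R * δ)) ≤ X ^ (-(c * δ)) := by
    rw [Real.rpow_def_of_pos hX0]
    refine Real.exp_le_exp.mpr ?_
    have h1 : 0 ≤ c * R₀ * δ := by positivity
    rw [hR]
    nlinarith
  have e3 : R ≤ (R₀ / Real.log 2 + 1) * Real.log X := by
    rw [hR, add_mul, one_mul, div_mul_eq_mul_div]
    have : R₀ ≤ R₀ * Real.log X / Real.log 2 := by
      rw [le_div_iff₀ hlog2]
      exact mul_le_mul_of_nonneg_left hlX2 (by linarith)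
    linarith
  have hlX0 : 0 ≤ Real.log X := by linarith
  have hXp : 0 ≤ X ^ (-(c * δ)) := Real.rpow_nonneg hX0.le _
  calc Q * (P * R * Real.exp (-(2 * (c / 2) * R * δ))) ≤
      Q * (P * ((R₀ / Real.log 2 + 1) * Real.log X) * X ^ (-(c * δ))) := by
        have : 0 ≤ P := by rw [hP]; positivity
        gcongr
    _ = Q * C₄ * (R₀ / Real.log 2 + 1) * (W * H * Real.log X * X ^ (-(c * δ))) := by
        rw [hP]; ring
    _ ≤ _ := by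
        refine mul_le_mul_of_nonneg_right ?_ (by positivity)
        linarith

end Pool.Agent.N784.CZ
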