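import Pool.Agent.N784.HC.Fem
import Pool.Agent.N786.D.Gra

/-!
# The functional equation across the critical line, real shifts (helper784; adapted from
`Pool.Agent.N786.D.Gra`)
-/

set_option autoImplicit false
set_option linter.unusedSectionVars false

open Complex Filter Topology MeasureTheory Set
open H370.DL (logDeriv_Gammaℝ_bound)

namespace Pool.Agent.N784.CZ

open Pool.Agent.N784.HC (GGm FEm logDeriv_wide HH_boundM)
open Pool.Agent.N786.D (ratio_of_logDeriv Gammaℝ_diffAt)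
open Pool.Agent.R399.TW (pt)
open Pool.Agent.Y772.FE (HH sp3_ne)

/-- the ratio of values of `Γ_ℝ` -/
lemma gam_ratioM (k : ℕ) : ∃ c : ℝ, 1 ≤ c ∧ ∀ μ : ℝ, 0 ≤ μ → μ ≤ k → ∀ δ : ℝ, 0 < δ → δ ≤ 1 / 4 →
    ∀ y : ℝ, ‖Gammaℝ (((1 / 2 + δ + μ : ℝ) : ℂ) + y * I)‖ ≤
      c * (1 + |y|) ^ δ * ‖Gammaℝ (((1 / 2 - δ + μ : ℝ) : ℂ) + y * I)‖ := by
  obtain ⟨C, hC0, hC'⟩ := logDeriv_Gammaℝ_bound
  have hC := fun {z : ℂ} => logDeriv_wide hC' k (z := z)
  have hk0 : (0 : ℝ) ≤ k := Nat.cast_nonneg k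
  have hre : ∀ x y : ℝ, ((x : ℂ) + y * I).re = x := fun x y => by simp
  have him : ∀ x y : ℝ, ((x : ℂ) + y * I).im = y := fun x y => by simp
  -- small ordinates
  have hcont : ContinuousOn (fun q : ℝ × ℝ => ‖Gammaℝ ((q.1 : ℂ) + q.2 * I)‖)
      (Icc (1 / 4 : ℝ) (2 + (k : ℝ)) ×ˢ Icc (-1 : ℝ) 1) := by
    intro q hq
    have h1 : 0 < ((q.1 : ℂ) + q.2 * I).re := by
      rw [hre]
      linarith [hq.1.1]
    have h2 := Gammaℝ_diffAt h1
    have h3 : ContinuousAt (fun q : ℝ × ℝ => Gammaℝ ((q.1 : ℂ) + q.2 * I)) q :=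
      ContinuousAt.comp (f := fun q : ℝ × ℝ => ((q.1 : ℂ) + q.2 * I)) (g := Gammaℝ)
        h2.continuousAt (by fun_prop)
    exact h3.norm.continuousWithinAt
  have hK : IsCompact (Icc (1 / 4 : ℝ) (2 + (k : ℝ)) ×ˢ Icc (-1 : ℝ) 1) := isCompact_Icc.prod isCompact_Icc
  obtain ⟨M, hM⟩ := hK.exists_bound_of_continuousOn hcont
  obtain ⟨q₀, hq₀, hmin⟩ := hK.exists_isMinOn
    ⟨(1, 0), ⟨⟨by norm_num, by simp only; linarith⟩, ⟨by norm_num, by norm_num⟩⟩⟩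
    hcont
  obtain ⟨m, hm⟩ : ∃ m : ℝ, m = ‖Gammaℝ ((q₀.1 : ℂ) + q₀.2 * I)‖ := ⟨_, rfl⟩
  have hm0 : 0 < m := by
    rw [hm]
    refine norm_pos_iff.mpr (Gammaℝ_ne_zero_of_re_pos ?_)
    rw [hre]
    linarith [hq₀.1.1]
  refine ⟨max (max 1 (M / m)) (Real.exp (C + 1 + k)), le_max_of_le_left (le_max_left _ _), ?_⟩
  intro μ hμ0 hμ1 δ hδ0 hδ1 y
  have h1y : 1 ≤ (1 + |y|) ^ δ := Real.one_le_rpow (by linarith [abs_nonneg y]) hδ0.le
  rcases le_total |y| 1 with hy | hy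
  · have hy' := abs_le.mp hy
    have m1 : ((1 / 2 + δ + μ, y) : ℝ × ℝ) ∈ Icc (1 / 4 : ℝ) (2 + (k : ℝ)) ×ˢ Icc (-1 : ℝ) 1 :=
      ⟨⟨by simp only; linarith, by simp only; linarith⟩, ⟨hy'.1, hy'.2⟩⟩
    have m2 : ((1 / 2 - δ + μ, y) : ℝ × ℝ) ∈ Icc (1 / 4 : ℝ) (2 + (k : ℝ)) ×ˢ Icc (-1 : ℝ) 1 :=
      ⟨⟨by simp only; linarith, by simp only; linarith⟩, ⟨hy'.1, hy'.2⟩⟩
    have b1 := hM _ m1
    have b2 := hmin m2
    simp only [norm_norm, mem_setOf_eq] at b1 b2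
    rw [← hm] at b2
    have b3 : M ≤ M / m * ‖Gammaℝ (((1 / 2 - δ + μ : ℝ) : ℂ) + y * I)‖ := by
      have hM0 : 0 ≤ M := le_trans (norm_nonneg _) b1
      calc M = M / m * m := by field_simp
        _ ≤ _ := mul_le_mul_of_nonneg_left b2 (by positivity)
    refine (b1.trans b3).trans ?_
    refine mul_le_mul_of_nonneg_right ?_ (norm_nonneg _)
    refine le_trans ?_ (le_mul_of_one_le_right (by positivity) h1y)
    exact le_max_of_le_left (le_max_right _ _)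
  · have hB : ∀ x ∈ Icc (1 / 2 - δ + μ) (1 / 2 + δ + μ), (logDeriv Gammaℝ ((x : ℂ) + y * I)).re ≤
        1 / 2 * Real.log |y| + (C + 1 + k) := by
      intro x hx
      have h1 := hC (z := (x : ℂ) + y * I) (by rw [hre]; linarith [hx.1])
        (by rw [hre]; linarith [hx.2]) (by rw [him]; exact hy)
      rw [him] at h1
      have h2 := (Complex.re_le_norm _).trans h1
      have e1 : (logDeriv Gammaℝ ((x : ℂ) + y * I) - 1 / 2 * ((Real.log |y| : ℝ) : ℂ)).re =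
          (logDeriv Gammaℝ ((x : ℂ) + y * I)).re - 1 / 2 * Real.log |y| := by
        have : (1 / 2 * ((Real.log |y| : ℝ) : ℂ)) = ((1 / 2 * Real.log |y| : ℝ) : ℂ) := by
          push_cast; ring
        rw [this, Complex.sub_re, Complex.ofReal_re]
      rw [e1] at h2
      linarith
    have h3 := ratio_of_logDeriv (f := Gammaℝ) (y := y) (a := 1 / 2 - δ + μ)
      (b := 1 / 2 + δ + μ) (by linarith) (fun x hx => by
        have h4 : 0 < ((x : ℂ) + y * I).re := by rw [hre]; linarith [hx.1]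
        exact ⟨Gammaℝ_diffAt h4, Gammaℝ_ne_zero_of_re_pos h4⟩) hB
    refine h3.trans (mul_le_mul_of_nonneg_right ?_ (norm_nonneg _))
    have e2 : (1 / 2 * Real.log |y| + (C + 1 + k)) * (1 / 2 + δ + μ - (1 / 2 - δ + μ)) =
        Real.log |y| * δ + (C + 1 + k) * (2 * δ) := by ring
    rw [e2, Real.exp_add, ← Real.rpow_def_of_pos (by linarith)]
    have e3 : |y| ^ δ ≤ (1 + |y|) ^ δ :=
      Real.rpow_le_rpow (abs_nonneg y) (by linarith) hδ0.le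
    have e4 : Real.exp ((C + 1 + k) * (2 * δ)) ≤ max (max 1 (M / m)) (Real.exp (C + 1 + k)) := by
      refine le_max_of_le_right (Real.exp_le_exp.mpr ?_)
      nlinarith
    rw [mul_comm]
    exact mul_le_mul e4 e3 (by positivity) (le_trans (Real.exp_pos _).le e4)

/-- **the functional equation, in absolute value** -/
theorem fe_boundM (k : ℕ) : ∃ c : ℝ, 1 ≤ c ∧ ∀ {ι : Type} [Fintype ι] {R : ℝ} (_ : 0 < R)
    {μ : ι → ℝ} (_ : ∀ i, 0 ≤ μ i ∧ μ i ≤ k) {F : ℂ → ℂ} (_ : FEm R μ F) {δ : ℝ} (_ : 0 < δ)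
    (_ : δ ≤ 1 / 4) (τ : ℝ),
    ‖F (pt (1 / 2 - δ) τ)‖ ≤ c ^ Fintype.card ι * R ^ δ * (1 + |τ|) ^ ((Fintype.card ι : ℝ) * δ) *
      ‖F (pt (1 / 2 + δ) τ)‖ := by
  obtain ⟨c, hc, hg⟩ := gam_ratioM k
  refine ⟨c, hc, ?_⟩
  intro ι _ R hR μ hμ F hF δ hδ0 hδ1 τ
  have hcF : Continuous F := hF.diff.continuous
  have hclosed : IsClosed {τ : ℝ | ‖F (pt (1 / 2 - δ) τ)‖ ≤ c ^ Fintype.card ι * R ^ δ *
      (1 + |τ|) ^ ((Fintype.card ι : ℝ) * δ) * ‖F (pt (1 / 2 + δ) τ)‖} := by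
    refine isClosed_le ?_ ?_
    · unfold pt; fun_prop
    · refine Continuous.mul (Continuous.mul continuous_const ?_) (by unfold pt; fun_prop)
      refine Continuous.rpow_const (by fun_prop) fun x => Or.inl ?_
      have := abs_nonneg x
      positivity
  have hdense : Dense {τ : ℝ | τ ≠ 0} := by
    have h1 : {τ : ℝ | τ ≠ 0} = ({0} : Set ℝ)ᶜ := rfl
    rw [h1]
    exact (Set.finite_singleton (0 : ℝ)).countable.dense_compl ℝ
  have hsub : {τ : ℝ | τ ≠ 0} ⊆ {τ : ℝ | ‖F (pt (1 / 2 - δ) τ)‖ ≤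
      c ^ Fintype.card ι * R ^ δ * (1 + |τ|) ^ ((Fintype.card ι : ℝ) * δ) *
        ‖F (pt (1 / 2 + δ) τ)‖} := by
    intro x hx
    simp only [mem_setOf_eq] at hx ⊢
    obtain ⟨w, hw, hfe⟩ := hF.fe
    have him : ∀ r : ℝ, (pt r x).im = x := fun r => by unfold pt; simp
    have h1 := hfe (pt (1 / 2 - δ) x) (by rw [him]; exact hx)
    have h2 : 1 - (starRingEnd ℂ) (pt (1 / 2 - δ) x) = pt (1 / 2 + δ) x := by
      apply Complex.ext
      · simp only [Complex.sub_re, Complex.one_re, Complex.conj_re]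
        unfold pt
        simp
        ring
      · simp only [Complex.sub_im, Complex.one_im, Complex.conj_im]
        unfold pt
        simp
    rw [h2] at h1
    have h3 := congrArg norm h1
    rw [norm_mul, norm_mul, hw, one_mul, RCLike.norm_conj, norm_mul] at h3
    have hG : ∀ r : ℝ, ‖GGm R μ (pt r x)‖ = R ^ (r / 2) *
        ∏ i, ‖Gammaℝ (((r + μ i : ℝ) : ℂ) + (x : ℂ) * I)‖ := by
      intro r
      unfold GGm
      rw [norm_mul, _root_.norm_prod, Complex.norm_cpow_eq_rpow_re_of_pos hR]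
      congr 1
      · congr 1
        unfold pt
        simp
      · refine Finset.prod_congr rfl fun i _ => ?_
        congr 2
        unfold pt
        push_cast
        ring
    have hG2 : ‖GGm R μ (pt (1 / 2 + δ) x)‖ ≤ (c ^ Fintype.card ι * R ^ δ *
        (1 + |x|) ^ ((Fintype.card ι : ℝ) * δ)) * ‖GGm R μ (pt (1 / 2 - δ) x)‖ := by
      rw [hG, hG]
      have h4 : ∏ i, ‖Gammaℝ (((1 / 2 + δ + μ i : ℝ) : ℂ) + (x : ℂ) * I)‖ ≤
          ∏ i, (c * (1 + |x|) ^ δ *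
            ‖Gammaℝ (((1 / 2 - δ + μ i : ℝ) : ℂ) + (x : ℂ) * I)‖) :=
        Finset.prod_le_prod (fun i _ => norm_nonneg _)
          fun i _ => hg (μ i) (hμ i).1 (hμ i).2 δ hδ0 hδ1 x
      rw [Finset.prod_mul_distrib, Finset.prod_const, Finset.card_univ, mul_pow] at h4
      have h5 : R ^ ((1 / 2 + δ) / 2) = R ^ δ * R ^ ((1 / 2 - δ) / 2) := by
        rw [← Real.rpow_add hR]
        congr 1
        ring
      have h6 : ((1 + |x|) ^ δ) ^ Fintype.card ι = (1 + |x|) ^ ((Fintype.card ι : ℝ) * δ) := by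
        rw [← Real.rpow_natCast, ← Real.rpow_mul (by positivity), mul_comm]
      rw [h6] at h4
      rw [h5]
      calc _ ≤ R ^ δ * R ^ ((1 / 2 - δ) / 2) * (c ^ Fintype.card ι *
            (1 + |x|) ^ ((Fintype.card ι : ℝ) * δ) *
            ∏ i, ‖Gammaℝ (((1 / 2 - δ + μ i : ℝ) : ℂ) + (x : ℂ) * I)‖) :=
            mul_le_mul_of_nonneg_left h4 (by positivity)
        _ = _ := by ring
    have hpos : 0 < ‖GGm R μ (pt (1 / 2 - δ) x)‖ := by
      rw [hG]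
      refine mul_pos (by positivity) (Finset.prod_pos fun i _ => norm_pos_iff.mpr
        (Gammaℝ_ne_zero_of_re_pos ?_))
      have h6 : ((((1 / 2 - δ + μ i : ℝ)) : ℂ) + (x : ℂ) * I).re = 1 / 2 - δ + μ i := by simp
      rw [h6]
      linarith [(hμ i).1]
    rw [← mul_le_mul_iff_right₀ hpos, h3]
    calc ‖GGm R μ (pt (1 / 2 + δ) x)‖ * ‖F (pt (1 / 2 + δ) x)‖ ≤
        (c ^ Fintype.card ι * R ^ δ * (1 + |x|) ^ ((Fintype.card ι : ℝ) * δ)) *
          ‖GGm R μ (pt (1 / 2 - δ) x)‖ * ‖F (pt (1 / 2 + δ) x)‖ :=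
          mul_le_mul_of_nonneg_right hG2 (norm_nonneg _)
      _ = _ := by ring
  have h := hdense.closure_eq ▸ hclosed.closure_subset_iff.mpr hsub
  exact h (mem_univ τ)

/-- growth -/
theorem growM {ι : Type} [Fintype ι] {N P B V : ℝ} (hN : 1 ≤ N) (hP : 1 ≤ P) (hB1 : 1 ≤ B)
    (hV : 0 ≤ V) {μ : ι → ℝ} (hν : ∀ i, 0 ≤ μ i ∧ μ i ≤ V) {F : ℂ → ℂ} (hF : FEm (N * P) μ F)
    (hB : ∀ s : ℂ, 3 / 2 ≤ s.re → ‖F s‖ ≤ B) (s : ℂ) (h1 : 0 ≤ s.re) :
    ‖F s‖ ≤ B * N * (1 + V) ^ Fintype.card ι * 6 ^ Fintype.card ι *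
      (P ^ (3 / 4 : ℝ) * (1 + |s.im|) ^ Fintype.card ι) := by
  set d := Fintype.card ι with hd
  have hV1 : 1 ≤ (1 + V) ^ d := one_le_pow₀ (by linarith)
  have hBN0 : 1 ≤ B * N := by nlinarith
  set BN : ℝ := B * N * (1 + V) ^ d with hBNdef
  have hBN : 1 ≤ BN := by
    rw [hBNdef]
    nlinarith
  have hBBN : B ≤ BN := by
    have h4 : B ≤ B * N := by nlinarith
    have h5 : B * N ≤ BN := le_mul_of_one_le_right (by linarith) hV1
    linarith
  have hP0 : 0 < P := by linarith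
  have hPr : 1 ≤ P ^ (3 / 4 : ℝ) := Real.one_le_rpow hP (by norm_num)
  have hc0 : 0 ≤ BN * 6 ^ d := by positivity
  have him1 : 1 ≤ (1 + |s.im|) ^ d := one_le_pow₀ (by linarith [abs_nonneg s.im])
  rcases le_total s.re (3 / 2) with h | h
  · have e1 := HH_boundM hN hP hV hν hF hB s (by linarith) h
    rw [← hd, ← hBNdef] at e1
    unfold HH at e1
    rw [norm_mul, norm_mul, norm_inv, norm_pow, Complex.norm_cpow_eq_rpow_re_of_pos hP0] at e1
    have hre : ((s - 3 / 2) / 2).re = (s.re - 3 / 2) / 2 := by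
      have : ((s - 3 / 2) / 2).re = (s - 3 / 2).re / 2 := by simp
      rw [this, Complex.sub_re]; norm_num
    rw [hre] at e1
    have hs3 : s + 3 ≠ 0 := sp3_ne (by linarith)
    have e2 : 0 < ‖s + 3‖ ^ d := by positivity
    have e3 : ‖s + 3‖ ^ d ≤ (6 * (1 + |s.im|)) ^ d := by
      apply pow_le_pow_left₀ (norm_nonneg _)
      refine (norm_le_abs_re_add_abs_im _).trans ?_
      have hre' : (s + 3).re = s.re + 3 := by simp
      have him' : (s + 3).im = s.im := by simp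
      rw [hre', him', abs_of_nonneg (by linarith)]
      linarith [abs_nonneg s.im]
    have e4 : (P ^ (3 / 4 : ℝ))⁻¹ ≤ P ^ ((s.re - 3 / 2) / 2) := by
      rw [← Real.rpow_neg hP0.le]
      apply Real.rpow_le_rpow_of_exponent_le hP
      linarith
    have e5 : ‖F s‖ * (P ^ (3 / 4 : ℝ))⁻¹ * (‖s + 3‖ ^ d)⁻¹ ≤ BN := by
      refine le_trans ?_ e1
      gcongr
    have e6 : ‖F s‖ ≤ BN * (‖s + 3‖ ^ d) * P ^ (3 / 4 : ℝ) := by
      have : ‖F s‖ = (‖F s‖ * (P ^ (3 / 4 : ℝ))⁻¹ * (‖s + 3‖ ^ d)⁻¹) * (‖s + 3‖ ^ d) *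
          P ^ (3 / 4 : ℝ) := by
        have e2' := e2.ne'
        have e7 : P ^ (3 / 4 : ℝ) ≠ 0 := by positivity
        generalize ‖s + 3‖ ^ d = M at e2' ⊢
        generalize P ^ (3 / 4 : ℝ) = W at e7 ⊢
        field_simp
      rw [this]
      gcongr
    calc ‖F s‖ ≤ BN * (‖s + 3‖ ^ d) * P ^ (3 / 4 : ℝ) := e6
      _ ≤ BN * ((6 * (1 + |s.im|)) ^ d) * P ^ (3 / 4 : ℝ) := by gcongr
      _ = BN * 6 ^ d * (P ^ (3 / 4 : ℝ) * (1 + |s.im|) ^ d) := by rw [mul_pow]; ring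
  · have e1 := hB s h
    have e2 : 1 ≤ P ^ (3 / 4 : ℝ) * (1 + |s.im|) ^ d := one_le_mul_of_one_le_of_one_le hPr him1
    have e3 : B ≤ BN * 6 ^ d := by
      have h5 : (1 : ℝ) ≤ 6 ^ d := one_le_pow₀ (by norm_num)
      nlinarith
    calc ‖F s‖ ≤ B := e1
      _ ≤ BN * 6 ^ d := e3
      _ = BN * 6 ^ d * 1 := (mul_one _).symm
      _ ≤ _ := mul_le_mul_of_nonneg_left e2 hc0

end Pool.Agent.N784.CZ
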