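import Pool.Agent.N784.CZ.Prim
import Pool.Agent.N786.D.Asm1
import Pool.Agent.N784.AD.Rel

/-!
# The L-functions of the characters modulo `𝔮` (helper784)
-/

set_option autoImplicit false
set_option linter.unusedSectionVars false

open NumberField Complex Filter Topology MeasureTheory Set

namespace Pool.Agent.N784.CZ

open Pool.Agent.Y773 (TPos LI zz norm_zz_lt hasSum_log)
open Pool.Agent.Y772.DK (LI_eq_exp)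
open Pool.Agent.Y767 (Mq Mq_cop Mq_ne_bot Cls cls)
open Pool.Agent.Y773.IQ (tM ofM' ofM'_pos ofM'_supp cop_mono absNorm_pos')
open Pool.Agent.N784.HC (FEm CTyp IsHecke FamN tM_coe FamN_norm_le FamN_ne_zero)
open Pool.Agent.N786.D (GLf)
open Pool.Agent.R399.TW (pt pt_re pt_im)

section

variable {K : Type} [Field K] [NumberField K]

/-- the Euler product over all the prime ideals -/
lemma hasProd_pr {ψ : Ideal (𝓞 K) →*₀ ℂ} (hψ : ∀ 𝔞, ‖ψ 𝔞‖ ≤ 1) {s : ℂ} (hs : 1 < s.re) :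
    HasProd (fun 𝔭 : {𝔭 : Ideal (𝓞 K) // Prime 𝔭} => (1 - zz ψ s 𝔭)⁻¹) (LI ψ s) := by
  have h3 := (hasSum_log hψ hs).cexp
  rw [← LI_eq_exp ψ hψ hs] at h3
  refine h3.congr_fun fun 𝔭 => ?_
  have h4 : 1 - zz ψ s 𝔭 ≠ 0 := by
    intro h5
    have h6 := norm_zz_lt hψ hs 𝔭.2
    rw [← sub_eq_zero.mp h5, norm_one] at h6
    exact lt_irrefl _ h6
  simp only [Function.comp_apply]
  rw [Complex.exp_neg, Complex.exp_log h4]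

open Classical in
/-- the prime divisors of `𝔮` at which `ψ` does not vanish -/
noncomputable def PB (𝔮 : Ideal (𝓞 K)) (ψ : Ideal (𝓞 K) →*₀ ℂ) : Finset (Ideal (𝓞 K)) :=
  (UniqueFactorizationMonoid.normalizedFactors 𝔮).toFinset.filter (fun 𝔭 => ψ 𝔭 ≠ 0)

lemma mem_PB {𝔮 : Ideal (𝓞 K)} (h : 𝔮 ≠ ⊥) {ψ : Ideal (𝓞 K) →*₀ ℂ} {𝔭 : Ideal (𝓞 K)} :
    𝔭 ∈ PB 𝔮 ψ ↔ Prime 𝔭 ∧ 𝔭 ∣ 𝔮 ∧ ψ 𝔭 ≠ 0 := by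
  classical
  unfold PB
  rw [Finset.mem_filter, Multiset.mem_toFinset]
  constructor
  · rintro ⟨h1, h2⟩
    exact ⟨UniqueFactorizationMonoid.prime_of_normalized_factor _ h1,
      UniqueFactorizationMonoid.dvd_of_mem_normalizedFactors h1, h2⟩
  · rintro ⟨h1, h2, h3⟩
    refine ⟨?_, h3⟩
    obtain ⟨q, hq, hpq⟩ := UniqueFactorizationMonoid.exists_mem_normalizedFactors_of_dvd
      (by rwa [Ne, Ideal.zero_eq_bot]) h1.irreducible h2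
    rw [associated_iff_eq.mp hpq]
    exact hq

/-- the correction factor -/
noncomputable def EB (𝔮 : Ideal (𝓞 K)) (ψ : Ideal (𝓞 K) →*₀ ℂ) (s : ℂ) : ℂ :=
  ∏ 𝔭 ∈ PB 𝔮 ψ, (1 - zz ψ s 𝔭)

lemma EB_diff {𝔮 : Ideal (𝓞 K)} (h : 𝔮 ≠ ⊥) (ψ : Ideal (𝓞 K) →*₀ ℂ) :
    Differentiable ℂ (EB 𝔮 ψ) := by
  unfold EB
  refine Differentiable.fun_finsetProd fun 𝔭 h𝔭 => ?_
  have h1 : Ideal.absNorm 𝔭 ≠ 0 := fun h1 =>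
    ((mem_PB h).mp h𝔭).1.ne_zero (Ideal.absNorm_eq_zero_iff.mp h1)
  unfold zz
  refine (differentiable_const _).sub ((differentiable_const _).mul ?_)
  intro s
  refine DifferentiableAt.const_cpow (by fun_prop) (Or.inl ?_)
  exact_mod_cast h1

lemma two_le_norm {𝔭 : Ideal (𝓞 K)} (h : Prime 𝔭) : 2 ≤ Ideal.absNorm 𝔭 := by
  have h1 : Ideal.absNorm 𝔭 ≠ 0 := fun h1 => h.ne_zero (Ideal.absNorm_eq_zero_iff.mp h1)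
  have h2 : Ideal.absNorm 𝔭 ≠ 1 := fun h2 =>
    (Ideal.isPrime_of_prime h).ne_top (Ideal.absNorm_eq_one_iff.mp h2)
  omega

lemma norm_zz {ψ : Ideal (𝓞 K) →*₀ ℂ} {𝔭 : Ideal (𝓞 K)} (h : Prime 𝔭) (s : ℂ) :
    ‖zz ψ s 𝔭‖ = ‖ψ 𝔭‖ * (Ideal.absNorm 𝔭 : ℝ) ^ (-s.re) := by
  unfold zz
  rw [norm_mul, Complex.norm_natCast_cpow_of_pos (by have := two_le_norm h; omega)]
  simp

lemma norm_zz_le {ψ : Ideal (𝓞 K) →*₀ ℂ} (hψ : ∀ 𝔞, ‖ψ 𝔞‖ ≤ 1) {𝔭 : Ideal (𝓞 K)} (h : Prime 𝔭)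
    {s : ℂ} (hs : 0 ≤ s.re) : ‖zz ψ s 𝔭‖ ≤ 1 := by
  rw [norm_zz h]
  refine mul_le_one₀ (hψ _) (by positivity) ?_
  refine Real.rpow_le_one_of_one_le_of_nonpos ?_ (by linarith)
  have := two_le_norm h
  exact_mod_cast (by omega : 1 ≤ Ideal.absNorm 𝔭)

lemma norm_zz_lt' {ψ : Ideal (𝓞 K) →*₀ ℂ} (hψ : ∀ 𝔞, ‖ψ 𝔞‖ ≤ 1) {𝔭 : Ideal (𝓞 K)} (h : Prime 𝔭)
    {s : ℂ} (hs : 0 < s.re) : ‖zz ψ s 𝔭‖ < 1 := by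
  rw [norm_zz h]
  have h1 : (Ideal.absNorm 𝔭 : ℝ) ^ (-s.re) < 1 := by
    refine Real.rpow_lt_one_of_one_lt_of_neg ?_ (by linarith)
    have := two_le_norm h
    exact_mod_cast (by omega : 1 < Ideal.absNorm 𝔭)
  calc ‖ψ 𝔭‖ * (Ideal.absNorm 𝔭 : ℝ) ^ (-s.re) ≤ 1 * (Ideal.absNorm 𝔭 : ℝ) ^ (-s.re) :=
        mul_le_mul_of_nonneg_right (hψ 𝔭) (by positivity)
    _ < 1 := by rw [one_mul]; exact h1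

lemma EB_ne {𝔮 : Ideal (𝓞 K)} (h : 𝔮 ≠ ⊥) {ψ : Ideal (𝓞 K) →*₀ ℂ} (hψ : ∀ 𝔞, ‖ψ 𝔞‖ ≤ 1)
    {s : ℂ} (hs : 0 < s.re) : EB 𝔮 ψ s ≠ 0 := by
  unfold EB
  refine Finset.prod_ne_zero_iff.mpr fun 𝔭 h𝔭 => ?_
  intro h5
  have h6 := norm_zz_lt' hψ ((mem_PB h).mp h𝔭).1 hs
  rw [← sub_eq_zero.mp h5, norm_one] at h6
  exact lt_irrefl _ h6

/-- the product of the norms -/
noncomputable def NB (𝔮 : Ideal (𝓞 K)) (ψ : Ideal (𝓞 K) →*₀ ℂ) : ℝ :=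
  ∏ 𝔭 ∈ PB 𝔮 ψ, (Ideal.absNorm 𝔭 : ℝ)

lemma one_le_NB {𝔮 : Ideal (𝓞 K)} (h : 𝔮 ≠ ⊥) (ψ : Ideal (𝓞 K) →*₀ ℂ) : 1 ≤ NB 𝔮 ψ := by
  unfold NB
  have h1 : ∏ 𝔭 ∈ PB 𝔮 ψ, (1 : ℝ) ≤ ∏ 𝔭 ∈ PB 𝔮 ψ, (Ideal.absNorm 𝔭 : ℝ) := by
    refine Finset.prod_le_prod (fun _ _ => zero_le_one) fun 𝔭 h𝔭 => ?_
    have := two_le_norm ((mem_PB h).mp h𝔭).1
    exact_mod_cast (by omega : 1 ≤ Ideal.absNorm 𝔭)
  rwa [Finset.prod_const_one] at h1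

/-- the conductor times the product of the other prime divisors divides the modulus -/
lemma NB_le {𝔮 𝔣 : Ideal (𝓞 K)} (h : 𝔮 ≠ ⊥) (hd : 𝔣 ∣ 𝔮) {ψ : Ideal (𝓞 K) →*₀ ℂ}
    (hsupp : ∀ 𝔞 : Ideal (𝓞 K), 𝔞 ≠ ⊥ → (ψ 𝔞 ≠ 0 ↔ IsCoprime 𝔞 𝔣)) :
    (Ideal.absNorm 𝔣 : ℝ) * NB 𝔮 ψ ≤ (Ideal.absNorm 𝔮 : ℝ) := by
  classical
  have h1 : ∏ 𝔭 ∈ PB 𝔮 ψ, 𝔭 ∣ 𝔮 := by
    refine Finset.prod_primes_dvd 𝔮 (fun 𝔭 h𝔭 => ((mem_PB h).mp h𝔭).1)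
      fun 𝔭 h𝔭 => ((mem_PB h).mp h𝔭).2.1
  have h2 : IsCoprime (∏ 𝔭 ∈ PB 𝔮 ψ, 𝔭) 𝔣 := by
    refine IsCoprime.prod_left fun 𝔭 h𝔭 => ?_
    obtain ⟨a, b, c⟩ := (mem_PB h).mp h𝔭
    exact (hsupp 𝔭 a.ne_zero).mp c
  have h3 : (∏ 𝔭 ∈ PB 𝔮 ψ, 𝔭) * 𝔣 ∣ 𝔮 := h2.mul_dvd h1 hd
  have h4 : Ideal.absNorm ((∏ 𝔭 ∈ PB 𝔮 ψ, 𝔭) * 𝔣) ≤ Ideal.absNorm 𝔮 := by
    refine Nat.le_of_dvd (absNorm_pos' h) (map_dvd Ideal.absNorm h3)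
  rw [map_mul, map_prod] at h4
  have h5 : ((((∏ 𝔭 ∈ PB 𝔮 ψ, Ideal.absNorm 𝔭) * Ideal.absNorm 𝔣 : ℕ)) : ℝ) ≤
      (Ideal.absNorm 𝔮 : ℝ) := by exact_mod_cast h4
  push_cast at h5
  unfold NB
  rw [mul_comm]
  exact h5

lemma EB_le {𝔮 : Ideal (𝓞 K)} (h : 𝔮 ≠ ⊥) {ψ : Ideal (𝓞 K) →*₀ ℂ} (hψ : ∀ 𝔞, ‖ψ 𝔞‖ ≤ 1)
    {s : ℂ} (hs : 0 ≤ s.re) : ‖EB 𝔮 ψ s‖ ≤ NB 𝔮 ψ := by
  unfold EB NB
  rw [norm_prod]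
  refine Finset.prod_le_prod (fun _ _ => norm_nonneg _) fun 𝔭 h𝔭 => ?_
  have h1 := norm_zz_le hψ ((mem_PB h).mp h𝔭).1 hs
  have h2 : (2 : ℝ) ≤ Ideal.absNorm 𝔭 := by exact_mod_cast two_le_norm ((mem_PB h).mp h𝔭).1
  have h3 := norm_sub_le (1 : ℂ) (zz ψ s 𝔭)
  rw [norm_one] at h3
  linarith

/-- the elementary inequality behind the functional equation of an imprimitive character -/
lemma ratio_le {w : ℂ} (hw : ‖w‖ ≤ 1) {q : ℝ} (hq : 1 ≤ q) :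
    ‖1 - w * q‖ ≤ q * ‖1 - w * ((q⁻¹ : ℝ) : ℂ)‖ := by
  have hq0 : 0 < q := by linarith
  have h1 : q * ‖1 - w * ((q⁻¹ : ℝ) : ℂ)‖ = ‖(q : ℂ) - w‖ := by
    have h2 : (q : ℂ) - w = (q : ℂ) * (1 - w * ((q⁻¹ : ℝ) : ℂ)) := by
      have : (q : ℂ) ≠ 0 := by exact_mod_cast hq0.ne'
      push_cast
      field_simp
    rw [h2, norm_mul, Complex.norm_real, Real.norm_of_nonneg hq0.le]
  rw [h1]
  refine abs_le_of_sq_le_sq' ?_ (norm_nonneg _) |>.2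
  have e1 : ∀ z : ℂ, ‖z‖ ^ 2 = z.re ^ 2 + z.im ^ 2 := fun z => by
    rw [← Complex.normSq_eq_norm_sq, Complex.normSq_apply]
    ring
  have hw2 : w.re ^ 2 + w.im ^ 2 ≤ 1 := by
    rw [← e1]
    exact pow_le_one₀ (norm_nonneg _) hw
  rw [e1, e1]
  have r1 : (1 - w * (q : ℂ)).re = 1 - w.re * q := by simp
  have i1 : (1 - w * (q : ℂ)).im = -(w.im * q) := by simp
  have r2 : ((q : ℂ) - w).re = q - w.re := by simp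
  have i2 : ((q : ℂ) - w).im = -w.im := by simp
  rw [r1, i1, r2, i2]
  have h3 : 0 ≤ (q ^ 2 - 1) * (1 - (w.re ^ 2 + w.im ^ 2)) :=
    mul_nonneg (by nlinarith) (by linarith)
  nlinarith

lemma EB_ratio {𝔮 : Ideal (𝓞 K)} (h : 𝔮 ≠ ⊥) {ψ : Ideal (𝓞 K) →*₀ ℂ} (hψ : ∀ 𝔞, ‖ψ 𝔞‖ ≤ 1)
    {δ : ℝ} (hδ : 0 < δ) (τ : ℝ) :
    ‖EB 𝔮 ψ (pt (1 / 2 - δ) τ)‖ ≤ NB 𝔮 ψ ^ δ * ‖EB 𝔮 ψ (pt (1 / 2 + δ) τ)‖ := by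
  unfold EB NB
  rw [norm_prod, norm_prod, ← Real.finsetProd_rpow _ _ (fun 𝔭 _ => Nat.cast_nonneg _),
    ← Finset.prod_mul_distrib]
  refine Finset.prod_le_prod (fun _ _ => norm_nonneg _) fun 𝔭 h𝔭 => ?_
  have hp := ((mem_PB h).mp h𝔭).1
  have hN2 := two_le_norm hp
  have hN : (1 : ℝ) ≤ Ideal.absNorm 𝔭 := by exact_mod_cast (by omega : 1 ≤ Ideal.absNorm 𝔭)
  have hN0 : (0 : ℝ) < Ideal.absNorm 𝔭 := by linarith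
  have hNc : ((Ideal.absNorm 𝔭 : ℕ) : ℂ) ≠ 0 := by exact_mod_cast hN0.ne'
  have hcast : (((Ideal.absNorm 𝔭 : ℝ)) : ℂ) = ((Ideal.absNorm 𝔭 : ℕ) : ℂ) := by push_cast; rfl
  have e1 : zz ψ (pt (1 / 2 - δ) τ) 𝔭 = zz ψ (pt (1 / 2) τ) 𝔭 *
      (((Ideal.absNorm 𝔭 : ℝ) ^ δ : ℝ) : ℂ) := by
    unfold zz
    rw [mul_assoc, Complex.ofReal_cpow hN0.le, hcast, ← Complex.cpow_add _ _ hNc]
    congr 2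
    unfold pt
    push_cast
    ring
  have e2 : zz ψ (pt (1 / 2 + δ) τ) 𝔭 = zz ψ (pt (1 / 2) τ) 𝔭 *
      ((((Ideal.absNorm 𝔭 : ℝ) ^ δ)⁻¹ : ℝ) : ℂ) := by
    unfold zz
    rw [mul_assoc, ← Real.rpow_neg hN0.le, Complex.ofReal_cpow hN0.le, hcast,
      ← Complex.cpow_add _ _ hNc]
    congr 2
    unfold pt
    push_cast
    ring
  rw [e1, e2]
  exact ratio_le (norm_zz_le hψ hp (by rw [pt_re]; norm_num)) (Real.one_le_rpow hN hδ.le)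

open Classical in
/-- the L-function of the induced character -/
lemma LI_ind {𝔮 : Ideal (𝓞 K)} (hbot : 𝔮 ≠ ⊥) {ψ ψ' : Ideal (𝓞 K) →*₀ ℂ}
    (hψ : ∀ 𝔞, ‖ψ 𝔞‖ ≤ 1)
    (h1 : ∀ 𝔞, IsCoprime 𝔞 𝔮 → ψ' 𝔞 = ψ 𝔞) (h2 : ∀ 𝔞, ¬ IsCoprime 𝔞 𝔮 → ψ' 𝔞 = 0)
    {s : ℂ} (hs : 1 < s.re) : LI ψ' s = LI ψ s * EB 𝔮 ψ s := by
  have hψ' : ∀ 𝔞, ‖ψ' 𝔞‖ ≤ 1 := by
    intro 𝔞
    by_cases h : IsCoprime 𝔞 𝔮
    · rw [h1 𝔞 h]; exact hψ 𝔞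
    · rw [h2 𝔞 h, norm_zero]; exact zero_le_one
  have a1 := hasProd_pr hψ' hs
  have a2 := hasProd_pr hψ hs
  let B : Finset {𝔭 : Ideal (𝓞 K) // Prime 𝔭} := (PB 𝔮 ψ).subtype (fun 𝔭 => Prime 𝔭)
  have hB : ∀ 𝔭 : {𝔭 : Ideal (𝓞 K) // Prime 𝔭}, 𝔭 ∈ B ↔ (𝔭.1 ∣ 𝔮 ∧ ψ 𝔭.1 ≠ 0) := by
    intro 𝔭
    rw [Finset.mem_subtype, mem_PB hbot]
    exact ⟨fun h => h.2, fun h => ⟨𝔭.2, h⟩⟩
  have a3 : HasProd (fun 𝔭 : {𝔭 : Ideal (𝓞 K) // Prime 𝔭} =>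
      if 𝔭 ∈ B then (1 - zz ψ s 𝔭) else 1) (∏ 𝔭 ∈ B, (if 𝔭 ∈ B then (1 - zz ψ s 𝔭) else 1)) :=
    hasProd_prod_of_ne_finset_one fun 𝔭 h𝔭 => if_neg h𝔭
  have e3 : ∏ 𝔭 ∈ B, (if 𝔭 ∈ B then (1 - zz ψ s 𝔭) else 1) = EB 𝔮 ψ s := by
    unfold EB
    rw [Finset.prod_congr rfl (fun 𝔭 h𝔭 => if_pos h𝔭)]
    rw [← Finset.prod_subtype_of_mem (fun 𝔭 => 1 - zz ψ s 𝔭)
      (fun 𝔭 h𝔭 => ((mem_PB hbot).mp h𝔭).1)]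
  rw [e3] at a3
  refine a1.unique ((a2.mul a3).congr_fun fun 𝔭 => ?_)
  have hne : 1 - zz ψ s 𝔭 ≠ 0 := by
    intro h5
    have h6 := norm_zz_lt hψ hs 𝔭.2
    rw [← sub_eq_zero.mp h5, norm_one] at h6
    exact lt_irrefl _ h6
  have hdv : IsCoprime 𝔭.1 𝔮 ↔ ¬ 𝔭.1 ∣ 𝔮 := by
    constructor
    · intro h h'
      exact 𝔭.2.not_isUnit (h.isUnit_of_dvd' (dvd_refl _) h')
    · intro h
      have hm := (Ideal.isPrime_of_prime 𝔭.2).isMaximal 𝔭.2.ne_zero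
      rw [Ideal.isCoprime_iff_sup_eq]
      by_contra h'
      apply h
      rw [Ideal.dvd_iff_le, hm.eq_of_le h' le_sup_left]
      exact le_sup_right
  by_cases hd : 𝔭.1 ∣ 𝔮
  · have h3 : zz ψ' s 𝔭 = 0 := by
      unfold zz
      rw [h2 _ (fun h => (hdv.mp h) hd), zero_mul]
    rw [h3, sub_zero, inv_one]
    by_cases h4 : ψ 𝔭.1 = 0
    · have h5 : zz ψ s 𝔭 = 0 := by
        unfold zz
        rw [h4, zero_mul]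
      rw [h5, sub_zero, inv_one, ite_self, mul_one]
    · rw [if_pos ((hB 𝔭).mpr ⟨hd, h4⟩), inv_mul_cancel₀ hne]
  · have h3 : zz ψ' s 𝔭 = zz ψ s 𝔭 := by
      unfold zz
      rw [h1 _ (hdv.mpr hd)]
    rw [h3, if_neg (fun h => hd ((hB 𝔭).mp h).1), mul_one]

lemma ind_pos {𝔮 : Ideal (𝓞 K)} {n : (K →+* ℂ) → ℕ} (htop : 𝔮 ≠ ⊤) {ψ : Ideal (𝓞 K) →*₀ ℂ}
    (h : ψ ∈ FamN n 𝔮) (𝔞 : Ideal (𝓞 K)) (h𝔞 : IsCoprime 𝔞 𝔮) : ofM' htop (tM 𝔮 ψ) 𝔞 = ψ 𝔞 := by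
  rw [ofM'_pos htop _ h𝔞, tM_coe htop h]

lemma ind_zero {𝔮 : Ideal (𝓞 K)} (htop : 𝔮 ≠ ⊤) (ψ : Ideal (𝓞 K) →*₀ ℂ)
    (𝔞 : Ideal (𝓞 K)) (h𝔞 : ¬ IsCoprime 𝔞 𝔮) : ofM' htop (tM 𝔮 ψ) 𝔞 = 0 := by
  by_contra h
  exact h𝔞 ((ofM'_supp htop _ 𝔞).mp h)

/-- a larger height -/
lemma GLf.height {A R : ℝ} {n : ℕ} {χ : Ideal (𝓞 K) →*₀ ℂ} {F : ℂ → ℂ} (h : GLf A 1 R n χ F)
    (hA : 1 ≤ A) {T : ℝ} (hT : 1 ≤ T) : GLf A T (R + n * Real.log T) n χ F := by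
  have hT0 : 0 < T := by linarith
  have hkey : ∀ y : ℝ, 0 ≤ y → 1 + y / 1 ≤ T * (1 + y / T) := by
    intro y hy
    have : T * (1 + y / T) = T + y := by field_simp
    rw [this]
    linarith
  have hexp : ∀ x : ℝ, Real.exp (n * Real.log T * x) = T ^ ((n : ℝ) * x) := by
    intro x
    rw [Real.rpow_def_of_pos hT0]
    congr 1
    ring
  refine ⟨h.diff, h.ser, h.le1, ?_, h.big, h.low, ?_⟩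
  · intro s hs
    refine (h.gr s hs).trans ?_
    have e1 : Real.exp (R + n * Real.log T) = Real.exp R * T ^ n := by
      rw [Real.exp_add, Real.exp_nat_mul, Real.exp_log hT0]
    rw [e1]
    calc A * Real.exp R * (1 + |s.im| / 1) ^ n ≤ A * Real.exp R * (T * (1 + |s.im| / T)) ^ n := by
          have := hkey _ (abs_nonneg s.im)
          gcongr
      _ = _ := by rw [mul_pow]; ring
  · intro δ h1 h2 τ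
    refine (h.fe δ h1 h2 τ).trans (mul_le_mul_of_nonneg_right ?_ (norm_nonneg _))
    have e1 : Real.exp ((R + n * Real.log T) * δ) = Real.exp (R * δ) * T ^ ((n : ℝ) * δ) := by
      rw [add_mul, Real.exp_add, hexp]
    rw [e1]
    calc A * Real.exp (R * δ) * (1 + |τ| / 1) ^ ((n : ℝ) * δ) ≤
          A * Real.exp (R * δ) * (T * (1 + |τ| / T)) ^ ((n : ℝ) * δ) := by
          refine mul_le_mul_of_nonneg_left ?_ (by positivity)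
          exact Real.rpow_le_rpow (by positivity) (hkey _ (abs_nonneg τ)) (by positivity)
      _ = _ := by
          rw [Real.mul_rpow (by linarith) (by positivity)]
          ring

end

/-- **the analytic input for the characters modulo `𝔮`** -/
theorem gl_ind (K : Type) [Field K] [NumberField K] {n : (K →+* ℂ) → ℕ} (hn : CTyp n) :
    ∃ A : ℝ, 1 ≤ A ∧ ∀ (𝔮 : Ideal (𝓞 K)) (_ : 𝔮 ≠ ⊥) (htop : 𝔮 ≠ ⊤) (ψ : Ideal (𝓞 K) →*₀ ℂ),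
      ψ ∈ FamN n 𝔮 → ∃ L : ℂ → ℂ, Differentiable ℂ L ∧ (∀ s : ℂ, 1 < s.re → L s = LI ψ s) ∧
      GLf A 1 (Real.log (Ideal.absNorm 𝔮)) (Module.finrank ℚ K) (ofM' htop (tM 𝔮 ψ))
        (fun s => L s * EB 𝔮 ψ s) := by
  obtain ⟨A₁, hA₁, hP⟩ := primF K hn
  obtain ⟨A₀, hA₀, hD⟩ := Pool.Agent.Y772.DK.t_dirK K
  refine ⟨A₁ * A₀, one_le_mul_of_one_le_of_one_le hA₁ hA₀, fun 𝔮 hbot htop ψ hψ => ?_⟩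
  obtain ⟨𝔣, hd, hft, hH⟩ := id hψ
  obtain ⟨hψ1, L, hL, hser, hgr, hfe⟩ := hP 𝔣 ψ hft hH
  have hA01 : A₀ ≤ A₁ * A₀ := le_mul_of_one_le_left (by linarith) hA₁
  have hA11 : A₁ ≤ A₁ * A₀ := le_mul_of_one_le_right (by linarith) hA₀
  have hA10 : 0 < A₁ := by linarith
  obtain ⟨ψ', hψ'⟩ : ∃ ψ' : Ideal (𝓞 K) →*₀ ℂ, ψ' = ofM' htop (tM 𝔮 ψ) := ⟨_, rfl⟩
  have h1 : ∀ 𝔞, IsCoprime 𝔞 𝔮 → ψ' 𝔞 = ψ 𝔞 := fun 𝔞 h𝔞 => by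
    rw [hψ']; exact ind_pos htop hψ 𝔞 h𝔞
  have h2 : ∀ 𝔞, ¬ IsCoprime 𝔞 𝔮 → ψ' 𝔞 = 0 := fun 𝔞 h𝔞 => by
    rw [hψ']; exact ind_zero htop ψ 𝔞 h𝔞
  have h3 : ∀ 𝔞, ‖ψ' 𝔞‖ ≤ 1 := by
    intro 𝔞
    by_cases h : IsCoprime 𝔞 𝔮
    · rw [h1 𝔞 h]; exact hψ1 𝔞
    · rw [h2 𝔞 h, norm_zero]; exact zero_le_one
  rw [← hψ']
  have hs : ∀ s : ℂ, 1 < s.re → L s * EB 𝔮 ψ s = LI ψ' s := fun s hs => by
    rw [LI_ind hbot hψ1 h1 h2 hs, hser s hs]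
  obtain ⟨-, -, -, -, d5, d6, -⟩ := hD ψ' h3
  have hN1 : (1 : ℝ) ≤ (Ideal.absNorm 𝔮 : ℝ) := by exact_mod_cast absNorm_pos' hbot
  have hNf : (1 : ℝ) ≤ (Ideal.absNorm 𝔣 : ℝ) := by exact_mod_cast absNorm_pos' hH.ne_bot
  have hNB := NB_le hbot hd hH.supp
  have hNB1 := one_le_NB hbot ψ
  have hexp : Real.exp (Real.log (Ideal.absNorm 𝔮)) = (Ideal.absNorm 𝔮 : ℝ) :=
    Real.exp_log (by linarith)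
  refine ⟨L, hL, hser, hL.mul (EB_diff hbot ψ), hs, h3, ?_, ?_, ?_, ?_⟩
  · intro s hs'
    rw [norm_mul, hexp, div_one]
    have g1 := hgr s (by linarith)
    have g2 := EB_le hbot hψ1 (s := s) (by linarith)
    have g3 : (Ideal.absNorm 𝔣 : ℝ) ^ (3 / 4 : ℝ) ≤ (Ideal.absNorm 𝔣 : ℝ) := by
      calc (Ideal.absNorm 𝔣 : ℝ) ^ (3 / 4 : ℝ) ≤ (Ideal.absNorm 𝔣 : ℝ) ^ (1 : ℝ) :=
            Real.rpow_le_rpow_of_exponent_le hNf (by norm_num)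
        _ = _ := Real.rpow_one _
    calc ‖L s‖ * ‖EB 𝔮 ψ s‖ ≤ (A₁ * (Ideal.absNorm 𝔣 : ℝ) ^ (3 / 4 : ℝ) *
          (1 + |s.im|) ^ Module.finrank ℚ K) * NB 𝔮 ψ := by gcongr
      _ ≤ (A₁ * (Ideal.absNorm 𝔣 : ℝ) * (1 + |s.im|) ^ Module.finrank ℚ K) * NB 𝔮 ψ := by gcongr
      _ = A₁ * ((Ideal.absNorm 𝔣 : ℝ) * NB 𝔮 ψ) * (1 + |s.im|) ^ Module.finrank ℚ K := by ring
      _ ≤ A₁ * A₀ * (Ideal.absNorm 𝔮 : ℝ) * (1 + |s.im|) ^ Module.finrank ℚ K := by gcongr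
  · intro s hs'
    rw [hs s (by linarith)]
    exact (d5 s hs').trans hA01
  · intro s hs'
    rw [hs s (by linarith)]
    exact (inv_anti₀ (by linarith) hA01).trans (d6 s hs')
  · intro δ hδ0 hδ1 τ
    rw [norm_mul, norm_mul, div_one]
    have g1 := hfe δ hδ0 hδ1 τ
    have g2 := EB_ratio hbot hψ1 hδ0 τ
    have g3 : (Ideal.absNorm 𝔣 : ℝ) ^ δ * NB 𝔮 ψ ^ δ ≤
        Real.exp (Real.log (Ideal.absNorm 𝔮) * δ) := by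
      rw [← Real.mul_rpow (by linarith) (by linarith), ← Real.rpow_def_of_pos (by linarith)]
      exact Real.rpow_le_rpow (by positivity) hNB hδ0.le
    calc ‖L (pt (1 / 2 - δ) τ)‖ * ‖EB 𝔮 ψ (pt (1 / 2 - δ) τ)‖ ≤
        (A₁ * (Ideal.absNorm 𝔣 : ℝ) ^ δ * (1 + |τ|) ^ ((Module.finrank ℚ K : ℝ) * δ) *
          ‖L (pt (1 / 2 + δ) τ)‖) * (NB 𝔮 ψ ^ δ * ‖EB 𝔮 ψ (pt (1 / 2 + δ) τ)‖) :=
          mul_le_mul g1 g2 (norm_nonneg _) ((norm_nonneg _).trans g1)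
      _ = A₁ * ((Ideal.absNorm 𝔣 : ℝ) ^ δ * NB 𝔮 ψ ^ δ) *
          (1 + |τ|) ^ ((Module.finrank ℚ K : ℝ) * δ) *
          (‖L (pt (1 / 2 + δ) τ)‖ * ‖EB 𝔮 ψ (pt (1 / 2 + δ) τ)‖) := by ring
      _ ≤ _ := by gcongr

end Pool.Agent.N784.CZ
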