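import Pool.Agent.N784.CZ.Feb
import Pool.Agent.N784.HC.FamN
import Pool.Agent.N784.HC.Good2
import Pool.Agent.Y773.IQ.Good

/-!
# The L-functions of the primitive Hecke characters of a given type: growth and functional equation
(helper784)
-/

set_option autoImplicit false
set_option linter.unusedSectionVars false

open NumberField Complex Filter Topology MeasureTheory

namespace Pool.Agent.N784.CZ

open Pool.Agent.Y773 (TPos LI VM cc FEd GG)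
open Pool.Agent.Y773.G (IsPrimChar cj)
open Pool.Agent.N784.HC (FEm GGm CTyp IsHecke ph_zero_type fty ex_nonneg inf_fty)
open Pool.Agent.R399.TW (pt pt_re pt_im)

lemma toFEm {ι : Type} [Fintype ι] {R : ℝ} {e : ι → ℕ} {F : ℂ → ℂ} (h : FEd R e F) :
    FEm R (fun i => (e i : ℝ)) F := by
  have hG : ∀ s : ℂ, GGm R (fun i => (e i : ℝ)) s = GG R e s := by
    intro s
    unfold GGm GG
    simp
  refine ⟨h.diff, ?_, ?_⟩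
  · obtain ⟨w, hw, hfe⟩ := h.fe
    refine ⟨w, hw, fun s hs => ?_⟩
    rw [hG, hG]
    exact hfe s hs
  · intro a b
    obtain ⟨C, hC⟩ := h.vert a b
    refine ⟨C, fun s h1 h2 h3 => ?_⟩
    rw [hG]
    exact hC s h1 h2 h3

section

variable {K : Type} [Field K] [NumberField K]

lemma toPrimChar {𝔣 : Ideal (𝓞 K)} {ψ : Ideal (𝓞 K) →*₀ ℂ} (h : IsHecke K 𝔣 0 ψ) :
    IsPrimChar K 𝔣 ψ where
  ne_bot := h.ne_bot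
  supp := h.supp
  ray x h1 h2 h3 := by rw [h.ray x h1 h2 h3, ph_zero_type]
  prim 𝔤 h1 h2 := by
    obtain ⟨x, a, b, c, d⟩ := h.prim 𝔤 h1 h2
    exact ⟨x, a, b, c, by rw [ph_zero_type] at d; exact d⟩

/-- the functional equation, all types -/
lemma feM {n : (K →+* ℂ) → ℕ} (hn : CTyp n) {𝔣 : Ideal (𝓞 K)} {ψ : Ideal (𝓞 K) →*₀ ℂ}
    (htop : 𝔣 ≠ ⊤) (h : IsHecke K 𝔣 n ψ) :
    (∀ 𝔞, ‖ψ 𝔞‖ ≤ 1) ∧ ∃ (μ : (K →+* ℂ) → ℝ) (F : ℂ → ℂ),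
      (∀ i, 0 ≤ μ i ∧ μ i ≤ (∑ φ, (n φ : ℝ)) + 3) ∧
      FEm (((Ideal.absNorm 𝔣 * Ideal.absNorm (differentIdeal ℤ (𝓞 K)) : ℕ) : ℝ)) μ F ∧
      (∀ s : ℂ, 1 < s.re → F s = LI ψ s) := by
  by_cases hn0 : n = 0
  · subst hn0
    have hSig := Pool.Agent.Y772.G.t_sig
    have hp := toPrimChar h
    obtain ⟨e, he⟩ := hp.isModChar hSig htop
    obtain ⟨F, hFE, hFL⟩ := Pool.Agent.Y773.G.fe_prim hp he
    refine ⟨hp.norm_le_one hSig, fun i => (Pool.Agent.Y773.G.ex e i : ℝ), F, fun i => ?_,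
      toFEm hFE, hFL⟩
    have h1 : (Pool.Agent.Y773.G.ex e i : ℝ) ≤ 1 := by exact_mod_cast hFE.he i
    have h2 : (0 : ℝ) ≤ ∑ φ : K →+* ℂ, (((0 : (K →+* ℂ) → ℕ) φ : ℕ) : ℝ) :=
      Finset.sum_nonneg fun _ _ => Nat.cast_nonneg _
    exact ⟨Nat.cast_nonneg _, by linarith⟩
  · obtain ⟨e, he, hc, hmod⟩ := h.modK htop
    have hprimK := h.primK htop (e := e) hc
    have htyp := hn.fty he hc
    have hinf := inf_fty hn hn0 e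
    obtain ⟨F, hFE, hFL⟩ := Pool.Agent.N784.HC.fe_prim htyp hinf.ne hprimK hmod
    exact ⟨hmod.norm_le_one, _, F, fun w => ⟨ex_nonneg _ _, Pool.Agent.N784.HC.ex_le K he w⟩, hFE,
      hFL⟩

/-- **growth and functional equation of the L-functions of the primitive characters** -/
theorem primF (K : Type) [Field K] [NumberField K] {n : (K →+* ℂ) → ℕ} (hn : CTyp n) :
    ∃ A : ℝ, 1 ≤ A ∧ ∀ (𝔣 : Ideal (𝓞 K)) (ψ : Ideal (𝓞 K) →*₀ ℂ), 𝔣 ≠ ⊤ → IsHecke K 𝔣 n ψ →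
    (∀ 𝔞, ‖ψ 𝔞‖ ≤ 1) ∧ ∃ F : ℂ → ℂ, Differentiable ℂ F ∧ (∀ s : ℂ, 1 < s.re → F s = LI ψ s) ∧
    (∀ s : ℂ, 0 ≤ s.re → ‖F s‖ ≤ A * (Ideal.absNorm 𝔣 : ℝ) ^ (3 / 4 : ℝ) *
      (1 + |s.im|) ^ Module.finrank ℚ K) ∧
    ∀ δ : ℝ, 0 < δ → δ ≤ 1 / 4 → ∀ τ : ℝ, ‖F (pt (1 / 2 - δ) τ)‖ ≤
      A * (Ideal.absNorm 𝔣 : ℝ) ^ δ * (1 + |τ|) ^ ((Module.finrank ℚ K : ℝ) * δ) *
        ‖F (pt (1 / 2 + δ) τ)‖ := by
  obtain ⟨A₀, hA₀, hD⟩ := Pool.Agent.Y772.DK.t_dirK K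
  obtain ⟨k, hk⟩ : ∃ k : ℕ, (k : ℝ) = (∑ φ, (n φ : ℝ)) + 3 :=
    ⟨(∑ φ, n φ) + 3, by push_cast; rfl⟩
  obtain ⟨c, hc, hfe⟩ := fe_boundM k
  obtain ⟨Nd, hNd⟩ : ∃ Nd : ℝ, Nd = (Ideal.absNorm (differentIdeal ℤ (𝓞 K)) : ℝ) := ⟨_, rfl⟩
  have hdN : 1 ≤ Nd := by
    rw [hNd]
    have h1 : Ideal.absNorm (differentIdeal ℤ (𝓞 K)) ≠ 0 := by
      rw [Ne, Ideal.absNorm_eq_zero_iff]
      exact differentIdeal_ne_bot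
    exact_mod_cast Nat.one_le_iff_ne_zero.mpr h1
  obtain ⟨d, hd⟩ : ∃ d : ℕ, d = Module.finrank ℚ K := ⟨_, rfl⟩
  have hcard : Fintype.card (K →+* ℂ) = d := by rw [Pool.Agent.Y773.G.card_emb, hd]
  rw [← hd]
  have h6 : (1 : ℝ) ≤ 6 ^ d := one_le_pow₀ (by norm_num)
  have hk1 : (1 : ℝ) ≤ (1 + (k : ℝ)) ^ d := one_le_pow₀ (by linarith [Nat.cast_nonneg (α := ℝ) k])
  have hcd : (1 : ℝ) ≤ c ^ d := one_le_pow₀ hc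
  have hA0 : 0 < A₀ := by linarith
  obtain ⟨A, hA⟩ : ∃ A : ℝ, A = A₀ * Nd * ((1 + (k : ℝ)) ^ d * 6 ^ d) * c ^ d := ⟨_, rfl⟩
  have hX : 1 ≤ (1 + (k : ℝ)) ^ d * 6 ^ d := one_le_mul_of_one_le_of_one_le hk1 h6
  have hA1 : 1 ≤ A := by
    rw [hA]
    exact one_le_mul_of_one_le_of_one_le (one_le_mul_of_one_le_of_one_le
      (one_le_mul_of_one_le_of_one_le hA₀ hdN) hX) hcd
  refine ⟨A, hA1, fun 𝔣 ψ htop h => ?_⟩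
  obtain ⟨hψ1, μ, F, hμ, hFE, hFL⟩ := feM hn htop h
  obtain ⟨d1, d2, d3, d4, d5, d6, -⟩ := hD ψ hψ1
  have hN1 : (1 : ℝ) ≤ (Ideal.absNorm 𝔣 : ℝ) := by
    have : Ideal.absNorm 𝔣 ≠ 0 := by
      rw [Ne, Ideal.absNorm_eq_zero_iff]; exact h.ne_bot
    exact_mod_cast Nat.one_le_iff_ne_zero.mpr this
  have hμ' : ∀ i, 0 ≤ μ i ∧ μ i ≤ (k : ℝ) := by rw [hk]; exact hμ
  have hRe : ((Ideal.absNorm 𝔣 * Ideal.absNorm (differentIdeal ℤ (𝓞 K)) : ℕ) : ℝ) =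
      Nd * (Ideal.absNorm 𝔣 : ℝ) := by
    rw [hNd]; push_cast; ring
  rw [hRe] at hFE
  have hB : ∀ s : ℂ, 3 / 2 ≤ s.re → ‖F s‖ ≤ A₀ := fun s h1 => by
    rw [hFL _ (by linarith)]
    exact d5 _ h1
  refine ⟨hψ1, F, hFE.diff, hFL, fun s hs => ?_, fun δ hδ0 hδ1 τ => ?_⟩
  · have h1 := growM hdN hN1 hA₀ (Nat.cast_nonneg k) hμ' hFE hB s hs
    rw [hcard] at h1
    refine h1.trans ?_
    rw [hA]
    calc A₀ * Nd * (1 + (k : ℝ)) ^ d * 6 ^ d *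
          ((Ideal.absNorm 𝔣 : ℝ) ^ (3 / 4 : ℝ) * (1 + |s.im|) ^ d) =
        A₀ * Nd * ((1 + (k : ℝ)) ^ d * 6 ^ d) * 1 * (Ideal.absNorm 𝔣 : ℝ) ^ (3 / 4 : ℝ) *
          (1 + |s.im|) ^ d := by ring
      _ ≤ _ := by gcongr
  · have h1 := hfe (by positivity) hμ' hFE hδ0 hδ1 τ
    rw [hcard] at h1
    refine h1.trans (mul_le_mul_of_nonneg_right ?_ (norm_nonneg _))
    have h3 : (Nd * (Ideal.absNorm 𝔣 : ℝ)) ^ δ ≤ Nd * (Ideal.absNorm 𝔣 : ℝ) ^ δ := by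
      rw [Real.mul_rpow (by linarith) (by linarith)]
      refine mul_le_mul_of_nonneg_right ?_ (by positivity)
      calc Nd ^ δ ≤ Nd ^ (1 : ℝ) := Real.rpow_le_rpow_of_exponent_le hdN (by linarith)
        _ = Nd := Real.rpow_one _
    rw [hA]
    calc c ^ d * (Nd * (Ideal.absNorm 𝔣 : ℝ)) ^ δ * (1 + |τ|) ^ ((d : ℝ) * δ) ≤
        c ^ d * (Nd * (Ideal.absNorm 𝔣 : ℝ) ^ δ) * (1 + |τ|) ^ ((d : ℝ) * δ) := by gcongr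
      _ = 1 * Nd * 1 * c ^ d * (Ideal.absNorm 𝔣 : ℝ) ^ δ * (1 + |τ|) ^ ((d : ℝ) * δ) := by ring
      _ ≤ _ := by gcongr

end

end Pool.Agent.N784.CZ
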