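import Pool.Agent.N784.CZ.Ell
import Pool.Agent.N833.CZ.Glue
import Pool.Agent.N134.CZ.Deg
import Pool.Agent.H370R2.DirGood

/-!
# The order of vanishing of `L(E/K, s)` at `s = 1` over ray class fields (helper784)
-/

set_option autoImplicit false
set_option linter.unusedSectionVars false

open NumberField Complex Filter Topology IsDedekindDomain

namespace Pool.Agent.N784.CZ

open Pool.Agent.Y773 (TPos LI)
open Pool.Agent.Y772.DK (LI_eq_exp)
open Pool.Agent.Y773.G (cj)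
open Pool.Agent.Y767 (Mq Cls cls)
open Pool.Agent.Y773.IQ (ofM')
open Pool.Agent.N784.HC
open Pool.Agent.N784.AD (pi1 Un one_le_Un cls_card_le)
open Pool.Agent.W164.RC (eulerFactor)
open Pool.Agent.N833.CZ (norm_ofM'_le)
open H370.DL (refl analyticAt_refl order_refl)

section

variable {M : Type} [Field M] [NumberField M] (ι₀ : GaussianInt →+* 𝓞 M)

lemma i_sq : (((ι₀ ⟨0, 1⟩ : 𝓞 M) : M)) ^ 2 = -1 := by
  have h : (⟨0, 1⟩ : GaussianInt) ^ 2 = -1 := by decide
  have h2 : (ι₀ ⟨0, 1⟩) ^ 2 = -1 := by rw [← map_pow, h, map_neg, map_one]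
  have h3 := congrArg (algebraMap (𝓞 M) M) h2
  rw [map_pow, map_neg, map_one] at h3
  exact h3

lemma tyi_ctyp : CTyp (tyi ι₀) := by
  intro φ
  unfold tyi
  by_cases h : φ ((ι₀ ⟨0, 1⟩ : 𝓞 M) : M) = Complex.I
  · right
    rw [if_neg]
    have h1 : cj φ ((ι₀ ⟨0, 1⟩ : 𝓞 M) : M) =
        (starRingEnd ℂ) (φ ((ι₀ ⟨0, 1⟩ : 𝓞 M) : M)) := rfl
    rw [h1, h, Complex.conj_I]
    intro h2
    have := congrArg Complex.im h2
    norm_num at this
  · left
    rw [if_neg h]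

lemma tyi_ne : tyi ι₀ ≠ 0 := by
  intro h
  obtain ⟨φ⟩ : Nonempty (M →+* ℂ) := inferInstance
  have h1 : (φ ((ι₀ ⟨0, 1⟩ : 𝓞 M) : M)) ^ 2 = -1 := by
    rw [← map_pow, i_sq, map_neg, map_one]
  have h2 : (φ ((ι₀ ⟨0, 1⟩ : 𝓞 M) : M) - Complex.I) * (φ ((ι₀ ⟨0, 1⟩ : 𝓞 M) : M) + Complex.I) = 0 := by
    have : (φ ((ι₀ ⟨0, 1⟩ : 𝓞 M) : M) - Complex.I) * (φ ((ι₀ ⟨0, 1⟩ : 𝓞 M) : M) + Complex.I) =
      (φ ((ι₀ ⟨0, 1⟩ : 𝓞 M) : M)) ^ 2 - Complex.I ^ 2 := by ring
    rw [this, h1, Complex.I_sq, sub_self]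
  rcases mul_eq_zero.mp h2 with h3 | h3
  · have h4 := congrFun h φ
    unfold tyi at h4
    rw [if_pos (sub_eq_zero.mp h3)] at h4
    exact one_ne_zero h4
  · have h4 := congrFun h (cj φ)
    unfold tyi at h4
    have h5 : cj φ ((ι₀ ⟨0, 1⟩ : 𝓞 M) : M) =
        (starRingEnd ℂ) (φ ((ι₀ ⟨0, 1⟩ : 𝓞 M) : M)) := rfl
    rw [if_pos] at h4
    · exact one_ne_zero h4
    · rw [h5, eq_neg_of_add_eq_zero_left h3, map_neg, Complex.conj_I, neg_neg]

lemma le_ne_top {𝔮 : Ideal (𝓞 M)} (h : 𝔮 ≤ Ideal.span {ι₀ ⟨2, 2⟩}) : 𝔮 ≠ ⊤ := by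
  rintro rfl
  apply (span_two M).2
  rw [eq_top_iff]
  refine h.trans ?_
  rw [Ideal.span_singleton_le_span_singleton]
  refine ⟨ι₀ ⟨1, 1⟩, ?_⟩
  have e : (⟨2, 2⟩ : GaussianInt) = 2 * ⟨1, 1⟩ := by decide
  rw [e, map_mul, map_ofNat]

/-- the order at `s = 1` of `L(s - 1/2)` times the conjugate function -/
theorem order_pair {L : ℂ → ℂ} (hL : Differentiable ℂ L) :
    Differentiable ℂ (fun s => L (s - 1 / 2) *
      (starRingEnd ℂ) (L ((starRingEnd ℂ) s - 1 / 2))) ∧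
    analyticOrderAt (fun s => L (s - 1 / 2) *
      (starRingEnd ℂ) (L ((starRingEnd ℂ) s - 1 / 2))) 1 =
      analyticOrderAt L (1 / 2) + analyticOrderAt L (1 / 2) := by
  have e1 : (fun s => (starRingEnd ℂ) (L ((starRingEnd ℂ) s - 1 / 2))) =
      refl (fun w => L (1 / 2 - w)) := by
    funext s
    show (starRingEnd ℂ) (L ((starRingEnd ℂ) s - 1 / 2)) =
      (starRingEnd ℂ) (L (1 / 2 - (1 - (starRingEnd ℂ) s)))
    congr 2
    ring
  have d1 : Differentiable ℂ (fun s : ℂ => L (s - 1 / 2)) :=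
    hL.comp (differentiable_id.sub_const _)
  have d2 : Differentiable ℂ (fun w : ℂ => L (1 / 2 - w)) :=
    hL.comp (differentiable_id.const_sub _)
  have d3 : ∀ s, AnalyticAt ℂ (refl (fun w => L (1 / 2 - w))) s := fun s =>
    analyticAt_refl (d2.analyticAt _)
  constructor
  · have : Differentiable ℂ (fun s => (starRingEnd ℂ) (L ((starRingEnd ℂ) s - 1 / 2))) := by
      rw [e1]
      exact fun s => (d3 s).differentiableAt
    exact d1.mul this
  · have h1 : analyticOrderAt ((fun s => L (s - 1 / 2)) *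
        refl (fun w => L (1 / 2 - w))) 1 = _ := analyticOrderAt_mul (d1.analyticAt 1) (d3 1)
    have h2 : (fun s => L (s - 1 / 2) *
      (starRingEnd ℂ) (L ((starRingEnd ℂ) s - 1 / 2))) = (fun s => L (s - 1 / 2)) *
        refl (fun w => L (1 / 2 - w)) := by
      rw [← e1]
      rfl
    rw [h2, h1]
    have e2 : analyticOrderAt (fun s => L (s - 1 / 2)) 1 = analyticOrderAt L (1 / 2) := by
      have hg : AnalyticAt ℂ (fun z : ℂ => z - 1 / 2) 1 := by fun_prop
      have hd : deriv (fun z : ℂ => z - 1 / 2) 1 ≠ 0 := by simp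
      have h := analyticOrderAt_comp_of_deriv_ne_zero (f := L) hg hd
      have h2 : (fun z : ℂ => L (z - 1 / 2)) = L ∘ (fun z : ℂ => z - 1 / 2) := rfl
      rw [h2, h]
      norm_num
    have e3 : analyticOrderAt (refl (fun w => L (1 / 2 - w))) 1 = analyticOrderAt L (1 / 2) := by
      rw [order_refl (d2.analyticAt _)]
      have h0 : (1 : ℂ) - (starRingEnd ℂ) 1 = 0 := by simp
      rw [h0]
      have hg : AnalyticAt ℂ (fun z : ℂ => 1 / 2 - z) 0 := by fun_prop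
      have hd : deriv (fun z : ℂ => 1 / 2 - z) 0 ≠ 0 := by simp
      have h := analyticOrderAt_comp_of_deriv_ne_zero (f := L) hg hd
      have h2 : (fun z : ℂ => L (1 / 2 - z)) = L ∘ (fun z : ℂ => 1 / 2 - z) := rfl
      rw [h2, h]
      norm_num
    rw [e2, e3]

/-- the order of a finite product -/
lemma order_prod {ι : Type*} (S : Finset ι) (f : ι → ℂ → ℂ) (z : ℂ)
    (hf : ∀ i ∈ S, AnalyticAt ℂ (f i) z) :
    analyticOrderAt (fun s => ∏ i ∈ S, f i s) z = ∑ i ∈ S, analyticOrderAt (f i) z := by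
  classical
  induction S using Finset.induction_on with
  | empty =>
    simp only [Finset.prod_empty, Finset.sum_empty]
    exact analyticAt_const.analyticOrderAt_eq_zero.mpr one_ne_zero
  | insert a S ha ih =>
    rw [Finset.sum_insert ha, ← ih (fun i hi => hf i (Finset.mem_insert_of_mem hi))]
    have h1 : (fun s => ∏ i ∈ insert a S, f i s) = f a * (fun s => ∏ i ∈ S, f i s) := by
      funext s
      rw [Finset.prod_insert ha]
      rfl
    rw [h1, analyticOrderAt_mul (hf a (Finset.mem_insert_self a S))]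
    apply Finset.analyticAt_fun_prod
    intro i hi
    exact hf i (Finset.mem_insert_of_mem hi)

end

/-- an entire function which does not vanish somewhere has finite order at every point -/
lemma order_ne_top {L : ℂ → ℂ} (hL : Differentiable ℂ L) {w : ℂ} (hw : L w ≠ 0) (z : ℂ) :
    analyticOrderAt L z ≠ ⊤ := by
  intro h
  rw [analyticOrderAt_eq_top] at h
  have h1 : AnalyticOnNhd ℂ L Set.univ := fun s _ => hL.analyticAt s
  have h2 := h1.eqOn_zero_of_preconnected_of_eventuallyEq_zero isPreconnected_univ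
    (Set.mem_univ z) h
  exact hw (h2 (Set.mem_univ w))

/-- **the order of vanishing at `s = 1` of `L(E/K, s)`, `K` a ray class field of a number field
containing `i`, `E : y² = x³ - x`** -/
theorem ran_core (hPt : StPt) (hOrd : StOrd) (hLS : StLSP) (hG : StGlue) (hD : StDeg)
    (M : Type) [Field M] [NumberField M] (ι₀ : GaussianInt →+* 𝓞 M) : ∃ C : ℝ, 1 ≤ C ∧
    ∀ (𝔮 : Ideal (𝓞 M)), 𝔮 ≠ ⊥ → 𝔮 ≤ Ideal.span {ι₀ ⟨2, 2⟩} →
    ∀ (K : Type) [Field K] [NumberField K] (ι : 𝓞 M →+* 𝓞 K)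
      (art : Ideal (𝓞 M) → (𝓞 K ≃+* 𝓞 K)), IsRCF 𝔮 K ι art →
    ∃ H : ℂ → ℂ, Differentiable ℂ H ∧
      (∀ s : ℂ, 3 / 2 < s.re → HasProd (open Classical in fun v : HeightOneSpectrum (𝓞 K) =>
        if 𝔮.map ι ≤ v.asIdeal then 1 else eulerFactor s v) (H s)) ∧
      (∀ z : ℂ, analyticOrderAt H z ≠ ⊤) ∧
      (analyticOrderNatAt H 1 : ℝ) ≤ C * (Module.finrank ℚ K * (1 + Real.log (Un 𝔮))) := by
  classical
  obtain ⟨C, hC, H0⟩ := ell_core hPt hOrd hLS M (tyi_ctyp ι₀) (tyi_ne ι₀)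
  refine ⟨2 * C, by linarith, fun 𝔮 hbot hle K _ _ ι art hK => ?_⟩
  have htop : 𝔮 ≠ ⊤ := le_ne_top ι₀ hle
  obtain ⟨L, hL, hsum⟩ := H0 𝔮 hbot htop
  have hfin : (Dn (tyi ι₀) htop).Finite := (Dn_card_le (n := tyi ι₀) hbot htop).1
  have hpair : ∀ F ∈ Dn (tyi ι₀) htop, _ := fun F hF => order_pair (hL F hF).1
  obtain ⟨P, hP⟩ : ∃ P : (Mq 𝔮 →* ℂˣ) → ℂ → ℂ, P = fun F s => L F (s - 1 / 2) *
      (starRingEnd ℂ) (L F ((starRingEnd ℂ) s - 1 / 2)) := ⟨_, rfl⟩
  have hPd : ∀ F ∈ Dn (tyi ι₀) htop, Differentiable ℂ (P F) := fun F hF => by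
    rw [hP]; exact (hpair F hF).1
  have hPo : ∀ F ∈ Dn (tyi ι₀) htop, analyticOrderAt (P F) 1 =
      analyticOrderAt (L F) (1 / 2) + analyticOrderAt (L F) (1 / 2) := fun F hF => by
    rw [hP]; exact (hpair F hF).2
  have hLne : ∀ F ∈ Dn (tyi ι₀) htop, ∀ s : ℂ, 1 < s.re → L F s ≠ 0 := by
    intro F hF s hs
    rw [(hL F hF).2 s hs, LI_eq_exp _ (norm_ofM'_le hbot htop hF) hs]
    exact Complex.exp_ne_zero _
  obtain ⟨H, hH⟩ : ∃ H : ℂ → ℂ, H = fun s => ∏ F ∈ hfin.toFinset, P F s := ⟨_, rfl⟩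
  have hHd : Differentiable ℂ H := by
    rw [hH]
    exact Differentiable.fun_finsetProd fun F hF => hPd F (hfin.mem_toFinset.mp hF)
  have hHne : H 2 ≠ 0 := by
    rw [hH]
    simp only
    rw [Finset.prod_ne_zero_iff]
    intro F hF
    rw [Set.Finite.mem_toFinset] at hF
    rw [hP]
    simp only
    refine mul_ne_zero (hLne F hF _ (by norm_num)) ?_
    rw [map_ne_zero]
    refine hLne F hF _ ?_
    have : (starRingEnd ℂ) (2 : ℂ) = 2 := by
      rw [map_ofNat]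
    rw [this]
    norm_num
  refine ⟨H, hHd, ?_, order_ne_top hHd hHne, ?_⟩
  · intro s hs
    have h1 := hG M ι₀ 𝔮 hbot htop hle K ι art hK s hs
    have h2 : H s = ∏ᶠ F ∈ Dn (tyi ι₀) htop, (LI (ofM' htop F) (s - 1 / 2) *
        (starRingEnd ℂ) (LI (ofM' htop F) ((starRingEnd ℂ) s - 1 / 2))) := by
      rw [finprod_mem_eq_finite_toFinset_prod _ hfin, hH]
      refine Finset.prod_congr rfl fun F hF => ?_
      rw [Set.Finite.mem_toFinset] at hF
      have e1 : 1 < (s - 1 / 2).re := by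
        have : (s - 1 / 2).re = s.re - 1 / 2 := by simp
        rw [this]; linarith
      have e2 : 1 < ((starRingEnd ℂ) s - 1 / 2).re := by
        have : ((starRingEnd ℂ) s - 1 / 2).re = s.re - 1 / 2 := by simp
        rw [this]; linarith
      rw [hP]
      simp only
      rw [(hL F hF).2 _ e1, (hL F hF).2 _ e2]
    rw [h2]
    exact h1
  · have h1 : analyticOrderAt H 1 = ∑ F ∈ hfin.toFinset, analyticOrderAt (P F) 1 := by
      rw [hH]
      exact order_prod _ _ _ fun F hF => (hPd F (hfin.mem_toFinset.mp hF)).analyticAt 1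
    have h2 : (analyticOrderNatAt H 1 : ℝ) =
        2 * ∑ F ∈ hfin.toFinset, (analyticOrderNatAt (L F) (1 / 2) : ℝ) := by
      have h3 : analyticOrderAt H 1 =
          ((∑ F ∈ hfin.toFinset, 2 * analyticOrderNatAt (L F) (1 / 2) : ℕ) : ℕ∞) := by
        rw [h1]
        push_cast
        refine Finset.sum_congr rfl fun F hF => ?_
        rw [Set.Finite.mem_toFinset] at hF
        rw [hPo F hF, two_mul]
        have h4 : analyticOrderAt (L F) (1 / 2) ≠ ⊤ :=
          order_ne_top (hL F hF).1 (hLne F hF 2 (by norm_num)) _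
        rw [Nat.cast_analyticOrderNatAt h4]
      have h5 : analyticOrderNatAt H 1 = ∑ F ∈ hfin.toFinset, 2 * analyticOrderNatAt (L F) (1 / 2) := by
        unfold analyticOrderNatAt
        rw [h3]
        exact ENat.toNat_natCast _
      rw [h5]
      push_cast
      rw [Finset.mul_sum]
    rw [h2]
    rw [finsum_mem_eq_finite_toFinset_sum _ hfin] at hsum
    have h6 : (Nat.card (Cls (pi1 htop)) : ℝ) ≤ Module.finrank ℚ K := by
      have h7 := hD M 𝔮 hbot htop K ι art hK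
      rw [h7]
      have h8 : 1 ≤ Module.finrank ℚ M := Module.finrank_pos
      push_cast
      have h9 : (1 : ℝ) ≤ Module.finrank ℚ M := by exact_mod_cast h8
      have h10 : (0 : ℝ) ≤ Nat.card (Cls (pi1 htop)) := Nat.cast_nonneg _
      nlinarith
    have hUn : (1 : ℝ) ≤ (Un 𝔮 : ℝ) := by exact_mod_cast one_le_Un hbot
    have hlU : 0 ≤ Real.log (Un 𝔮) := Real.log_nonneg hUn
    calc 2 * ∑ F ∈ hfin.toFinset, (analyticOrderNatAt (L F) (1 / 2) : ℝ)
        ≤ 2 * (C * (Nat.card (Cls (pi1 htop)) * (1 + Real.log (Un 𝔮)))) :=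
          mul_le_mul_of_nonneg_left hsum (by norm_num)
      _ ≤ 2 * (C * (Module.finrank ℚ K * (1 + Real.log (Un 𝔮)))) := by gcongr
      _ = _ := by ring

end Pool.Agent.N784.CZ
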